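import Mathlib
import Pool.Agent.Helper62.OB.Defs

/-!
# Satellites with braided patterns: definitions
-/

set_option autoImplicit false

namespace Pool.Agent.Helper62.SAT

open Pool.Agent.Helper62.OB Polynomial LaurentPolynomial

/-- The exponent sum (writhe) of a braid word. -/
def writhe {m : ℕ} (L : List (Fin m × Bool)) : ℤ :=
  (L.map fun p => if p.2 then (1 : ℤ) else -1).sum

/-- The homomorphism that puts a braid on `k + 1` strands in the strands `a, ..., a + k` of a braid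
on `N + 1` strands. -/
def emb (k a N : ℕ) (h : a + k ≤ N) : BraidGroup k →* BraidGroup N :=
  braidLift (fun i : Fin k => sigma ⟨a + i.val, by omega⟩)
    (fun i j hij => artin_braid _ _ (by simp only; omega))
    (fun i j hij => artin_comm _ _ (by simp only; omega))

theorem emb_sigma (k a N : ℕ) (h : a + k ≤ N) (i : Fin k) :
    emb k a N h (sigma i) = sigma ⟨a + i.val, by omega⟩ := by
  unfold emb
  rw [braidLift_sigma]

/-- The ring homomorphism `T ↦ T ^ w`. -/
noncomputable def psi (w : ℕ) : ℤ[T;T⁻¹] →+* ℤ[T;T⁻¹] :=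
  AddMonoidAlgebra.mapDomainRingHom ℤ (AddMonoidHom.mulLeft (w : ℤ))

theorem psi_T (w : ℕ) (n : ℤ) : psi w (T n) = T (w * n) := by
  show AddMonoidAlgebra.mapDomain (AddMonoidHom.mulLeft (w : ℤ)) (AddMonoidAlgebra.single n 1) = _
  rw [AddMonoidAlgebra.mapDomain_single]
  rfl

/-- The places `0, ..., N` as `m + 1` blocks of `k + 1` places. -/
def ee (m k N : ℕ) (hN : N + 1 = (k + 1) * (m + 1)) : Fin (m + 1) × Fin (k + 1) ≃ Fin (N + 1) :=
  finProdFinEquiv.trans (finCongr (by rw [hN, mul_comm]))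

theorem ee_val (m k N : ℕ) (hN : N + 1 = (k + 1) * (m + 1)) (x : Fin (m + 1) × Fin (k + 1)) :
    (ee m k N hN x).val = x.2.val + (k + 1) * x.1.val := rfl

/-- The Burau matrix of a braid. -/
noncomputable def bu (N : ℕ) (γ : BraidGroup N) : Matrix (Fin (N + 1)) (Fin (N + 1)) ℤ[T;T⁻¹] :=
  (burau N γ : Matrix (Fin (N + 1)) (Fin (N + 1)) ℤ[T;T⁻¹])

theorem bu_one (N : ℕ) : bu N 1 = 1 := by
  unfold bu
  rw [map_one, Units.val_one]

theorem bu_mul (N : ℕ) (γ δ : BraidGroup N) : bu N (γ * δ) = bu N γ * bu N δ := by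
  unfold bu
  rw [map_mul, Units.val_mul]

theorem bu_mul_inv (N : ℕ) (γ : BraidGroup N) : bu N γ * bu N γ⁻¹ = 1 := by
  rw [← bu_mul, mul_inv_cancel, bu_one]

theorem bu_inv_mul (N : ℕ) (γ : BraidGroup N) : bu N γ⁻¹ * bu N γ = 1 := by
  rw [← bu_mul, inv_mul_cancel, bu_one]

theorem bu_sigma (N : ℕ) (i : Fin N) : bu N (sigma i) = bmat N (T 1) i := by
  unfold bu burau
  rw [braidLift_sigma]

theorem bu_sigma_inv (N : ℕ) (i : Fin N) : bu N (sigma i)⁻¹ = bmatInv N (T 1) (T (-1)) i := by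
  have h1 := bu_inv_mul N (sigma i)
  have h2 := bmat_mul_inv N (T 1 : ℤ[T;T⁻¹]) (T (-1)) (by rw [← T_add]; rfl) i
  rw [bu_sigma] at h1
  calc bu N (sigma i)⁻¹ = bu N (sigma i)⁻¹ * (bmat N (T 1) i * bmatInv N (T 1) (T (-1)) i) := by
        rw [h2, mul_one]
    _ = _ := by rw [← mul_assoc, h1, one_mul]

/-- A property of braids that holds for `1`, the generators and their inverses, and is stable under
products, holds for all braids. -/
theorem braid_induction {N : ℕ} {P : BraidGroup N → Prop} (h1 : P 1)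
    (hs : ∀ i, P (sigma i)) (hs' : ∀ i, P (sigma i)⁻¹) (hm : ∀ γ δ, P γ → P δ → P (γ * δ))
    (γ : BraidGroup N) : P γ := by
  have key : ∀ γ ∈ Subgroup.closure (Set.range (PresentedGroup.of : Fin N → BraidGroup N)),
      P γ ∧ P γ⁻¹ := by
    intro γ hγ
    induction hγ using Subgroup.closure_induction with
    | mem y hy =>
      obtain ⟨i, rfl⟩ := hy
      exact ⟨hs i, hs' i⟩
    | one => exact ⟨h1, by rw [inv_one]; exact h1⟩
    | mul y z _ _ hy hz => exact ⟨hm _ _ hy.1 hz.1, by rw [mul_inv_rev]; exact hm _ _ hz.2 hy.2⟩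
    | inv y _ hy => exact ⟨hy.2, by rw [inv_inv]; exact hy.1⟩
  exact (key γ (by rw [PresentedGroup.closure_range_of]; exact Subgroup.mem_top _)).1

end Pool.Agent.Helper62.SAT
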