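import Mathlib
import Pool.Agent.Helper62.SAT.Defs

/-!
# Linear algebra for the satellite formula

* `det_split`: if `E' E = 1`, `F G = 1`, `F E = 0`, `E' G = 0`, `E E' + G F = 1`, `M E = E A`,
  `F M = B F`, then `det M = det A * det B`.
* the base matrices `E0, E0', F0, G0` of the space of columns modulo the column of ones.
-/

set_option autoImplicit false

namespace Pool.Agent.Helper62.SAT

open Pool.Agent.Helper62.OB Matrix
open scoped Kronecker

/-- `U = [E | G]`, `U' = [E' ; F]` are inverse to each other and `U' M U` is block triangular: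
its blocks are `E' M E = A`, `E' M G`, `F M E = 0`, `F M G = B`. -/
theorem det_split {R n a b : Type*} [CommRing R] [Fintype n] [DecidableEq n] [Fintype a]
    [DecidableEq a] [Fintype b] [DecidableEq b] (M : Matrix n n R) (A : Matrix a a R)
    (B : Matrix b b R) (E : Matrix n a R) (F : Matrix b n R) (E' : Matrix a n R)
    (G : Matrix n b R) (h1 : E' * E = 1) (h2 : F * G = 1) (h3 : F * E = 0) (h4 : E' * G = 0)
    (h5 : E * E' + G * F = 1) (hA : M * E = E * A) (hB : F * M = B * F) :
    M.det = A.det * B.det := by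
  have hU : fromRows E' F * fromCols E G = 1 := by
    rw [fromRows_mul_fromCols, h1, h2, h3, h4, fromBlocks_one]
  have hU' : fromCols E G * fromRows E' F = 1 := by
    rw [fromCols_mul_fromRows, h5]
  have h6 : fromRows E' F * M * fromCols E G = fromBlocks A (E' * M * G) 0 B := by
    rw [fromRows_mul, fromRows_mul_fromCols]
    congr 1
    · rw [Matrix.mul_assoc, hA, ← Matrix.mul_assoc, h1, Matrix.one_mul]
    · rw [hB, Matrix.mul_assoc, h3, Matrix.mul_zero]
    · rw [hB, Matrix.mul_assoc, h2, Matrix.mul_one]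
  rw [← det_fromBlocks_zero₂₁, ← h6, det_conj_of_mul_eq_one hU hU']

/-! ### The base matrices -/

section base

variable (R : Type*) [CommRing R] (k : ℕ)

/-- the column of ones -/
def E0 : Matrix (Fin (k + 1)) Unit R := fun _ _ => 1

/-- the first coordinate -/
def E0' : Matrix Unit (Fin (k + 1)) R := fun _ j => if j = 0 then 1 else 0

/-- the projection modulo the column of ones -/
def F0 : Matrix (Fin k) (Fin (k + 1)) R :=
  fun l j => (if j = l.succ then 1 else 0) - (if j = 0 then 1 else 0)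

/-- the section of the projection -/
def G0 : Matrix (Fin (k + 1)) (Fin k) R := fun i l => if i = l.succ then 1 else 0

theorem E0'_mul_E0 : E0' R k * E0 R k = 1 := by
  ext i j
  simp [Matrix.mul_apply, E0', E0]

theorem F0_mul_G0 : F0 R k * G0 R k = 1 := by
  ext i j
  simp [Matrix.mul_apply, F0, G0, Matrix.one_apply, eq_comm]

theorem F0_mul_E0 : F0 R k * E0 R k = 0 := by
  ext i j
  simp [Matrix.mul_apply, F0, E0, Finset.sum_sub_distrib]

theorem E0'_mul_G0 : E0' R k * G0 R k = 0 := by
  ext i j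
  simp [Matrix.mul_apply, E0', G0]

theorem base_sum : E0 R k * E0' R k + G0 R k * F0 R k = 1 := by
  ext i j
  refine Fin.cases ?_ (fun i' => ?_) i
  · have h : ∀ l : Fin k, ¬ (0 : Fin (k + 1)) = l.succ := fun l => (Fin.succ_ne_zero l).symm
    simp [Matrix.mul_apply, E0, E0', F0, G0, Matrix.one_apply, Matrix.add_apply, h, eq_comm]
  · simp [Matrix.mul_apply, E0, E0', F0, G0, Matrix.one_apply, Matrix.add_apply, eq_comm]

end base

/-- the matrix of the operator modulo the column of ones (for a matrix that fixes this column) -/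
def red {R : Type*} [CommRing R] {k : ℕ} (ρ : Matrix (Fin (k + 1)) (Fin (k + 1)) R) :
    Matrix (Fin k) (Fin k) R := F0 R k * ρ * G0 R k

theorem F0_mul {R : Type*} [CommRing R] {k : ℕ} (ρ : Matrix (Fin (k + 1)) (Fin (k + 1)) R)
    (h : ρ * E0 R k = E0 R k) : F0 R k * ρ = red ρ * F0 R k := by
  calc F0 R k * ρ = F0 R k * ρ * (E0 R k * E0' R k + G0 R k * F0 R k) := by
        rw [base_sum, Matrix.mul_one]
    _ = F0 R k * (ρ * E0 R k) * E0' R k + F0 R k * ρ * G0 R k * F0 R k := by
        simp only [Matrix.mul_add, Matrix.mul_assoc]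
    _ = _ := by rw [h, F0_mul_E0, Matrix.zero_mul, zero_add, red]

theorem red_mul {R : Type*} [CommRing R] {k : ℕ} (ρ ρ' : Matrix (Fin (k + 1)) (Fin (k + 1)) R)
    (h : ρ * E0 R k = E0 R k) : red (ρ * ρ') = red ρ * red ρ' := by
  calc red (ρ * ρ') = F0 R k * ρ * ρ' * G0 R k := by rw [red, Matrix.mul_assoc (F0 R k) ρ ρ']
    _ = red ρ * red ρ' := by
        rw [F0_mul ρ h]
        simp only [red, Matrix.mul_assoc]

theorem red_one {R : Type*} [CommRing R] {k : ℕ} :
    red (1 : Matrix (Fin (k + 1)) (Fin (k + 1)) R) = 1 := by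
  rw [red, Matrix.mul_one, F0_mul_G0]

/-- The determinant of `1 - ρ + 1 e₀ᵀ` is the determinant of `1 - red ρ`. -/
theorem det_one_sub_red {R : Type*} [CommRing R] {k : ℕ}
    (ρ : Matrix (Fin (k + 1)) (Fin (k + 1)) R) (h : ρ * E0 R k = E0 R k) :
    (1 - ρ + E0 R k * E0' R k).det = (1 - red ρ).det := by
  have h1 := det_split (1 - ρ + E0 R k * E0' R k) (1 : Matrix Unit Unit R) (1 - red ρ) (E0 R k)
    (F0 R k) (E0' R k) (G0 R k) (E0'_mul_E0 R k) (F0_mul_G0 R k) (F0_mul_E0 R k)
    (E0'_mul_G0 R k) (base_sum R k)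
    (by rw [Matrix.add_mul, Matrix.sub_mul, h, Matrix.one_mul, sub_self, zero_add,
      Matrix.mul_assoc, E0'_mul_E0])
    (by rw [Matrix.mul_add, Matrix.mul_sub, F0_mul ρ h, Matrix.mul_one, ← Matrix.mul_assoc,
      F0_mul_E0, Matrix.zero_mul, add_zero, Matrix.sub_mul, Matrix.one_mul])
  rw [h1, det_one, one_mul]

end Pool.Agent.Helper62.SAT
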