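import Mathlib
import Pool.Agent.Helper62.SAT.Lin
import Pool.Agent.Helper62.OB.St.LinAlg

/-!
# General facts on the Burau matrices
-/

set_option autoImplicit false

namespace Pool.Agent.Helper62.SAT

open Pool.Agent.Helper62.OB Matrix Polynomial LaurentPolynomial

private theorem vec_E0 {R : Type*} [CommRing R] (m : ℕ) (i : Fin m) (u : Fin (m + 1) → R) :
    vecMulVec u (brow m i : Fin (m + 1) → R) * E0 R m = 0 := by
  ext a b
  rw [Matrix.mul_apply]
  have h := brow_dot m i (fun _ => (1 : R))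
  rw [sub_self] at h
  have h2 : ∑ j, vecMulVec u (brow m i : Fin (m + 1) → R) a j * E0 R m j b =
      u a * (brow m i ⬝ᵥ fun _ => (1 : R)) := by
    rw [dotProduct, Finset.mul_sum]
    apply Finset.sum_congr rfl
    intro j _
    rw [vecMulVec_apply, E0]
    ring
  rw [h2, h, mul_zero]
  rfl

/-- The Burau matrices fix the column of ones. -/
theorem bu_E0 (N : ℕ) (γ : BraidGroup N) : bu N γ * E0 ℤ[T;T⁻¹] N = E0 ℤ[T;T⁻¹] N := by
  induction γ using braid_induction with
  | h1 => rw [bu_one, Matrix.one_mul]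
  | hs i =>
    rw [bu_sigma, bmat, Matrix.add_mul, Matrix.one_mul, vec_E0, add_zero]
  | hs' i =>
    rw [bu_sigma_inv, bmatInv, Matrix.add_mul, Matrix.one_mul, Matrix.smul_mul, vec_E0, smul_zero,
      add_zero]
  | hm γ δ h1 h2 => rw [bu_mul, Matrix.mul_assoc, h2, h1]

/-- The row `1, T, T², ...` -/
noncomputable def rowT (N : ℕ) : Matrix Unit (Fin (N + 1)) ℤ[T;T⁻¹] := fun _ j => T (j.val : ℤ)

private theorem rowT_bcol (N : ℕ) (i : Fin N) (v : Fin (N + 1) → ℤ[T;T⁻¹]) :
    rowT N * vecMulVec (bcol N (T 1 : ℤ[T;T⁻¹]) i) v = 0 := by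
  ext a b
  rw [Matrix.mul_apply]
  have n1 : i.succ ≠ i.castSucc := by
    intro h1
    have := congrArg Fin.val h1
    simp at this
  have h : ∑ j : Fin (N + 1), T (j.val : ℤ) * bcol N (T 1 : ℤ[T;T⁻¹]) i j = 0 := by
    have h1 : ∀ j : Fin (N + 1), T (j.val : ℤ) * bcol N (T 1 : ℤ[T;T⁻¹]) i j =
        (if j = i.castSucc then -(T (i.val + 1 : ℤ)) else 0) +
          (if j = i.succ then T (i.val + 1 : ℤ) else 0) := by
      intro j
      rw [bcol]
      by_cases h2 : j = i.castSucc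
      · subst h2
        rw [if_pos rfl, if_pos rfl, if_neg (Ne.symm n1), add_zero, mul_neg, ← T_add]
        rfl
      · rw [if_neg h2, if_neg h2, zero_add]
        by_cases h3 : j = i.succ
        · subst h3
          rw [if_pos rfl, if_pos rfl, mul_one]
          rfl
        · rw [if_neg h3, if_neg h3, mul_zero]
    rw [Finset.sum_congr rfl (fun j _ => h1 j), Finset.sum_add_distrib, Finset.sum_ite_eq',
      Finset.sum_ite_eq', if_pos (Finset.mem_univ _), if_pos (Finset.mem_univ _)]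
    ring
  have h2 : ∑ j, rowT N a j * vecMulVec (bcol N (T 1 : ℤ[T;T⁻¹]) i) v j b =
      (∑ j : Fin (N + 1), T (j.val : ℤ) * bcol N (T 1 : ℤ[T;T⁻¹]) i j) * v b := by
    rw [Finset.sum_mul]
    apply Finset.sum_congr rfl
    intro j _
    rw [vecMulVec_apply, rowT]
    ring
  rw [h2, h, zero_mul]
  rfl

/-- The Burau matrices fix the row `1, T, T², ...`. -/
theorem rowT_bu (N : ℕ) (γ : BraidGroup N) : rowT N * bu N γ = rowT N := by
  induction γ using braid_induction with
  | h1 => rw [bu_one, Matrix.mul_one]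
  | hs i =>
    rw [bu_sigma, bmat, Matrix.mul_add, Matrix.mul_one, rowT_bcol, add_zero]
  | hs' i =>
    rw [bu_sigma_inv, bmatInv, Matrix.mul_add, Matrix.mul_one, Matrix.mul_smul, rowT_bcol,
      smul_zero, add_zero]
  | hm γ δ h1 h2 => rw [bu_mul, ← Matrix.mul_assoc, h1, h2]

/-- The determinant of `1 - ψ + 1 e₀ᵀ` is `(1 + T + ... + T^N)` times the Alexander polynomial. -/
theorem det_alex (N : ℕ) (γ : BraidGroup N) :
    (1 - bu N γ + E0 ℤ[T;T⁻¹] N * E0' ℤ[T;T⁻¹] N).det =
      (∑ i ∈ Finset.range (N + 1), (T (i : ℤ) : ℤ[T;T⁻¹])) * alexander γ := by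
  have h1 : ∀ i, ∑ j, (1 - bu N γ) i j = 0 := by
    intro i
    have h := congrFun (congrFun (bu_E0 N γ) i) ()
    rw [Matrix.mul_apply] at h
    simp only [E0, mul_one] at h
    simp only [Matrix.sub_apply, Finset.sum_sub_distrib, h, Matrix.one_apply]
    simp
  have h2 : ∀ j, ∑ i : Fin (N + 1), T (i.val : ℤ) * (1 - bu N γ) i j = 0 := by
    intro j
    have h := congrFun (congrFun (rowT_bu N γ) ()) j
    rw [Matrix.mul_apply] at h
    simp only [rowT] at h
    simp only [Matrix.sub_apply, mul_sub, Finset.sum_sub_distrib, h, Matrix.one_apply]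
    simp
  have h3 := det_rank_one N (1 - bu N γ) (fun j => if j = 0 then 1 else 0)
    (fun i => T (i.val : ℤ)) h1 h2 (by simp)
  have h4 : (Matrix.of fun (_ j : Fin (N + 1)) => if j = 0 then (1 : ℤ[T;T⁻¹]) else 0) =
      E0 ℤ[T;T⁻¹] N * E0' ℤ[T;T⁻¹] N := by
    ext i j
    simp [Matrix.mul_apply, E0, E0']
  rw [h4] at h3
  rw [h3, Finset.sum_ite_eq', if_pos (Finset.mem_univ _), one_mul,
    Fin.sum_univ_eq_sum_range (fun i => (T (i : ℤ) : ℤ[T;T⁻¹])) (N + 1)]
  rfl

/-- The geometric sum is not zero. -/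
theorem geom_ne (N : ℕ) : (∑ i ∈ Finset.range (N + 1), (T (i : ℤ) : ℤ[T;T⁻¹])) ≠ 0 := by
  have h1 : (∑ i ∈ Finset.range (N + 1), (T (i : ℤ) : ℤ[T;T⁻¹])) =
      toLaurent (∑ i ∈ Finset.range (N + 1), (X : ℤ[X]) ^ i) := by
    rw [map_sum]
    apply Finset.sum_congr rfl
    intro i _
    rw [toLaurent_X_pow]
  rw [h1]
  intro h2
  have h3 : (∑ i ∈ Finset.range (N + 1), (X : ℤ[X]) ^ i) = 0 := by
    apply toLaurent_injective
    rw [h2, map_zero]
  have h4 := congrArg (Polynomial.eval 1) h3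
  simp only [Polynomial.eval_finsetSum, Polynomial.eval_pow, Polynomial.eval_X, one_pow,
    Finset.sum_const, Finset.card_range, Polynomial.eval_zero] at h4
  simp at h4
  omega

/-- The Alexander polynomial of the closed braid from the matrix modulo the column of ones. -/
theorem red_alex (N : ℕ) (γ : BraidGroup N) :
    (1 - red (bu N γ)).det =
      (∑ i ∈ Finset.range (N + 1), (T (i : ℤ) : ℤ[T;T⁻¹])) * alexander γ := by
  rw [← det_one_sub_red _ (bu_E0 N γ), det_alex]

end Pool.Agent.Helper62.SAT
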