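import Mathlib
import Pool.Agent.Helper62.SAT.BurauGen

/-!
# The monomial matrices of a braid word

In the cable with `k + 1` parallel strands the Burau matrix of a crossing acts on the columns modulo
the columns which are constant on every block by the monomial matrix with the block
`[[0, q], [1, 0]]`, `q = T ^ (k + 1)`.
-/

set_option autoImplicit false

namespace Pool.Agent.Helper62.SAT

open Pool.Agent.Helper62.OB Matrix Polynomial LaurentPolynomial

/-- The identity matrix with the block `[[0, q], [q', 0]]` in the places `i, i + 1`. -/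
def mono {R : Type*} [CommRing R] (m : ℕ) (q q' : R) (i : Fin m) :
    Matrix (Fin (m + 1)) (Fin (m + 1)) R :=
  fun a b => if a = i.castSucc then (if b = i.succ then q else 0)
    else if a = i.succ then (if b = i.castSucc then q' else 0)
    else (if a = b then 1 else 0)

/-- The monomial matrix of a braid word: a positive crossing gives the block `[[0, T^w], [1, 0]]`,
a negative one the inverse block `[[0, 1], [T^(-w), 0]]`. -/
noncomputable def mon (m w : ℕ) (L : List (Fin m × Bool)) :
    Matrix (Fin (m + 1)) (Fin (m + 1)) ℤ[T;T⁻¹] :=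
  (L.map fun p => if p.2 then mono m (T (w : ℤ)) 1 p.1 else mono m 1 (T (-(w : ℤ))) p.1).prod

theorem mon_nil (m w : ℕ) : mon m w [] = 1 := rfl

theorem mon_cons (m w : ℕ) (p : Fin m × Bool) (L : List (Fin m × Bool)) :
    mon m w (p :: L) =
      (if p.2 then mono m (T (w : ℤ)) 1 p.1 else mono m 1 (T (-(w : ℤ))) p.1) * mon m w L := by
  simp [mon]

theorem mono_mul_apply {R : Type*} [CommRing R] (m : ℕ) (q q' : R) (i : Fin m)
    (M : Matrix (Fin (m + 1)) (Fin (m + 1)) R) (a b : Fin (m + 1)) :
    (mono m q q' i * M) a b = if a = i.castSucc then q * M i.succ b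
      else if a = i.succ then q' * M i.castSucc b else M a b := by
  rw [Matrix.mul_apply]
  by_cases h1 : a = i.castSucc
  · simp only [mono, if_pos h1, ite_mul, zero_mul, Finset.sum_ite_eq', Finset.mem_univ, if_true]
  · by_cases h2 : a = i.succ
    · simp only [mono, if_neg h1, if_pos h2, ite_mul, zero_mul, Finset.sum_ite_eq',
        Finset.mem_univ, if_true]
    · simp only [mono, if_neg h1, if_neg h2, ite_mul, one_mul, zero_mul, Finset.sum_ite_eq,
        Finset.mem_univ, if_true]

/-- `[[0, q], [q', 0]]` is inverse to `[[0, r], [r', 0]]` when `q r' = 1`, `q' r = 1`. -/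
theorem mono_mul_mono {R : Type*} [CommRing R] (m : ℕ) (q q' r r' : R) (i : Fin m)
    (h1 : q * r' = 1) (h2 : q' * r = 1) : mono m q q' i * mono m r r' i = 1 := by
  have n1 : i.castSucc ≠ i.succ := by
    intro h1
    have := congrArg Fin.val h1
    simp at this
  ext1 a b
  rw [mono_mul_apply]
  by_cases ha : a = i.castSucc
  · rw [if_pos ha, mono, if_neg n1.symm, if_pos rfl, ha, Matrix.one_apply]
    by_cases hb : b = i.castSucc
    · rw [if_pos hb, if_pos hb.symm, h1]
    · rw [if_neg hb, if_neg (Ne.symm hb), mul_zero]
  · rw [if_neg ha]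
    by_cases ha2 : a = i.succ
    · rw [if_pos ha2, mono, if_pos rfl, ha2, Matrix.one_apply]
      by_cases hb : b = i.succ
      · rw [if_pos hb, if_pos hb.symm, h2]
      · rw [if_neg hb, if_neg (Ne.symm hb), mul_zero]
    · rw [if_neg ha2, mono, if_neg ha, if_neg ha2, Matrix.one_apply]

end Pool.Agent.Helper62.SAT
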