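import Mathlib
import Pool.Agent.Helper62.SAT.MonDefs
import Pool.Agent.Helper62.OB.St.BurauRn

/-!
# The Burau matrix of a run

Row `a + j` with `j < r` is `(1 - T) e_a + T e_{a+j+1}`, row `a + r` is `e_a`, the other rows are `e_x`.
Proof: induction on `r` with `rn N a (r + 1) = sg N (a + r) * rn N a r` as in `OB.burau_rn` (the case
`a = 0`, in `OB/St/BurauRn.lean`), using `OB.burauRn_mul_apply`, `OB.burauRn_sg`, `bu_mul`.
-/

set_option autoImplicit false

namespace Pool.Agent.Helper62.SAT

open Pool.Agent.Helper62.OB Matrix Polynomial LaurentPolynomial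

theorem bu_rn (N a r : ℕ) (h : a + r ≤ N) (x y : Fin (N + 1)) :
    bu N (rn N a r) x y =
      if a ≤ x.val ∧ x.val < a + r then
        (1 - T 1) * (if y.val = a then 1 else 0) + T 1 * (if y.val = x.val + 1 then 1 else 0)
      else if x.val = a + r then (if y.val = a then 1 else 0)
      else (if x = y then 1 else 0) := by
  induction r generalizing x with
  | zero =>
    have h1 : bu N (rn N a 0) = 1 := by
      change bu N 1 = 1
      exact bu_one N
    rw [if_neg (show ¬ (a ≤ x.val ∧ x.val < a + 0) by omega), h1, Matrix.one_apply]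
    by_cases h2 : x.val = a + 0
    · rw [if_pos h2]
      have h3 : (y.val = a) ↔ x = y := by
        rw [Fin.ext_iff]
        omega
      simp only [h3]
    · rw [if_neg h2]
  | succ r ih =>
    have hr' : a + r < N := by omega
    have h1 : bu N (rn N a (r + 1)) = bmat N (T 1) ⟨a + r, hr'⟩ * bu N (rn N a r) := by
      have h2 : rn N a (r + 1) = sg N (a + r) * rn N a r := rfl
      rw [h2, bu_mul]
      congr 1
      exact burauRn_sg N (a + r) hr'
    have e1 : (⟨a + r, hr'⟩ : Fin N).castSucc.val = a + r := rfl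
    have e2 : (⟨a + r, hr'⟩ : Fin N).succ.val = a + r + 1 := rfl
    rw [h1, burauRn_mul_apply, ih (by omega), ih (by omega), ih (by omega), e1, e2]
    rw [if_neg (show ¬ (a ≤ a + r ∧ a + r < a + r) by omega), if_pos (rfl : a + r = a + r),
      if_neg (show ¬ (a ≤ a + r + 1 ∧ a + r + 1 < a + r) by omega),
      if_neg (show ¬ a + r + 1 = a + r by omega)]
    have e3 : ((⟨a + r, hr'⟩ : Fin N).succ = y) ↔ y.val = a + r + 1 := by
      rw [Fin.ext_iff, e2]
      exact eq_comm
    unfold bcol
    rcases lt_trichotomy x.val (a + r) with h | h | h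
    · have n1 : x ≠ (⟨a + r, hr'⟩ : Fin N).castSucc := by
        intro h3; rw [h3, e1] at h; exact lt_irrefl _ h
      have n2 : x ≠ (⟨a + r, hr'⟩ : Fin N).succ := by
        intro h3; rw [h3, e2] at h; omega
      rw [if_neg n1, if_neg n2, zero_mul, add_zero]
      by_cases h4 : a ≤ x.val
      · rw [if_pos ⟨h4, h⟩, if_pos (show a ≤ x.val ∧ x.val < a + (r + 1) by omega)]
      · rw [if_neg (show ¬ (a ≤ x.val ∧ x.val < a + r) by omega),
          if_neg (show ¬ x.val = a + r by omega),
          if_neg (show ¬ (a ≤ x.val ∧ x.val < a + (r + 1)) by omega),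
          if_neg (show ¬ x.val = a + (r + 1) by omega)]
    · have n1 : x = (⟨a + r, hr'⟩ : Fin N).castSucc := Fin.ext h
      rw [if_pos n1, if_neg (show ¬ (a ≤ x.val ∧ x.val < a + r) by omega), if_pos h,
        if_pos (show a ≤ x.val ∧ x.val < a + (r + 1) by omega), h]
      simp only [e3]
      ring
    · by_cases h2 : x.val = a + r + 1
      · have n1 : x ≠ (⟨a + r, hr'⟩ : Fin N).castSucc := by
          intro h3; rw [h3, e1] at h; exact lt_irrefl _ h
        have n2 : x = (⟨a + r, hr'⟩ : Fin N).succ := Fin.ext h2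
        rw [if_neg n1, if_pos n2, if_neg (show ¬ (a ≤ x.val ∧ x.val < a + r) by omega),
          if_neg (show ¬ x.val = a + r by omega),
          if_neg (show ¬ (a ≤ x.val ∧ x.val < a + (r + 1)) by omega),
          if_pos (show x.val = a + (r + 1) by omega), n2]
        ring
      · have n1 : x ≠ (⟨a + r, hr'⟩ : Fin N).castSucc := by
          intro h3; rw [h3, e1] at h; exact lt_irrefl _ h
        have n2 : x ≠ (⟨a + r, hr'⟩ : Fin N).succ := by
          intro h3; exact h2 (by rw [h3, e2])
        rw [if_neg n1, if_neg n2, zero_mul, add_zero,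
          if_neg (show ¬ (a ≤ x.val ∧ x.val < a + r) by omega),
          if_neg (show ¬ x.val = a + r by omega),
          if_neg (show ¬ (a ≤ x.val ∧ x.val < a + (r + 1)) by omega),
          if_neg (show ¬ x.val = a + (r + 1) by omega)]

end Pool.Agent.Helper62.SAT
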