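import Mathlib
import Pool.Agent.Helper62.SAT.Blk1

/-!
# The rows of the Burau matrix of the crossing of two blocks

The rows of the Burau matrix of `rn N a n * rn N (a + 1) n * ⋯ * rn N (a + r - 1) n`
(`r ≤ n`, `a + 2 n ≤ N + 1`), by induction on `r` (multiply from the right by the matrix of
`rn N (a + r) n`, `bu_rn`; `((List.range (r + 1)).map _).prod` by `List.range_succ`): row `a + j`,
`j < n`, is `∑_{l < r} (1 - T) T^l e_{a+l} + T^r e_{a+j+r}`; row `a + n + j`, `j < n`, is `e_{a+j}` when
`j < r` and `e_{a+n+j}` otherwise; the other rows are `e_x`.  For `r = n`, `a = i n` this is the claim.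
-/

set_option autoImplicit false

namespace Pool.Agent.Helper62.SAT

open Pool.Agent.Helper62.OB Matrix Polynomial LaurentPolynomial

/-- the row with the entry `1` in the place `k` -/
private noncomputable def ev (N k : ℕ) : Fin (N + 1) → ℤ[T;T⁻¹] := fun y => if y.val = k then 1 else 0

private theorem ev_mul (N k : ℕ) (hk : k < N + 1)
    (M : Matrix (Fin (N + 1)) (Fin (N + 1)) ℤ[T;T⁻¹]) : ev N k ᵥ* M = M ⟨k, hk⟩ := by
  funext y
  have h1 : ∀ z : Fin (N + 1), ev N k z * M z y = if z = ⟨k, hk⟩ then M z y else 0 := by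
    intro z
    unfold ev
    by_cases h2 : z.val = k
    · rw [if_pos h2, if_pos (Fin.ext h2), one_mul]
    · rw [if_neg h2, if_neg (fun h3 => h2 (congrArg Fin.val h3)), zero_mul]
  rw [Matrix.vecMul, dotProduct, Finset.sum_congr rfl (fun z _ => h1 z), Finset.sum_ite_eq',
    if_pos (Finset.mem_univ _)]

private theorem rn_row (N a r : ℕ) (h : a + r ≤ N) (x : Fin (N + 1)) :
    bu N (rn N a r) x =
      if a ≤ x.val ∧ x.val < a + r then
        (1 - T 1 : ℤ[T;T⁻¹]) • ev N a + (T 1 : ℤ[T;T⁻¹]) • ev N (x.val + 1)
      else if x.val = a + r then ev N a else ev N x.val := by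
  funext y
  rw [bu_rn N a r h x y]
  split_ifs with h1 h2 h3 h4 <;> simp_all [ev, Fin.ext_iff, eq_comm]

private theorem blk_row (N a n : ℕ) (h : a + 2 * n ≤ N + 1) (r : ℕ) (hr : r ≤ n)
    (x : Fin (N + 1)) :
    bu N ((List.range r).map fun k => rn N (a + k) n).prod x =
      if a ≤ x.val ∧ x.val < a + n then
        (∑ l ∈ Finset.range r, ((1 - T 1) * T (l : ℤ) : ℤ[T;T⁻¹]) • ev N (a + l)) +
          (T (r : ℤ) : ℤ[T;T⁻¹]) • ev N (x.val + r)
      else if a + n ≤ x.val ∧ x.val < a + n + r then ev N (x.val - n)
      else ev N x.val := by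
  induction r with
  | zero =>
    have h1 : bu N ((List.range 0).map fun k => rn N (a + k) n).prod = 1 := by
      change bu N 1 = 1
      exact bu_one N
    have h2 : (1 : Matrix (Fin (N + 1)) (Fin (N + 1)) ℤ[T;T⁻¹]) x = ev N x.val := by
      funext y
      rw [Matrix.one_apply, ev]
      simp only [Fin.ext_iff, eq_comm]
    rw [h1, h2]
    rw [if_neg (show ¬ (a + n ≤ x.val ∧ x.val < a + n + 0) by omega)]
    simp
  | succ r ih =>
    have hb : a + r + n ≤ N := by omega
    have h1 : bu N ((List.range (r + 1)).map fun k => rn N (a + k) n).prod x =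
        bu N ((List.range r).map fun k => rn N (a + k) n).prod x ᵥ* bu N (rn N (a + r) n) := by
      rw [List.range_succ, List.map_append, List.prod_append, bu_mul]
      simp only [List.map_cons, List.map_nil, List.prod_cons, List.prod_nil, mul_one]
      rfl
    rw [h1, ih (by omega)]
    by_cases c1 : a ≤ x.val ∧ x.val < a + n
    · rw [if_pos c1, if_pos c1, Matrix.add_vecMul, Matrix.sum_vecMul, Matrix.smul_vecMul,
        ev_mul N (x.val + r) (by omega), rn_row N (a + r) n hb, if_pos (by simp only; omega),
        Finset.sum_range_succ]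
      have h2 : ∀ l ∈ Finset.range r, (((1 - T 1) * T (l : ℤ) : ℤ[T;T⁻¹]) • ev N (a + l)) ᵥ*
          bu N (rn N (a + r) n) = ((1 - T 1) * T (l : ℤ) : ℤ[T;T⁻¹]) • ev N (a + l) := by
        intro l hl
        have hl' := Finset.mem_range.mp hl
        rw [Matrix.smul_vecMul, ev_mul N (a + l) (by omega), rn_row N (a + r) n hb,
          if_neg (by simp only; omega), if_neg (by simp only; omega)]
      rw [Finset.sum_congr rfl h2, smul_add, smul_smul, smul_smul, ← T_add, mul_comm (T (r : ℤ)),
        add_assoc (∑ _ ∈ _, _)]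
      norm_cast
    · rw [if_neg c1, if_neg c1]
      by_cases c2 : a + n ≤ x.val ∧ x.val < a + n + r
      · rw [if_pos c2, if_pos (show a + n ≤ x.val ∧ x.val < a + n + (r + 1) by omega),
          ev_mul N (x.val - n) (by omega), rn_row N (a + r) n hb, if_neg (by simp only; omega),
          if_neg (by simp only; omega)]
      · rw [if_neg c2, ev_mul N x.val (by omega), rn_row N (a + r) n hb]
        by_cases c3 : x.val = a + r + n
        · rw [if_neg (by simp only; omega), if_pos (by simp only; omega),
            if_pos (show a + n ≤ x.val ∧ x.val < a + n + (r + 1) by omega)]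
          congr 1
          omega
        · rw [if_neg (by simp only; omega), if_neg (by simp only; omega),
            if_neg (show ¬ (a + n ≤ x.val ∧ x.val < a + n + (r + 1)) by omega)]

/-- the rows of the matrix of the crossing of two blocks -/
theorem bu_blk_rows (n N i : ℕ) (h : (i + 2) * n ≤ N + 1) (x y : Fin (N + 1)) :
    bu N (blk n N i) x y =
      if i * n ≤ x.val ∧ x.val < i * n + n then
        (if i * n ≤ y.val ∧ y.val < i * n + n then (1 - T 1) * T ((y.val - i * n : ℕ) : ℤ) else 0) +
          (if y.val = x.val + n then T (n : ℤ) else 0)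
      else if i * n + n ≤ x.val ∧ x.val < i * n + 2 * n then (if y.val + n = x.val then 1 else 0)
      else (if x = y then 1 else 0) := by
  have h1 : (i + 2) * n = i * n + 2 * n := by ring
  have h2 := congrFun (blk_row N (i * n) n (by omega) n le_rfl x) y
  rw [show blk n N i = ((List.range n).map fun k => rn N (i * n + k) n).prod from rfl, h2]
  have h3 : ∀ z : Fin (N + 1), (ev N z.val) y = if z = y then 1 else 0 := by
    intro z
    unfold ev
    simp only [Fin.ext_iff, eq_comm]
  by_cases c1 : i * n ≤ x.val ∧ x.val < i * n + n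
  · rw [if_pos c1, if_pos c1, Pi.add_apply, Finset.sum_apply]
    congr 1
    · by_cases c2 : i * n ≤ y.val ∧ y.val < i * n + n
      · rw [if_pos c2, Finset.sum_eq_single_of_mem (y.val - i * n)
          (Finset.mem_range.mpr (by omega))]
        · rw [Pi.smul_apply, ev, if_pos (by omega), smul_eq_mul, mul_one]
        · intro l hl hne
          rw [Pi.smul_apply, ev, if_neg (by omega), smul_zero]
      · rw [if_neg c2]
        apply Finset.sum_eq_zero
        intro l hl
        have hl' := Finset.mem_range.mp hl
        rw [Pi.smul_apply, ev, if_neg (by omega), smul_zero]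
    · rw [Pi.smul_apply, ev, smul_eq_mul, mul_ite, mul_one, mul_zero]
  · rw [if_neg c1, if_neg c1]
    by_cases c2 : i * n + n ≤ x.val ∧ x.val < i * n + 2 * n
    · rw [if_pos c2, if_pos (show i * n + n ≤ x.val ∧ x.val < i * n + n + n by omega), ev]
      have h4 : (y.val = x.val - n) ↔ (y.val + n = x.val) := by omega
      simp only [h4]
    · rw [if_neg c2, if_neg (show ¬ (i * n + n ≤ x.val ∧ x.val < i * n + n + n) by omega), h3]

end Pool.Agent.Helper62.SAT
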