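import Mathlib
import Pool.Agent.Helper62.SAT.Blk2

/-!
# The Burau matrix of the crossing of two blocks in block coordinates

From `bu_blk_rows` with `n = k + 1`: `ee_val`, `x = (i', r)`, `y = (j, s)`; the cases `i' = i`
(`j = i`: `(1 - T) T^s`; `j = i + 1`: `T^n` if `r = s`), `i' = i + 1` (`j = i`: `1` if `r = s`), and the others.
-/

set_option autoImplicit false

namespace Pool.Agent.Helper62.SAT

open Pool.Agent.Helper62.OB Matrix Polynomial LaurentPolynomial
open scoped Kronecker

/-- The Burau matrix of the crossing of the blocks `i`, `i + 1` in block coordinates. -/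
theorem bu_blk (m k N : ℕ) (hN : N + 1 = (k + 1) * (m + 1)) (i : Fin m) :
    (bu N (blk (k + 1) N i.val)).submatrix (ee m k N hN) (ee m k N hN) =
      mono m (T ((k + 1 : ℕ) : ℤ)) 1 i ⊗ₖ (1 : Matrix (Fin (k + 1)) (Fin (k + 1)) ℤ[T;T⁻¹]) +
        Matrix.single i.castSucc i.castSucc (1 : ℤ[T;T⁻¹]) ⊗ₖ
          (Matrix.of fun (_ s : Fin (k + 1)) => (1 - T 1) * (T (s.val : ℤ) : ℤ[T;T⁻¹])) := by
  have hle : (i.val + 2) * (k + 1) ≤ N + 1 := by
    rw [hN, mul_comm (k + 1) (m + 1)]
    exact Nat.mul_le_mul_right _ (by omega)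
  ext1 x y
  obtain ⟨a, r⟩ := x
  obtain ⟨b, s⟩ := y
  have hX : (ee m k N hN (a, r)).val = r.val + (k + 1) * a.val := rfl
  have hY : (ee m k N hN (b, s)).val = s.val + (k + 1) * b.val := rfl
  have hr := r.isLt
  have hs := s.isLt
  have hc : (i.castSucc : Fin (m + 1)).val = i.val := rfl
  have hd : (i.succ : Fin (m + 1)).val = i.val + 1 := rfl
  rw [Matrix.submatrix_apply, bu_blk_rows (k + 1) N i.val hle, Matrix.add_apply,
    Matrix.kroneckerMap_apply, Matrix.kroneckerMap_apply, Matrix.of_apply, Matrix.one_apply,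
    Matrix.single_apply, hX, hY]
  unfold mono
  -- comparison of blocks
  have key : ∀ c : ℕ, ∀ a' : ℕ, ∀ r' : ℕ, r' < k + 1 →
      (c * (k + 1) ≤ r' + (k + 1) * a' ↔ c ≤ a') := by
    intro c a' r' hr'
    constructor
    · intro h
      by_contra h2
      have h3 : (k + 1) * (a' + 1) ≤ (k + 1) * c := Nat.mul_le_mul_left _ (by omega)
      have h4 : (k + 1) * (a' + 1) = (k + 1) * a' + (k + 1) := by ring
      have h5 : c * (k + 1) = (k + 1) * c := mul_comm _ _
      omega
    · intro h
      have h3 : (k + 1) * c ≤ (k + 1) * a' := Nat.mul_le_mul_left _ h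
      have h5 : c * (k + 1) = (k + 1) * c := mul_comm _ _
      omega
  have hm1 : i.val * (k + 1) + (k + 1) = (i.val + 1) * (k + 1) := by ring
  have hm2 : i.val * (k + 1) + 2 * (k + 1) = (i.val + 2) * (k + 1) := by ring
  have kx1 := key i.val a.val r.val hr
  have kx2 := key (i.val + 1) a.val r.val hr
  have kx3 := key (i.val + 2) a.val r.val hr
  have ky1 := key i.val b.val s.val hs
  have ky2 := key (i.val + 1) b.val s.val hs
  have uniq : ∀ a' b' r' s' : ℕ, r' < k + 1 → s' < k + 1 →
      r' + (k + 1) * a' = s' + (k + 1) * b' → a' = b' ∧ r' = s' := by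
    intro a' b' r' s' hr' hs' h
    have e1 := (key a' b' s' hs').1 (by rw [← h, mul_comm a']; omega)
    have e2 := (key b' a' r' hr').1 (by rw [h, mul_comm b']; omega)
    have e3 : a' = b' := le_antisymm e1 e2
    subst e3
    exact ⟨rfl, by omega⟩
  rw [hm1, hm2]
  by_cases h1 : a.val = i.val
  · have ha : a = i.castSucc := Fin.ext h1
    have hA : i.val * (k + 1) ≤ r.val + (k + 1) * a.val ∧
        r.val + (k + 1) * a.val < (i.val + 1) * (k + 1) :=
      ⟨kx1.2 h1.ge, not_le.1 (fun h => by have := kx2.1 h; omega)⟩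
    rw [if_pos hA, if_pos ha]
    by_cases h2 : b.val = i.val
    · have hb : b = i.castSucc := Fin.ext h2
      have hB : i.val * (k + 1) ≤ s.val + (k + 1) * b.val ∧
          s.val + (k + 1) * b.val < (i.val + 1) * (k + 1) :=
        ⟨ky1.2 h2.ge, not_le.1 (fun h => by have := ky2.1 h; omega)⟩
      have hne : ¬ (s.val + (k + 1) * b.val = r.val + (k + 1) * a.val + (k + 1)) := by
        intro h
        have h3 := uniq b.val (a.val + 1) s.val r.val hs hr (by rw [h]; ring)
        omega
      have hns : ¬ b = i.succ := by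
        intro h
        have := congrArg Fin.val h
        rw [hd] at this
        omega
      have hsub : s.val + (k + 1) * b.val - i.val * (k + 1) = s.val := by
        rw [h2, mul_comm (k + 1)]
        omega
      have hab : i.castSucc = a ∧ i.castSucc = b := ⟨ha.symm, hb.symm⟩
      rw [if_pos hB, if_neg hne, if_neg hns, if_pos hab, hsub]
      ring
    · have hB : ¬ (i.val * (k + 1) ≤ s.val + (k + 1) * b.val ∧
          s.val + (k + 1) * b.val < (i.val + 1) * (k + 1)) := by
        rintro ⟨h3, h4⟩
        have h5 := ky1.1 h3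
        have h6 : ¬ i.val + 1 ≤ b.val := fun h => absurd (ky2.2 h) (not_le.2 h4)
        omega
      have hbs : ¬ (i.castSucc = a ∧ i.castSucc = b) := by
        rintro ⟨-, h⟩
        exact h2 (by rw [← h]; rfl)
      rw [if_neg hB, if_neg hbs]
      by_cases h3 : b = i.succ ∧ r = s
      · have h4 : s.val + (k + 1) * b.val = r.val + (k + 1) * a.val + (k + 1) := by
          rw [h3.1, h3.2, hd, h1]
          ring
        rw [if_pos h4, if_pos h3.1, if_pos h3.2]
        ring
      · have h4 : ¬ (s.val + (k + 1) * b.val = r.val + (k + 1) * a.val + (k + 1)) := by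
          intro h
          have h5 := uniq b.val (a.val + 1) s.val r.val hs hr (by rw [h]; ring)
          exact h3 ⟨Fin.ext (by rw [hd]; omega), Fin.ext h5.2.symm⟩
        rw [if_neg h4]
        by_cases h5 : b = i.succ
        · rw [if_pos h5, if_neg (fun h => h3 ⟨h5, h⟩)]
          ring
        · rw [if_neg h5]
          ring
  · have hA : ¬ (i.val * (k + 1) ≤ r.val + (k + 1) * a.val ∧
        r.val + (k + 1) * a.val < (i.val + 1) * (k + 1)) := by
      rintro ⟨h3, h4⟩
      have h5 := kx1.1 h3
      have h6 : ¬ i.val + 1 ≤ a.val := fun h => absurd (kx2.2 h) (not_le.2 h4)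
      omega
    have hna : ¬ a = i.castSucc := fun h => h1 (by rw [h]; rfl)
    have has : ¬ (i.castSucc = a ∧ i.castSucc = b) := fun h => hna h.1.symm
    rw [if_neg hA, if_neg hna, if_neg has, zero_mul, add_zero]
    by_cases h2 : a.val = i.val + 1
    · have ha : a = i.succ := Fin.ext h2
      have hB : (i.val + 1) * (k + 1) ≤ r.val + (k + 1) * a.val ∧
          r.val + (k + 1) * a.val < (i.val + 2) * (k + 1) :=
        ⟨kx2.2 h2.ge, not_le.1 (fun h => by have := kx3.1 h; omega)⟩
      rw [if_pos hB, if_pos ha]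
      by_cases h3 : b = i.castSucc ∧ r = s
      · have h4 : s.val + (k + 1) * b.val + (k + 1) = r.val + (k + 1) * a.val := by
          rw [h3.1, h3.2, hc, h2]
          ring
        rw [if_pos h4, if_pos h3.1, if_pos h3.2, mul_one]
      · have h4 : ¬ (s.val + (k + 1) * b.val + (k + 1) = r.val + (k + 1) * a.val) := by
          intro h
          have h5 := uniq (b.val + 1) a.val s.val r.val hs hr (by rw [← h]; ring)
          exact h3 ⟨Fin.ext (by rw [hc]; omega), Fin.ext h5.2.symm⟩
        rw [if_neg h4]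
        by_cases h5 : b = i.castSucc
        · rw [if_pos h5, if_neg (fun h => h3 ⟨h5, h⟩), mul_zero]
        · rw [if_neg h5, zero_mul]
    · have hB : ¬ ((i.val + 1) * (k + 1) ≤ r.val + (k + 1) * a.val ∧
          r.val + (k + 1) * a.val < (i.val + 2) * (k + 1)) := by
        rintro ⟨h3, h4⟩
        have h5 := kx2.1 h3
        have h6 : ¬ i.val + 2 ≤ a.val := fun h => absurd (kx3.2 h) (not_le.2 h4)
        omega
      have hna2 : ¬ a = i.succ := fun h => h2 (by rw [h]; rfl)
      rw [if_neg hB, if_neg hna2]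
      by_cases h3 : a = b ∧ r = s
      · have h4 : ee m k N hN (a, r) = ee m k N hN (b, s) := by rw [h3.1, h3.2]
        rw [if_pos h4, if_pos h3.1, if_pos h3.2, mul_one]
      · have h4 : ¬ (ee m k N hN (a, r) = ee m k N hN (b, s)) := by
          intro h
          have h5 := (ee m k N hN).injective h
          exact h3 ⟨congrArg Prod.fst h5, congrArg Prod.snd h5⟩
        rw [if_neg h4]
        by_cases h5 : a = b
        · rw [if_pos h5, if_neg (fun h => h3 ⟨h5, h⟩), mul_zero]
        · rw [if_neg h5, zero_mul]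

end Pool.Agent.Helper62.SAT
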