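import Mathlib
import Pool.Agent.Helper62.SAT.Defs
import Pool.Agent.Helper62.OB.St.BraidAlg

/-!
# Crossings of cables of cables

* `run_cabled`: the general version of `OB.braidalg_bw` (same proof, with the offset `v c`):
  `∏_{r<v} rn N (v c + r) (v q) = blk v N (c + q - 1) ⋯ blk v N (c + 1) blk v N c`.
* `blk_cabled`: `blk (v μ) N i = ∏_{k < v μ} rn N (i v μ + k) (v μ)`; write `k = v κ + r` with `κ < μ`,
  `r < v` (general lemma for `List.range (v * μ)`, by induction on `μ`), and the `κ`-th group
  is `run_cabled` with `c = i μ + κ`, `q = μ`.
-/

set_option autoImplicit false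

namespace Pool.Agent.Helper62.SAT

open Pool.Agent.Helper62.OB

/-- the product `blk v N (c + q - 1) * ⋯ * blk v N c` -/
def brun (v N c : ℕ) : ℕ → BraidGroup N
  | 0 => 1
  | q + 1 => blk v N (c + q) * brun v N c q

theorem run_cabled (v N c q : ℕ) :
    brun v N c q = ((List.range v).map fun r => rn N (v * c + r) (v * q)).prod := by
  induction q with
  | zero =>
    rw [mul_zero]
    simp [brun, braidalg_rn_zero]
  | succ q ih =>
    have e1 : ((List.range v).map fun r => rn N (v * c + r) (v * (q + 1))).prod =
        ((List.range v).map fun r => rn N ((c + q) * v + r) v * rn N (v * c + r) (v * q)).prod := by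
      congr 1
      apply List.map_congr_left
      intro r _
      rw [mul_add, mul_one, rn_add, show v * c + r + v * q = (c + q) * v + r by ring]
    rw [e1, braidalg_prod_mul]
    · rw [← ih]
      rfl
    · intro k k' h1 _
      apply braidalg_comm_rn_rn
      left
      have : (c + q) * v = v * c + v * q := by ring
      omega

private theorem cabcab_range_mul {G : Type*} [Monoid G] (f : ℕ → G) (v μ : ℕ) :
    ((List.range (v * μ)).map f).prod =
      ((List.range μ).map fun κ => ((List.range v).map fun r => f (v * κ + r)).prod).prod := by
  induction μ with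
  | zero => simp
  | succ μ ih =>
    rw [Nat.mul_succ, List.range_add, List.map_append, List.prod_append, ih, List.range_succ,
      List.map_append, List.prod_append, List.map_map]
    simp only [List.map_cons, List.map_nil, List.prod_cons, List.prod_nil, mul_one]
    rfl

theorem blk_cabled (v μ N i : ℕ) :
    blk (v * μ) N i = ((List.range μ).map fun κ => brun v N (i * μ + κ) μ).prod := by
  unfold blk
  rw [cabcab_range_mul]
  congr 1
  apply List.map_congr_left
  intro κ _
  rw [run_cabled]
  congr 1
  apply List.map_congr_left
  intro r _
  rw [show i * (v * μ) + (v * κ + r) = v * (i * μ + κ) + r by ring]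

end Pool.Agent.Helper62.SAT
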