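import Mathlib
import Pool.Agent.Helper62.SAT.CabCab1

/-!
# The word of a cable

`exists_cabled`: the word `L'` of `cabled μ M L` (with `M + 1 = μ (m + 1)` all the generators that
occur have numbers less than `M`): for a run `rn M a μ`, `a + μ ≤ M`, the word is `(a + μ - 1), ..., a`
(its `cabled v N` is `brun v N a μ`; compare `OB.exists_word`), for `blk μ M i`, `i < m`, the concatenation of `μ`
runs (its `cabled v N` is `blk (v * μ) N i` by `blk_cabled`), for an inverse the reversed word with
inverses (`word` and `cabled v N` of the reversed word with inverses are the inverses), and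
`word`, `cabled` of a concatenation are the products.
-/

set_option autoImplicit false

namespace Pool.Agent.Helper62.SAT

open Pool.Agent.Helper62.OB

private theorem word_app {m : ℕ} (L1 L2 : List (Fin m × Bool)) :
    word (L1 ++ L2) = word L1 * word L2 := by
  unfold word
  rw [List.map_append, List.prod_append]

private theorem cabled_app {m : ℕ} (n M : ℕ) (L1 L2 : List (Fin m × Bool)) :
    cabled n M (L1 ++ L2) = cabled n M L1 * cabled n M L2 := by
  unfold cabled
  rw [List.map_append, List.prod_append]

private theorem word_cons {m : ℕ} (p : Fin m × Bool) (L : List (Fin m × Bool)) :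
    word (p :: L) = (if p.2 then sigma p.1 else (sigma p.1)⁻¹) * word L := by
  unfold word
  rw [List.map_cons, List.prod_cons]

private theorem cabled_cons {m : ℕ} (n M : ℕ) (p : Fin m × Bool) (L : List (Fin m × Bool)) :
    cabled n M (p :: L) = (if p.2 then blk n M p.1 else (blk n M p.1)⁻¹) * cabled n M L := by
  unfold cabled
  rw [List.map_cons, List.prod_cons]

private theorem word_nil {m : ℕ} : word ([] : List (Fin m × Bool)) = 1 := by
  unfold word
  rw [List.map_nil, List.prod_nil]

private theorem cabled_nil {m : ℕ} (n M : ℕ) : cabled n M ([] : List (Fin m × Bool)) = 1 := by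
  unfold cabled
  rw [List.map_nil, List.prod_nil]

private theorem ex_inv {M : ℕ} (v N : ℕ) (L : List (Fin M × Bool)) :
    ∃ L' : List (Fin M × Bool), word L' = (word L)⁻¹ ∧ cabled v N L' = (cabled v N L)⁻¹ := by
  induction L with
  | nil => exact ⟨[], by rw [word_nil, inv_one], by rw [cabled_nil, inv_one]⟩
  | cons p L ih =>
    obtain ⟨L', h1, h2⟩ := ih
    refine ⟨L' ++ [(p.1, !p.2)], ?_, ?_⟩
    · rw [word_app, h1, word_cons, word_cons, word_nil, mul_inv_rev, mul_one]
      congr 1
      cases h : p.2 <;> simp
    · rw [cabled_app, h2, cabled_cons, cabled_cons, cabled_nil, mul_inv_rev, mul_one]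
      congr 1
      cases h : p.2 <;> simp

private theorem ex_run (M v N a : ℕ) (n : ℕ) (h : a + n ≤ M) :
    ∃ L' : List (Fin M × Bool), word L' = rn M a n ∧ cabled v N L' = brun v N a n := by
  induction n with
  | zero => exact ⟨[], by rw [word_nil]; rfl, by rw [cabled_nil]; rfl⟩
  | succ n ih =>
    obtain ⟨L', h1, h2⟩ := ih (by omega)
    refine ⟨(⟨a + n, by omega⟩, true) :: L', ?_, ?_⟩
    · rw [word_cons, h1, if_pos rfl, braidalg_rn_succ, braidalg_sg_lt M (a + n) (by omega)]
    · rw [cabled_cons, h2, if_pos rfl]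
      rfl

private theorem ex_runs (M v N μ i q : ℕ) (h : ∀ k < q, i * μ + k + μ ≤ M) :
    ∃ L' : List (Fin M × Bool),
      word L' = ((List.range q).map fun k => rn M (i * μ + k) μ).prod ∧
      cabled v N L' = ((List.range q).map fun κ => brun v N (i * μ + κ) μ).prod := by
  induction q with
  | zero => exact ⟨[], by rw [word_nil]; rfl, by rw [cabled_nil]; rfl⟩
  | succ q ih =>
    obtain ⟨L1, h1, h2⟩ := ih (fun k hk => h k (by omega))
    obtain ⟨L2, h3, h4⟩ := ex_run M v N (i * μ + q) μ (h q (by omega))
    refine ⟨L1 ++ L2, ?_, ?_⟩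
    · rw [word_app, h1, h3, List.range_succ, List.map_append, List.prod_append]
      simp
    · rw [cabled_app, h2, h4, List.range_succ, List.map_append, List.prod_append]
      simp

theorem exists_cabled (m μ M v N : ℕ) (hM : M + 1 = μ * (m + 1)) (L : List (Fin m × Bool)) :
    ∃ L' : List (Fin M × Bool), word L' = cabled μ M L ∧ cabled v N L' = cabled (v * μ) N L := by
  induction L with
  | nil => exact ⟨[], by rw [word_nil, cabled_nil], by rw [cabled_nil, cabled_nil]⟩
  | cons p L ih =>
    obtain ⟨L1, h1, h2⟩ := ih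
    obtain ⟨L2, h3, h4⟩ := ex_runs M v N μ p.1 μ (by
      intro k hk
      have hp : (p.1 : ℕ) + 1 ≤ m := p.1.isLt
      have h5 : ((p.1 : ℕ) + 1) * μ ≤ m * μ := Nat.mul_le_mul_right μ hp
      have h6 : μ * (m + 1) = m * μ + μ := by ring
      have h7 : ((p.1 : ℕ) + 1) * μ = p.1 * μ + μ := by ring
      omega)
    have h5 : word L2 = blk μ M p.1 := by
      rw [h3]
      rfl
    have h6 : cabled v N L2 = blk (v * μ) N p.1 := by
      rw [h4, blk_cabled]
    obtain ⟨i, b⟩ := p
    cases b
    · obtain ⟨L3, h7, h8⟩ := ex_inv v N L2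
      refine ⟨L3 ++ L1, ?_, ?_⟩
      · rw [word_app, h7, h1, cabled_cons, h5]
        simp
      · rw [cabled_app, h8, h2, cabled_cons, h6]
        simp
    · refine ⟨L2 ++ L1, ?_, ?_⟩
      · rw [word_app, h5, h1, cabled_cons]
        simp
      · rw [cabled_app, h6, h2, cabled_cons]
        simp

end Pool.Agent.Helper62.SAT
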