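import Mathlib
import Pool.Agent.Helper62.SAT.Defs

/-!
# Iterated cables and iterated satellites: definitions
-/

set_option autoImplicit false

namespace Pool.Agent.Helper62.SAT

open Pool.Agent.Helper62.OB

/-- The closed braid arises from the closure of the braid `x` by finitely many cabling operations:
smallest class of closed braids that contains `x` and is closed under cabling (as in
`IsIterTorus`) and Markov equivalence. -/
inductive IterCable (x : Σ m : ℕ, BraidGroup m) : (Σ m : ℕ, BraidGroup m) → Prop
  | refl : IterCable x x
  | cable (m n M : ℕ) (k : ℤ) (L : List (Fin m × Bool)) (hn : 0 < n) (hM : M + 1 = n * (m + 1))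
      (hk : IsCoprime (n : ℤ) k) (h : IterCable x ⟨m, word L⟩) :
      IterCable x ⟨M, cabled n M L * rn M 0 (n - 1) ^ k⟩
  | markov (y z : Σ m : ℕ, BraidGroup m) (h : SameClosure y z) (hy : IterCable x y) :
      IterCable x z

theorem IterCable.iterTorus {x y : Σ m : ℕ, BraidGroup m} (h : IterCable x y)
    (hx : IsIterTorus x) : IsIterTorus y := by
  induction h with
  | refl => exact hx
  | cable m n M k L hn hM hk _ ih => exact IsIterTorus.cable m n M k L hn hM hk ih
  | markov y z h _ ih => exact IsIterTorus.markov y z h ih

theorem IterCable.trans {x y z : Σ m : ℕ, BraidGroup m} (h1 : IterCable x y)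
    (h2 : IterCable y z) : IterCable x z := by
  induction h2 with
  | refl => exact h1
  | cable m n M k L hn hM hk _ ih => exact IterCable.cable m n M k L hn hM hk ih
  | markov y z h _ ih => exact IterCable.markov y z h ih

/-- The satellite of the closure of the braid word `L` (on `m + 1` strands) with the pattern
`(σ_{b-1} ⋯ σ_0) (σ_{w-2} ⋯ σ_0)^s` on `w` strands: every strand of the word is replaced by `w`
parallel strands, and the pattern is inserted in the first `w` strands; `N + 1 = w (m + 1)` is the
number of strands of the satellite. -/
def sat (w N : ℕ) {m : ℕ} (L : List (Fin m × Bool)) (b : ℕ) (s : ℤ) : BraidGroup N :=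
  cabled w N L * (rn N 0 b * rn N 0 (w - 1) ^ s)

end Pool.Agent.Helper62.SAT
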