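import Mathlib
import Pool.Agent.Helper62.SAT.Defs2

/-!
# Patterns and iterated satellites: definitions
-/

set_option autoImplicit false

namespace Pool.Agent.Helper62.SAT

open Pool.Agent.Helper62.OB

/-- The patterns: braids in the first `w` strands of a braid on `N + 1` strands. The satellite of the
closure of a braid word with exponent sum `e` is formed with parallel strands, so with respect to the
preferred framing of the companion the exponent of the torus part is `t` when it is written `t - w e`
in the braid.

* `bridge`: the 1-bridge braid `(σ_{b-1} ⋯ σ_0) (σ_{w-2} ⋯ σ_0)^t`, `b < w`, `b < t`;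
* `twist`: the twisted torus braid `(σ_{r-2} ⋯ σ_0)^(r s) (σ_{w-2} ⋯ σ_0)^t`, `w ≥ 3`, `t > w`,
  `t = ± 1` modulo `w`, with `s ≥ 1` full twists on `r = w - 1` strands, or one full twist on
  `r = 2` or `r = w - 2 ≥ 2` strands. -/
inductive Pattern (w N : ℕ) (e : ℤ) : BraidGroup N → Prop
  | bridge (b t : ℕ) (hb : b < w) (hbt : b < t) :
      Pattern w N e (rn N 0 b * rn N 0 (w - 1) ^ ((t : ℤ) - w * e))
  | twist (r s t : ℕ) (hw : 3 ≤ w) (hs : 1 ≤ s) (hr : 2 ≤ r)
      (hrs : r = w - 1 ∨ (s = 1 ∧ (r = 2 ∨ r = w - 2)))
      (ht : t % w = 1 ∨ t % w = w - 1) (hwt : w < t) :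
      Pattern w N e (rn N 0 (r - 1) ^ (r * s) * rn N 0 (w - 1) ^ ((t : ℤ) - w * e))

/-- The closed braids obtained from the closed braid `x` by finitely many satellite operations with
these patterns such that the result is a knot: every strand of a braid word `L` on `m + 1` strands is
replaced by `w` parallel strands, and the pattern is inserted in the first `w` strands. It is the
smallest class that contains `x` and is closed under these operations and Markov equivalence. -/
inductive IterSat (x : Σ m : ℕ, BraidGroup m) : (Σ m : ℕ, BraidGroup m) → Prop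
  | refl : IterSat x x
  | sat (m w N : ℕ) (L : List (Fin m × Bool)) (p : BraidGroup N) (hw : 0 < w)
      (hN : N + 1 = w * (m + 1)) (hp : Pattern w N (writhe L) p)
      (hK : IsKnot (cabled w N L * p)) (h : IterSat x ⟨m, word L⟩) :
      IterSat x ⟨N, cabled w N L * p⟩
  | markov (y z : Σ m : ℕ, BraidGroup m) (h : SameClosure y z) (hy : IterSat x y) : IterSat x z

end Pool.Agent.Helper62.SAT
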