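import Mathlib
import Pool.Agent.Helper62.OB.St.GroupLemma

/-!
# A conjugation in a group, integer exponents

The lemma `OB.conj_lemma` (in `OB/St/GroupLemma.lean`) with an integer `t₀` prime to `μ`.  The proof is
the same (copy it): `F s = Z^{-s} c^v Z^s`, `A` the commutative subgroup generated by the `F s`,
`σ h = Z^{t₀} h Z^{-t₀}`; the elements of the form `h (σ h)⁻¹`, `h ∈ A`, contain all the
`F i (F j)⁻¹` and are closed under products.  The statement `key` is needed for all integers `n`: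
`(F 0)^n (Z (F 0)⁻¹)^n = a Z^n` with `a` of this form.  For `n ≥ 0` as there; for the step
`-n → -(n + 1)`: `(F 0)^{-(n+1)} (Z (F 0)⁻¹)^{-(n+1)} = (F 0)⁻¹ (a Z^{-n}) (F 0) Z⁻¹`
`= a (F 0)⁻¹ (F n) Z^{-(n+1)}`, as `Z^{-n} F 0 = F n Z^{-n}`.
-/

set_option autoImplicit false

namespace Pool.Agent.Helper62.SAT

open Pool.Agent.Helper62.OB

theorem conj_lemma_int {G : Type*} [Group G] (c Z : G) (v μ : ℕ) (t₀ : ℤ) (hμ : 0 < μ) (κ : ℤ)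
    (hcop : IsCoprime t₀ (μ : ℤ))
    (hcent : ∀ x : G, Z ^ μ * x = x * Z ^ μ)
    (hcomm : ∀ s < μ, ∀ s' < μ, Commute ((Z ^ s)⁻¹ * c ^ v * Z ^ s) ((Z ^ s')⁻¹ * c ^ v * Z ^ s'))
    (hc : ∀ s < μ, Commute c ((Z ^ s)⁻¹ * c ^ v * Z ^ s)) :
    ∃ h : G, c ^ (κ + v * t₀) * (Z * (c ^ v)⁻¹) ^ t₀ = h * (c ^ κ * Z ^ t₀) * h⁻¹ := by
  obtain ⟨F, hF⟩ : ∃ F : ℤ → G, ∀ s, F s = Z ^ (-s) * c ^ v * Z ^ s := ⟨_, fun _ => rfl⟩
  have hF0 : F 0 = c ^ v := by rw [hF]; simp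
  have hcent' : ∀ (k : ℤ) (x : G), (Z ^ μ) ^ k * x = x * (Z ^ μ) ^ k := fun k x =>
    (Commute.zpow_left (hcent x) k : _)
  have Fper : ∀ (s k : ℤ), F (s + μ * k) = F s := by
    intro s k
    have e1 : Z ^ (s + μ * k) = (Z ^ μ) ^ k * Z ^ s := by
      rw [zpow_add, zpow_mul, zpow_natCast, hcent']
    have e2 : Z ^ (-(s + μ * k)) = Z ^ (-s) * ((Z ^ μ) ^ k)⁻¹ := by
      rw [zpow_neg, e1, mul_inv_rev, zpow_neg]
    rw [hF, hF, e1, e2]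
    have e3 : Z ^ (-s) * ((Z ^ μ) ^ k)⁻¹ * c ^ v * ((Z ^ μ) ^ k * Z ^ s) =
        Z ^ (-s) * (((Z ^ μ) ^ k)⁻¹ * (c ^ v * (Z ^ μ) ^ k)) * Z ^ s := by
      simp only [mul_assoc]
    rw [e3, ← hcent', inv_mul_cancel_left]
  have Fmod : ∀ s : ℤ, ∃ r < μ, F s = (Z ^ r)⁻¹ * c ^ v * Z ^ r := by
    intro s
    have h0 : 0 ≤ s % μ := Int.emod_nonneg _ (by omega)
    have h1 : s % μ < μ := Int.emod_lt_of_pos _ (by omega)
    refine ⟨(s % μ).toNat, by omega, ?_⟩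
    have e1 : F s = F (s % μ) := by
      rw [← Fper (s % μ) (s / μ), Int.emod_add_mul_ediv]
    rw [e1, hF]
    have e2 : (s % μ) = ((s % μ).toNat : ℤ) := (Int.toNat_of_nonneg h0).symm
    rw [zpow_neg]
    nth_rw 1 [e2]
    nth_rw 2 [e2]
    rw [zpow_natCast]
  have FF : ∀ s s', Commute (F s) (F s') := by
    intro s s'
    obtain ⟨r, hr, e⟩ := Fmod s
    obtain ⟨r', hr', e'⟩ := Fmod s'
    rw [e, e']
    exact hcomm r hr r' hr'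
  have cF : ∀ s, Commute c (F s) := by
    intro s
    obtain ⟨r, hr, e⟩ := Fmod s
    rw [e]
    exact hc r hr
  obtain ⟨A, hA⟩ : ∃ A : Subgroup G, A = Subgroup.closure (Set.range F) := ⟨_, rfl⟩
  have FA : ∀ s, F s ∈ A := fun s => by
    rw [hA]; exact Subgroup.subset_closure ⟨s, rfl⟩
  have comA : ∀ x : G, (∀ s, Commute x (F s)) → ∀ a ∈ A, Commute x a := by
    intro x hx a ha
    rw [hA] at ha
    induction ha using Subgroup.closure_induction with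
    | mem y hy =>
      obtain ⟨s, rfl⟩ := hy
      exact hx s
    | one => exact Commute.one_right x
    | mul a b _ _ ha hb => exact ha.mul_right hb
    | inv a _ ha => exact ha.inv_right
  have cA : ∀ a ∈ A, Commute c a := comA c cF
  have AA : ∀ a ∈ A, ∀ b ∈ A, Commute a b := fun a ha b hb =>
    comA a (fun s => (comA (F s) (fun s' => FF s s') a ha).symm) b hb
  obtain ⟨σ, hσ⟩ : ∃ σ : G →* G, ∀ h, σ h = Z ^ t₀ * h * (Z ^ t₀)⁻¹ :=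
    ⟨(MulAut.conj (Z ^ t₀)).toMonoidHom, fun _ => rfl⟩
  have σF : ∀ s, σ (F s) = F (s - t₀) := by
    intro s
    rw [hσ, hF, hF, show -(s - t₀) = t₀ + (-s) by ring, zpow_add, sub_eq_add_neg s t₀,
      zpow_add, zpow_neg Z t₀]
    simp only [mul_assoc]
  have σA : ∀ a ∈ A, σ a ∈ A := by
    intro a ha
    have ha' := ha
    rw [hA] at ha'
    induction ha' using Subgroup.closure_induction with
    | mem y hy =>
      obtain ⟨s, rfl⟩ := hy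
      rw [σF]
      exact FA _
    | one => rw [map_one]; exact A.one_mem
    | mul a b h1 h2 h3 h4 =>
      rw [map_mul]
      exact A.mul_mem (h3 (by rw [hA]; exact h1)) (h4 (by rw [hA]; exact h2))
    | inv a h1 h2 =>
      rw [map_inv]
      exact A.inv_mem (h2 (by rw [hA]; exact h1))
  have Qmul : ∀ a b, (∃ h ∈ A, a = h * (σ h)⁻¹) → (∃ h ∈ A, b = h * (σ h)⁻¹) →
      ∃ h ∈ A, a * b = h * (σ h)⁻¹ := by
    rintro a b ⟨h, hh, rfl⟩ ⟨h', hh', rfl⟩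
    refine ⟨h * h', A.mul_mem hh hh', ?_⟩
    rw [map_mul, mul_inv_rev]
    have e1 : (σ h)⁻¹ * h' = h' * (σ h)⁻¹ := AA _ (A.inv_mem (σA h hh)) _ hh'
    have e2 : (σ h)⁻¹ * (σ h')⁻¹ = (σ h')⁻¹ * (σ h)⁻¹ :=
      AA _ (A.inv_mem (σA h hh)) _ (A.inv_mem (σA h' hh'))
    calc h * (σ h)⁻¹ * (h' * (σ h')⁻¹) = h * ((σ h)⁻¹ * h') * (σ h')⁻¹ := by
          simp only [mul_assoc]
      _ = h * h' * ((σ h)⁻¹ * (σ h')⁻¹) := by rw [e1]; simp only [mul_assoc]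
      _ = h * h' * ((σ h')⁻¹ * (σ h)⁻¹) := by rw [e2]
  have QF1 : ∀ (n : ℕ) (i : ℤ), ∃ h ∈ A, F i * (F (i - n * t₀))⁻¹ = h * (σ h)⁻¹ := by
    intro n i
    induction n with
    | zero => exact ⟨1, A.one_mem, by simp⟩
    | succ n ih =>
      have h1 := Qmul _ _ ih ⟨F (i - n * t₀), FA _, rfl⟩
      rw [σF] at h1
      have e : F i * (F (i - n * t₀))⁻¹ * (F (i - n * t₀) * (F (i - n * t₀ - t₀))⁻¹) =
          F i * (F (i - (n + 1 : ℕ) * t₀))⁻¹ := by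
        rw [show i - (n + 1 : ℕ) * t₀ = i - n * t₀ - t₀ by push_cast; ring]
        group
      rw [e] at h1
      exact h1
  have QF : ∀ i j : ℤ, ∃ h ∈ A, F i * (F j)⁻¹ = h * (σ h)⁻¹ := by
    intro i j
    obtain ⟨n, k, hn⟩ : ∃ (n : ℕ) (k : ℤ), i - n * t₀ = j + μ * k := by
      obtain ⟨a, b, hab⟩ := hcop
      have h0 : 0 ≤ (a * (i - j)) % μ := Int.emod_nonneg _ (by omega)
      refine ⟨((a * (i - j)) % μ).toNat, b * (i - j) + t₀ * ((a * (i - j)) / μ), ?_⟩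
      rw [Int.toNat_of_nonneg h0]
      have h1 := Int.emod_add_mul_ediv (a * (i - j)) μ
      have h2 : (a * (i - j)) % μ = a * (i - j) - μ * ((a * (i - j)) / μ) := by linarith
      rw [h2]
      have h3 : i - j = (a * t₀ + b * μ) * (i - j) := by rw [hab]; ring
      linear_combination h3
    have h1 := QF1 n i
    rw [hn, Fper] at h1
    exact h1
  have hFZ : ∀ n : ℤ, Z ^ n * F 0 = F (-n) * Z ^ n := by
    intro n
    rw [hF (-n), neg_neg, hF0]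
    simp only [mul_assoc]
    rw [← zpow_add, neg_add_cancel, zpow_zero, mul_one]
  have hFZ' : ∀ n : ℤ, Z ^ n * (F 0)⁻¹ = (F (-n))⁻¹ * Z ^ n := by
    intro n
    rw [eq_inv_mul_iff_mul_eq, ← mul_assoc, ← hFZ, mul_assoc, mul_inv_cancel, mul_one]
  have key : ∀ n : ℤ, ∃ a, (∃ h ∈ A, a = h * (σ h)⁻¹) ∧
      F 0 ^ n * (Z * (F 0)⁻¹) ^ n = a * Z ^ n := by
    intro n
    induction n using Int.induction_on with
    | zero => exact ⟨1, ⟨1, A.one_mem, by simp⟩, by simp⟩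
    | succ n ih =>
      obtain ⟨a, ⟨h, hh, ha⟩, e⟩ := ih
      have haA : a ∈ A := by
        rw [ha]
        exact A.mul_mem hh (A.inv_mem (σA h hh))
      refine ⟨a * (F 0 * (F (-((n : ℤ) + 1)))⁻¹), Qmul _ _ ⟨h, hh, ha⟩ (QF _ _), ?_⟩
      calc F 0 ^ ((n : ℤ) + 1) * (Z * (F 0)⁻¹) ^ ((n : ℤ) + 1)
          = F 0 * (F 0 ^ (n : ℤ) * (Z * (F 0)⁻¹) ^ (n : ℤ)) * (Z * (F 0)⁻¹) := by
            rw [zpow_add_one (Z * (F 0)⁻¹), zpow_add_one (F 0)]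
            have h1 : F 0 ^ (n : ℤ) * F 0 = F 0 * F 0 ^ (n : ℤ) := (Commute.self_zpow (F 0) n).symm
            rw [h1]
            simp only [mul_assoc]
        _ = F 0 * (a * Z ^ (n : ℤ)) * (Z * (F 0)⁻¹) := by rw [e]
        _ = F 0 * a * (Z ^ ((n : ℤ) + 1) * (F 0)⁻¹) := by rw [zpow_add_one]; simp only [mul_assoc]
        _ = a * F 0 * ((F (-((n : ℤ) + 1)))⁻¹ * Z ^ ((n : ℤ) + 1)) := by
            rw [hFZ', (AA _ (FA 0) _ haA).eq]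
        _ = a * (F 0 * (F (-((n : ℤ) + 1)))⁻¹) * Z ^ ((n : ℤ) + 1) := by simp only [mul_assoc]
    | pred n ih =>
      obtain ⟨a, ⟨h, hh, ha⟩, e⟩ := ih
      have haA : a ∈ A := by
        rw [ha]
        exact A.mul_mem hh (A.inv_mem (σA h hh))
      refine ⟨a * (F (-(-(n : ℤ))) * (F 0)⁻¹), Qmul _ _ ⟨h, hh, ha⟩ (QF _ _), ?_⟩
      have e4 : (F 0)⁻¹ * F (-(-(n : ℤ))) = F (-(-(n : ℤ))) * (F 0)⁻¹ :=
        ((FF 0 (-(-(n : ℤ)))).inv_left : _)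
      calc F 0 ^ (-(n : ℤ) - 1) * (Z * (F 0)⁻¹) ^ (-(n : ℤ) - 1)
          = (F 0)⁻¹ * (F 0 ^ (-(n : ℤ)) * (Z * (F 0)⁻¹) ^ (-(n : ℤ))) * (Z * (F 0)⁻¹)⁻¹ := by
            rw [zpow_sub_one, zpow_sub_one]
            have h1 : F 0 ^ (-(n : ℤ)) * (F 0)⁻¹ = (F 0)⁻¹ * F 0 ^ (-(n : ℤ)) :=
              ((Commute.self_zpow (F 0) (-(n : ℤ))).inv_left.symm : _)
            rw [h1]
            simp only [mul_assoc]
        _ = (F 0)⁻¹ * (a * Z ^ (-(n : ℤ))) * (F 0 * Z⁻¹) := by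
            rw [e, mul_inv_rev, inv_inv]
        _ = (F 0)⁻¹ * a * (Z ^ (-(n : ℤ)) * F 0) * Z⁻¹ := by simp only [mul_assoc]
        _ = a * (F 0)⁻¹ * (F (-(-(n : ℤ))) * Z ^ (-(n : ℤ))) * Z⁻¹ := by
            rw [hFZ, (AA _ (A.inv_mem (FA 0)) _ haA).eq]
        _ = a * ((F 0)⁻¹ * F (-(-(n : ℤ)))) * (Z ^ (-(n : ℤ)) * Z⁻¹) := by simp only [mul_assoc]
        _ = a * (F (-(-(n : ℤ))) * (F 0)⁻¹) * Z ^ (-(n : ℤ) - 1) := by rw [e4, zpow_sub_one]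
  obtain ⟨a, ⟨h, hh, ha⟩, e⟩ := key t₀
  refine ⟨h, ?_⟩
  have e0 : c ^ (κ + v * t₀) = c ^ κ * F 0 ^ t₀ := by
    rw [zpow_add, hF0, zpow_mul, zpow_natCast]
  have e2 : (σ h)⁻¹ * Z ^ t₀ = Z ^ t₀ * h⁻¹ := by
    rw [hσ]
    group
  have e3 : c ^ κ * h = h * c ^ κ := ((cA h hh).zpow_left κ : _)
  calc c ^ (κ + v * t₀) * (Z * (c ^ v)⁻¹) ^ t₀
      = c ^ κ * (F 0 ^ t₀ * (Z * (F 0)⁻¹) ^ t₀) := by rw [e0, ← hF0, mul_assoc]
    _ = c ^ κ * (h * (σ h)⁻¹ * Z ^ t₀) := by rw [e, ha]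
    _ = c ^ κ * h * ((σ h)⁻¹ * Z ^ t₀) := by simp only [mul_assoc]
    _ = h * c ^ κ * (Z ^ t₀ * h⁻¹) := by rw [e2, e3]
    _ = h * (c ^ κ * Z ^ t₀) * h⁻¹ := by simp only [mul_assoc]

end Pool.Agent.Helper62.SAT
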