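import Mathlib

/-!
# The determinant of a block cyclic matrix

`D` is an invertible matrix of size `m + 1` with `D^{m+1} = c`, `(D^s)_{00} = 0` for `1 ≤ s ≤ m`
(for example a monomial matrix whose permutation is one cycle).  `P = 1 + e_{00} ⊗ (B - 1)` is the
block matrix with the block `B` in the place `(0, 0)` and with the other diagonal blocks `1`.

Proof. `(D^l)_{00} = 0` unless `m + 1` divides `l` (for all `l ≥ 1`, by `D^{m+1+l} = c D^l`).
Let `K` have the entries `K_{x,s} = (D^s)_{x,0}`, `K'` the entries `K'_{s,x} = c' (D^{m+1-s})_{0,x}`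
(`s = 0, ..., m`).  Then `(K' K)_{s,s'} = c' (D^{m+1-s+s'})_{00} = δ_{s,s'}`, so `K' K = 1` and
`K K' = 1` (square matrices: `Matrix.mul_eq_one_comm`).  `K' D K = C` with
`C_{s,s'} = c' (D^{m+2-s+s'})_{00}`, which is `1` for `s = s' + 1`, `c` for `(s, s') = (0, m)` and `0`
otherwise.  The row `0` of `K` is `e_0`, the column `0` of `K'` is `e_0`, so
`(K' ⊗ 1) P (K ⊗ 1) = P`.  Hence `det (1 - (D ⊗ 1) P) = det (1 - (C ⊗ 1) P) = det (1 - P (C ⊗ 1))`
(`Matrix.det_one_sub_mul_comm`), and `P (C ⊗ 1) = Sh ⊗ 1 + e_{0m} ⊗ (c B)`, `Sh_{s,s'} = 1` for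
`s = s' + 1` and `0` otherwise (for `m = 0`: `Sh = 0` and `P (C ⊗ 1) = c B`).  `N = 1 - Sh ⊗ 1` has
determinant `1` (lower triangular; `Matrix.det_kronecker`) and the inverse `U ⊗ 1`, `U_{s,s'} = 1`
for `s ≥ s'`, `0` otherwise.  With `J_i = e_i ⊗ 1` (a matrix of size `(m + 1) k × k`):
`det (N - J_0 (c B) J_mᵀ) = det N * det (1 - (U ⊗ 1) J_0 (c B) J_mᵀ) = det (1 - J_mᵀ (U ⊗ 1) J_0 (c B))`
`= det (1 - c B)`, as `U_{m,0} = 1`.
-/

set_option autoImplicit false

namespace Pool.Agent.Helper62.SAT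

open Matrix
open scoped Kronecker

private theorem cyc_add {R : Type*} [CommRing R] (m : ℕ)
    (D : Matrix (Fin (m + 1)) (Fin (m + 1)) R) (c : R) (hDm : D ^ (m + 1) = c • 1) (e : ℕ) :
    D ^ (m + 1 + e) = c • D ^ e := by
  rw [pow_add, hDm, smul_mul_assoc, one_mul]

private theorem cyc_KK {R : Type*} [CommRing R] (m : ℕ)
    (D : Matrix (Fin (m + 1)) (Fin (m + 1)) R) (c c' : R) (hc : c * c' = 1)
    (hD0 : ∀ s, 1 ≤ s → s ≤ m → (D ^ s) 0 0 = 0) (hDm : D ^ (m + 1) = c • 1)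
    (s s' : ℕ) (hs : s ≤ m) (hs' : s' ≤ m) :
    c' * (D ^ (m + 1 - s + s')) 0 0 = if s = s' then 1 else 0 := by
  by_cases h : s = s'
  · subst h
    have h1 : m + 1 - s + s = m + 1 + 0 := by omega
    rw [if_pos rfl, h1, cyc_add m D c hDm, pow_zero, Matrix.smul_apply, Matrix.one_apply_eq,
      smul_eq_mul, mul_one, mul_comm, hc]
  · rw [if_neg h]
    rcases lt_or_gt_of_ne h with h1 | h1
    · have h2 : m + 1 - s + s' = m + 1 + (s' - s) := by omega
      rw [h2, cyc_add m D c hDm, Matrix.smul_apply, hD0 _ (by omega) (by omega), smul_zero,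
        mul_zero]
    · rw [hD0 _ (by omega) (by omega), mul_zero]

private theorem cyc_C {R : Type*} [CommRing R] (m : ℕ)
    (D : Matrix (Fin (m + 1)) (Fin (m + 1)) R) (c c' : R) (hc : c * c' = 1)
    (hD0 : ∀ s, 1 ≤ s → s ≤ m → (D ^ s) 0 0 = 0) (hDm : D ^ (m + 1) = c • 1)
    (s s' : ℕ) (hs : s ≤ m) (hs' : s' ≤ m) :
    c' * (D ^ (m + 1 - s + (1 + s'))) 0 0 =
      (if s = s' + 1 then 1 else 0) + if s = 0 ∧ s' = m then c else 0 := by
  have hcc : c' * c = 1 := by rw [mul_comm, hc]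
  by_cases h0 : s = 0 ∧ s' = m
  · obtain ⟨rfl, rfl⟩ := h0
    have h1 : s' + 1 - 0 + (1 + s') = s' + 1 + (s' + 1 + 0) := by omega
    rw [if_neg (by omega), if_pos ⟨rfl, rfl⟩, h1, cyc_add _ D c hDm, cyc_add _ D c hDm, pow_zero,
      Matrix.smul_apply, Matrix.smul_apply, Matrix.one_apply_eq, smul_eq_mul, smul_eq_mul, mul_one,
      ← mul_assoc, hcc, one_mul, zero_add]
  · rw [if_neg h0, add_zero]
    by_cases h : s = s' + 1
    · subst h
      have h1 : m + 1 - (s' + 1) + (1 + s') = m + 1 + 0 := by omega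
      rw [if_pos rfl, h1, cyc_add m D c hDm, pow_zero, Matrix.smul_apply, Matrix.one_apply_eq,
        smul_eq_mul, mul_one, hcc]
    · rw [if_neg h]
      rcases lt_or_gt_of_ne h with h1 | h1
      · have h2 : m + 1 - s + (1 + s') = m + 1 + (s' + 1 - s) := by omega
        rw [h2, cyc_add m D c hDm, Matrix.smul_apply, hD0 _ (by omega) (by omega), smul_zero,
          mul_zero]
      · rw [hD0 _ (by omega) (by omega), mul_zero]

private theorem cyc_last {R : Type*} [CommRing R] (m k : ℕ) (c : R)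
    (B : Matrix (Fin k) (Fin k) R) :
    (1 - (Matrix.of fun (_ : Fin (m + 1)) (s' : Fin (m + 1)) =>
      if s' = Fin.last m then c else 0) ⊗ₖ B).det = (1 - c • B).det := by
  let X : Matrix (Fin (m + 1) × Fin k) (Fin k) R := Matrix.of fun p j => c * B p.2 j
  let Y : Matrix (Fin k) (Fin (m + 1) × Fin k) R :=
    Matrix.of fun j p => if p.1 = Fin.last m ∧ p.2 = j then 1 else 0
  have h1 : (Matrix.of fun (_ : Fin (m + 1)) (s' : Fin (m + 1)) =>
      if s' = Fin.last m then c else 0) ⊗ₖ B = X * Y := by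
    ext ⟨s, i⟩ ⟨s', i'⟩
    rw [Matrix.mul_apply, Matrix.kroneckerMap_apply]
    simp only [X, Y, Matrix.of_apply]
    rw [Finset.sum_eq_single i']
    · by_cases h : s' = Fin.last m <;> simp [h]
    · intro j _ hj
      rw [if_neg (fun h => hj h.2.symm), mul_zero]
    · intro h
      exact absurd (Finset.mem_univ _) h
  have h2 : Y * X = c • B := by
    ext j j'
    rw [Matrix.mul_apply, Matrix.smul_apply, smul_eq_mul]
    simp only [X, Y, Matrix.of_apply]
    rw [Finset.sum_eq_single (Fin.last m, j)]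
    · simp
    · rintro ⟨s, i⟩ _ hj
      rw [if_neg (fun h => hj (Prod.ext h.1 h.2)), zero_mul]
    · intro h
      exact absurd (Finset.mem_univ _) h
  rw [h1, Matrix.det_one_sub_mul_comm, h2]

theorem det_block_cyclic {R : Type*} [CommRing R] (m k : ℕ)
    (D : Matrix (Fin (m + 1)) (Fin (m + 1)) R) (c c' : R) (hc : c * c' = 1)
    (hD0 : ∀ s, 1 ≤ s → s ≤ m → (D ^ s) 0 0 = 0) (hDm : D ^ (m + 1) = c • 1)
    (B : Matrix (Fin k) (Fin k) R) :
    (1 - (D ⊗ₖ (1 : Matrix (Fin k) (Fin k) R)) *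
      (1 + Matrix.single (0 : Fin (m + 1)) (0 : Fin (m + 1)) (1 : R) ⊗ₖ (B - 1))).det =
      (1 - c • B).det := by
  let K : Matrix (Fin (m + 1)) (Fin (m + 1)) R := Matrix.of fun x s => (D ^ (s : ℕ)) x 0
  let K' : Matrix (Fin (m + 1)) (Fin (m + 1)) R :=
    Matrix.of fun s x => c' * (D ^ (m + 1 - (s : ℕ))) 0 x
  let Sh : Matrix (Fin (m + 1)) (Fin (m + 1)) R :=
    Matrix.of fun s s' => if (s : ℕ) = s' + 1 then 1 else 0
  let C : Matrix (Fin (m + 1)) (Fin (m + 1)) R := Sh + Matrix.single 0 (Fin.last m) c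
  let I : Matrix (Fin k) (Fin k) R := 1
  let E : Matrix (Fin (m + 1)) (Fin (m + 1)) R := Matrix.single 0 0 1
  have hK : K' * K = 1 := by
    ext s s'
    rw [Matrix.mul_apply]
    simp only [K, K', Matrix.of_apply]
    have h1 : ∑ x, c' * (D ^ (m + 1 - (s : ℕ))) 0 x * (D ^ (s' : ℕ)) x 0 =
        c' * (D ^ (m + 1 - (s : ℕ) + s')) 0 0 := by
      rw [pow_add, Matrix.mul_apply, Finset.mul_sum]
      exact Finset.sum_congr rfl fun x _ => mul_assoc _ _ _
    rw [h1, cyc_KK m D c c' hc hD0 hDm s s' (by omega) (by omega), Matrix.one_apply]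
    simp only [Fin.ext_iff]
  have hK2 : K * K' = 1 := mul_eq_one_comm.1 hK
  have hC : K' * D * K = C := by
    ext s s'
    have h1 : (K' * D * K) s s' = c' * (D ^ (m + 1 - (s : ℕ) + (1 + s'))) 0 0 := by
      have h2 : D ^ (m + 1 - (s : ℕ) + (1 + (s' : ℕ))) =
          D ^ (m + 1 - (s : ℕ)) * D * D ^ (s' : ℕ) := by
        rw [pow_add, pow_add, pow_one, mul_assoc]
      rw [h2, Matrix.mul_apply, Matrix.mul_apply, Finset.mul_sum]
      refine Finset.sum_congr rfl fun x _ => ?_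
      rw [Matrix.mul_apply, Matrix.mul_apply, Finset.sum_mul, Finset.sum_mul, Finset.mul_sum]
      refine Finset.sum_congr rfl fun y _ => ?_
      simp only [K, K', Matrix.of_apply]
      ring
    rw [h1, cyc_C m D c c' hc hD0 hDm s s' (by omega) (by omega)]
    simp only [C, Sh, Matrix.add_apply, Matrix.of_apply, Matrix.single_apply]
    congr 1
    refine if_congr ?_ rfl rfl
    constructor
    · rintro ⟨h2, h3⟩
      exact ⟨Fin.ext h2.symm, Fin.ext h3.symm⟩
    · rintro ⟨h2, h3⟩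
      rw [← h2, ← h3]
      exact ⟨rfl, rfl⟩
  have hE : K' * E * K = E := by
    ext s s'
    have h1 : (K' * E * K) s s' = K' s 0 * K 0 s' := by
      rw [Matrix.mul_apply, Finset.sum_eq_single (0 : Fin (m + 1))]
      · rw [Matrix.mul_apply, Finset.sum_eq_single (0 : Fin (m + 1))]
        · simp [E]
        · intro b _ hb
          simp [E, Ne.symm hb]
        · intro h
          exact absurd (Finset.mem_univ _) h
      · intro b _ hb
        rw [Matrix.mul_apply, Finset.sum_eq_zero, zero_mul]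
        intro x _
        simp [E, Ne.symm hb]
      · intro h
        exact absurd (Finset.mem_univ _) h
    have h2 : K' s 0 = if (s : ℕ) = 0 then 1 else 0 := by
      have := cyc_KK m D c c' hc hD0 hDm s 0 (by omega) (by omega)
      rw [add_zero] at this
      exact this
    have h3 : K 0 s' = if (s' : ℕ) = 0 then 1 else 0 := by
      simp only [K, Matrix.of_apply]
      by_cases h : (s' : ℕ) = 0
      · rw [if_pos h, h, pow_zero, Matrix.one_apply_eq]
      · rw [if_neg h]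
        exact hD0 _ (by omega) (by omega)
    rw [h1, h2, h3]
    simp only [E, Matrix.single_apply]
    by_cases hs : s = 0
    · subst hs
      by_cases hs' : s' = 0
      · subst hs'
        simp
      · have h4 : (s' : ℕ) ≠ 0 := fun h => hs' (Fin.ext h)
        rw [if_neg h4, mul_zero, if_neg (fun h => hs' h.2.symm)]
    · have h4 : (s : ℕ) ≠ 0 := fun h => hs (Fin.ext h)
      rw [if_neg h4, zero_mul, if_neg (fun h => hs h.1.symm)]
  -- conjugation
  have hKI : (K' ⊗ₖ I) * (K ⊗ₖ I) = 1 := by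
    rw [← Matrix.mul_kronecker_mul, hK]
    simp only [I, mul_one, Matrix.one_kronecker_one]
  have hKI2 : (K ⊗ₖ I) * (K' ⊗ₖ I) = 1 := mul_eq_one_comm.1 hKI
  have hP : (K' ⊗ₖ I) * (1 + E ⊗ₖ (B - 1)) * (K ⊗ₖ I) = 1 + E ⊗ₖ (B - 1) := by
    rw [Matrix.mul_add, Matrix.add_mul, mul_one, hKI, ← Matrix.mul_kronecker_mul,
      ← Matrix.mul_kronecker_mul, hE]
    simp only [I, mul_one, one_mul]
  have hD : (K' ⊗ₖ I) * (D ⊗ₖ I) * (K ⊗ₖ I) = C ⊗ₖ I := by
    rw [← Matrix.mul_kronecker_mul, ← Matrix.mul_kronecker_mul, hC]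
    simp only [I, mul_one]
  have e1 : (K' ⊗ₖ I) * (1 - (D ⊗ₖ I) * (1 + E ⊗ₖ (B - 1))) * (K ⊗ₖ I) =
      1 - (C ⊗ₖ I) * (1 + E ⊗ₖ (B - 1)) := by
    have h1 : (K' ⊗ₖ I) * ((D ⊗ₖ I) * (1 + E ⊗ₖ (B - 1))) * (K ⊗ₖ I) =
        (C ⊗ₖ I) * (1 + E ⊗ₖ (B - 1)) := by
      calc (K' ⊗ₖ I) * ((D ⊗ₖ I) * (1 + E ⊗ₖ (B - 1))) * (K ⊗ₖ I)
          = (K' ⊗ₖ I) * (D ⊗ₖ I) * ((K ⊗ₖ I) * (K' ⊗ₖ I)) * (1 + E ⊗ₖ (B - 1)) * (K ⊗ₖ I) := by
            rw [hKI2, mul_one, ← mul_assoc]
        _ = ((K' ⊗ₖ I) * (D ⊗ₖ I) * (K ⊗ₖ I)) *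
            ((K' ⊗ₖ I) * (1 + E ⊗ₖ (B - 1)) * (K ⊗ₖ I)) := by
            simp only [mul_assoc]
        _ = _ := by rw [hD, hP]
    rw [mul_sub, sub_mul, mul_one, hKI, h1]
  have e2 : (1 - (D ⊗ₖ I) * (1 + E ⊗ₖ (B - 1))).det =
      (1 - (C ⊗ₖ I) * (1 + E ⊗ₖ (B - 1))).det := by
    rw [← e1, Matrix.det_mul, Matrix.det_mul]
    have h1 : (K' ⊗ₖ I).det * (K ⊗ₖ I).det = 1 := by
      rw [← Matrix.det_mul, hKI, Matrix.det_one]
    calc (1 - (D ⊗ₖ I) * (1 + E ⊗ₖ (B - 1))).det
        = ((K' ⊗ₖ I).det * (K ⊗ₖ I).det) * (1 - (D ⊗ₖ I) * (1 + E ⊗ₖ (B - 1))).det := by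
          rw [h1, one_mul]
      _ = _ := by ring
  have hEC : E * C = Matrix.single 0 (Fin.last m) c := by
    ext s s'
    rw [Matrix.mul_apply, Finset.sum_eq_single (0 : Fin (m + 1))]
    · simp only [E, C, Sh, Matrix.add_apply, Matrix.of_apply, Matrix.single_apply]
      by_cases hs : (0 : Fin (m + 1)) = s
      · subst hs
        simp
      · simp [hs]
    · intro b _ hb
      simp [E, Ne.symm hb]
    · intro h
      exact absurd (Finset.mem_univ _) h
  have e3 : (1 + E ⊗ₖ (B - 1)) * (C ⊗ₖ I) =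
      Sh ⊗ₖ I + Matrix.single 0 (Fin.last m) c ⊗ₖ B := by
    rw [Matrix.add_mul, one_mul, ← Matrix.mul_kronecker_mul, hEC]
    simp only [I, mul_one, C]
    rw [Matrix.add_kronecker, add_assoc, ← Matrix.kronecker_add, add_sub_cancel]
  let U : Matrix (Fin (m + 1)) (Fin (m + 1)) R := Matrix.of fun s s' => if s' ≤ s then 1 else 0
  have hUdet : U.det = 1 := by
    rw [Matrix.det_of_isLowerTriangular U]
    · simp [U]
    · intro i j hij
      have h1 : i < j := hij
      simp [U, not_le.2 h1]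
  have hU : (1 - Sh) * U = 1 := by
    ext s s'
    rw [Matrix.sub_mul, one_mul, Matrix.sub_apply, Matrix.mul_apply]
    have h1 : ∑ j, Sh s j * U j s' = if (s' : ℕ) < s then 1 else 0 := by
      by_cases hs : (s : ℕ) = 0
      · rw [if_neg (by omega)]
        refine Finset.sum_eq_zero fun j _ => ?_
        simp only [Sh, Matrix.of_apply]
        rw [if_neg (by omega), zero_mul]
      · rw [Finset.sum_eq_single (⟨(s : ℕ) - 1, by omega⟩ : Fin (m + 1))]
        · simp only [Sh, U, Matrix.of_apply]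
          rw [if_pos (by omega), one_mul]
          refine if_congr ?_ rfl rfl
          rw [Fin.le_def]
          simp only
          omega
        · intro j _ hj
          simp only [Sh, Matrix.of_apply]
          rw [if_neg, zero_mul]
          intro h
          apply hj
          apply Fin.ext
          simp only
          omega
        · intro h
          exact absurd (Finset.mem_univ _) h
    rw [h1, Matrix.one_apply]
    simp only [U, Matrix.of_apply, Fin.le_def, Fin.ext_iff]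
    by_cases h2 : (s : ℕ) = s'
    · rw [if_pos (by omega), if_neg (by omega), if_pos h2, sub_zero]
    · by_cases h3 : (s' : ℕ) < s
      · rw [if_pos (by omega), if_pos h3, if_neg h2, sub_self]
      · rw [if_neg (by omega), if_neg h3, if_neg h2, sub_self]
  have hU2 : U * (1 - Sh) = 1 := mul_eq_one_comm.1 hU
  have hU3 : (U ⊗ₖ I).det = 1 := by
    rw [Matrix.det_kronecker, hUdet]
    simp [I]
  have e4 : (U ⊗ₖ I) * (1 - (Sh ⊗ₖ I + Matrix.single 0 (Fin.last m) c ⊗ₖ B)) =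
      1 - (Matrix.of fun (_ : Fin (m + 1)) (s' : Fin (m + 1)) =>
        if s' = Fin.last m then c else 0) ⊗ₖ B := by
    have h1 : (1 : Matrix (Fin (m + 1) × Fin k) (Fin (m + 1) × Fin k) R) - Sh ⊗ₖ I =
        (1 - Sh) ⊗ₖ I := by
      rw [sub_eq_iff_eq_add, ← Matrix.add_kronecker, sub_add_cancel]
      simp only [I, Matrix.one_kronecker_one]
    have h2 : U * Matrix.single 0 (Fin.last m) c =
        Matrix.of fun (_ : Fin (m + 1)) (s' : Fin (m + 1)) =>
          if s' = Fin.last m then c else 0 := by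
      ext s s'
      rw [Matrix.mul_apply, Finset.sum_eq_single (0 : Fin (m + 1))]
      · simp only [U, Matrix.of_apply, Matrix.single_apply]
        rw [if_pos (Fin.zero_le _), one_mul]
        refine if_congr ?_ rfl rfl
        simp only [true_and]
        exact eq_comm
      · intro b _ hb
        simp only [Matrix.single_apply]
        rw [if_neg (fun h => hb h.1.symm), mul_zero]
      · intro h
        exact absurd (Finset.mem_univ _) h
    rw [← sub_sub, h1, mul_sub, ← Matrix.mul_kronecker_mul, ← Matrix.mul_kronecker_mul, hU2, h2]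
    simp only [I, one_mul, Matrix.one_kronecker_one]
  have e5 : (1 - (Sh ⊗ₖ I + Matrix.single 0 (Fin.last m) c ⊗ₖ B)).det = (1 - c • B).det := by
    rw [← cyc_last m k c B, ← e4, Matrix.det_mul, hU3, one_mul]
  rw [← e5, ← e3, ← Matrix.det_one_sub_mul_comm (C ⊗ₖ I)]
  exact e2

end Pool.Agent.Helper62.SAT
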