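import Mathlib
import Pool.Agent.Helper62.SAT.MonDefs

/-!
# The Burau matrix of a braid in the first block

With `J : Matrix (Fin (N + 1)) (Fin (k + 1))`, `J x j = 1` for `x = j` (as numbers) and `0` otherwise:
`bu N (emb k 0 N h p) = 1 + J * (bu k p - 1) * Jᵀ`, by `braid_induction` on `p` (`Jᵀ J = 1`; for a
generator `bcol N t ⟨0 + i, _⟩ = J *ᵥ bcol k t i`, `brow N ⟨0 + i, _⟩ = J *ᵥ brow k i`; for the inverse
of a generator use `bu_sigma_inv`; or prove the entries directly).  In block coordinates `J` is `e_0 ⊗ 1`.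
-/

set_option autoImplicit false

namespace Pool.Agent.Helper62.SAT

open Pool.Agent.Helper62.OB Matrix Polynomial LaurentPolynomial
open scoped Kronecker

private theorem phi_mul (m k : ℕ) (A B : Matrix (Fin (k + 1)) (Fin (k + 1)) ℤ[T;T⁻¹]) :
    (1 + Matrix.single (0 : Fin (m + 1)) (0 : Fin (m + 1)) (1 : ℤ[T;T⁻¹]) ⊗ₖ (A - 1)) *
      (1 + Matrix.single (0 : Fin (m + 1)) (0 : Fin (m + 1)) (1 : ℤ[T;T⁻¹]) ⊗ₖ (B - 1)) =
      1 + Matrix.single (0 : Fin (m + 1)) (0 : Fin (m + 1)) (1 : ℤ[T;T⁻¹]) ⊗ₖ (A * B - 1) := by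
  have h : (Matrix.single (0 : Fin (m + 1)) (0 : Fin (m + 1)) (1 : ℤ[T;T⁻¹]) ⊗ₖ (A - 1)) *
      (Matrix.single (0 : Fin (m + 1)) (0 : Fin (m + 1)) (1 : ℤ[T;T⁻¹]) ⊗ₖ (B - 1)) =
      Matrix.single (0 : Fin (m + 1)) (0 : Fin (m + 1)) (1 : ℤ[T;T⁻¹]) ⊗ₖ ((A - 1) * (B - 1)) := by
    rw [← Matrix.mul_kronecker_mul, Matrix.single_mul_single_same, mul_one]
  have h2 : A * B - 1 = (A - 1) + (B - 1) + (A - 1) * (B - 1) := by noncomm_ring
  rw [h2, Matrix.kronecker_add, Matrix.kronecker_add]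
  simp only [mul_add, add_mul, mul_one, one_mul, h]
  abel

private theorem bcol_ee (m k N : ℕ) (hN : N + 1 = (k + 1) * (m + 1)) (h : 0 + k ≤ N)
    (t : ℤ[T;T⁻¹]) (i : Fin k) (a : Fin (m + 1)) (x : Fin (k + 1)) :
    bcol N t ⟨0 + i.val, by omega⟩ (ee m k N hN (a, x)) = if a = 0 then bcol k t i x else 0 := by
  have hv := ee_val m k N hN (a, x)
  simp only at hv
  have hi := i.isLt
  have hx := x.isLt
  by_cases ha : a = 0
  · subst ha
    rw [if_pos rfl]
    simp only [bcol, Fin.ext_iff, hv, Fin.val_castSucc, Fin.val_succ, Fin.val_zero, mul_zero,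
      add_zero, zero_add]
  · rw [if_neg ha]
    have ha' : 1 ≤ a.val := by
      rcases Nat.eq_zero_or_pos a.val with h0 | h0
      · exact absurd (Fin.ext h0) ha
      · exact h0
    have h1 : k + 1 ≤ (k + 1) * a.val := Nat.le_mul_of_pos_right _ ha'
    rw [bcol, if_neg, if_neg]
    · rw [Fin.ext_iff, hv, Fin.val_succ]
      simp only
      omega
    · rw [Fin.ext_iff, hv, Fin.val_castSucc]
      simp only
      omega

private theorem brow_ee (m k N : ℕ) (hN : N + 1 = (k + 1) * (m + 1)) (h : 0 + k ≤ N)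
    (i : Fin k) (a : Fin (m + 1)) (x : Fin (k + 1)) :
    (brow N ⟨0 + i.val, by omega⟩ : Fin (N + 1) → ℤ[T;T⁻¹]) (ee m k N hN (a, x)) =
      if a = 0 then brow k i x else 0 := by
  have hv := ee_val m k N hN (a, x)
  simp only at hv
  have hi := i.isLt
  have hx := x.isLt
  by_cases ha : a = 0
  · subst ha
    rw [if_pos rfl]
    simp only [brow, Fin.ext_iff, hv, Fin.val_castSucc, Fin.val_succ, Fin.val_zero, mul_zero,
      add_zero, zero_add]
  · rw [if_neg ha]
    have ha' : 1 ≤ a.val := by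
      rcases Nat.eq_zero_or_pos a.val with h0 | h0
      · exact absurd (Fin.ext h0) ha
      · exact h0
    have h1 : k + 1 ≤ (k + 1) * a.val := Nat.le_mul_of_pos_right _ ha'
    rw [brow, if_neg, if_neg]
    · rw [Fin.ext_iff, hv, Fin.val_succ]
      simp only
      omega
    · rw [Fin.ext_iff, hv, Fin.val_castSucc]
      simp only
      omega

private theorem vec_ee (m k N : ℕ) (hN : N + 1 = (k + 1) * (m + 1)) (h : 0 + k ≤ N)
    (t : ℤ[T;T⁻¹]) (i : Fin k) :
    (vecMulVec (bcol N t ⟨0 + i.val, by omega⟩) (brow N ⟨0 + i.val, by omega⟩)).submatrix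
      (ee m k N hN) (ee m k N hN) =
      Matrix.single (0 : Fin (m + 1)) (0 : Fin (m + 1)) (1 : ℤ[T;T⁻¹]) ⊗ₖ
        vecMulVec (bcol k t i) (brow k i) := by
  apply Matrix.ext
  rintro ⟨a, x⟩ ⟨b, y⟩
  rw [submatrix_apply, vecMulVec_apply, bcol_ee m k N hN h, brow_ee m k N hN h,
    kroneckerMap_apply, vecMulVec_apply, Matrix.single_apply]
  simp only
  by_cases ha : a = 0
  · by_cases hb : b = 0
    · rw [if_pos ha, if_pos hb, if_pos ⟨ha.symm, hb.symm⟩, one_mul]
    · have hc : ¬ (0 = a ∧ 0 = b) := fun h => hb h.2.symm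
      rw [if_neg hb, if_neg hc, mul_zero, zero_mul]
  · have hc : ¬ (0 = a ∧ 0 = b) := fun h => ha h.1.symm
    rw [if_neg ha, if_neg hc, zero_mul, zero_mul]

/-- The Burau matrix of a braid in the first block, in block coordinates. -/
theorem bu_emb (m k N : ℕ) (hN : N + 1 = (k + 1) * (m + 1)) (h : 0 + k ≤ N) (p : BraidGroup k) :
    (bu N (emb k 0 N h p)).submatrix (ee m k N hN) (ee m k N hN) =
      1 + Matrix.single (0 : Fin (m + 1)) (0 : Fin (m + 1)) (1 : ℤ[T;T⁻¹]) ⊗ₖ (bu k p - 1) := by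
  induction p using braid_induction with
  | h1 =>
    rw [map_one, bu_one, bu_one, sub_self, Matrix.kronecker_zero, add_zero, submatrix_one_equiv]
  | hs i =>
    rw [emb_sigma, bu_sigma, bu_sigma, bmat, bmat, add_sub_cancel_left, ← vec_ee m k N hN h,
      Matrix.submatrix_add, Pi.add_apply, Pi.add_apply, submatrix_one_equiv]
  | hs' i =>
    rw [map_inv, emb_sigma, bu_sigma_inv, bu_sigma_inv, bmatInv, bmatInv, add_sub_cancel_left,
      Matrix.kronecker_smul, ← vec_ee m k N hN h,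
      Matrix.submatrix_add, Pi.add_apply, Pi.add_apply, submatrix_one_equiv, Matrix.submatrix_smul]
    rfl
  | hm γ δ h1 h2 =>
    rw [map_mul, bu_mul, bu_mul, ← Matrix.submatrix_mul_equiv _ _ _ (ee m k N hN), h1, h2, phi_mul]

end Pool.Agent.Helper62.SAT
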