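import Mathlib
import Pool.Agent.Helper62.SAT.Defs
import Pool.Agent.Helper62.OB.Poly

/-!
# Factors of products of cyclotomic polynomials

Induction on the degree of `F` (for all `j`, `M`).  Degree `0`: `F = C a`, `expand F = C a`
divides a monic polynomial, so `a` is a unit, `a = 1` or `a = -1`; `i = 0`, `M' = 0`.  Positive degree:
`F` (mapped to `ℂ[X]`) has a root `η`; choose `ζ` with `ζ ^ w = η`; `ζ` is a root of `expand F`, hence
of `X ^ j * ∏ Φ_N`.  If `ζ = 0` then `η = 0`, `X ∣ F`.  Otherwise `ζ` is a primitive `N`-th root of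
unity for some `N ∈ M`, `N > 0`, so `η = ζ ^ w` has finite order `N' = orderOf η > 0`, is a primitive
`N'`-th root of unity (`IsPrimitiveRoot.orderOf`), and `Φ_{N'} ∣ F` in `ℤ[X]`
(`Polynomial.cyclotomic_eq_minpoly`, `minpoly.isIntegrallyClosed_dvd`).  So `F = X * F'` or
`F = Φ_{N'} * F'`, `expand F' ∣ expand F`, and the degree of `F'` is smaller.
-/

set_option autoImplicit false

namespace Pool.Agent.Helper62.SAT

open Pool.Agent.Helper62.OB Polynomial LaurentPolynomial

private theorem factor_step (w : ℕ) (F Q F' P : ℤ[X]) (h : expand ℤ w F ∣ P) (hF : F = Q * F') :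
    expand ℤ w F' ∣ P := by
  refine dvd_trans ?_ h
  rw [hF, map_mul]
  exact Dvd.intro_left _ rfl

private theorem factor_monic (M : Multiset ℕ) (j : ℕ) :
    (X ^ j * (M.map (fun N => cyclotomic N ℤ)).prod : ℤ[X]).Monic := by
  apply Monic.mul (monic_X_pow j)
  apply monic_multiset_prod_of_monic
  intro N _
  exact cyclotomic.monic N ℤ

private theorem factor_deg (Q F' F : ℤ[X]) (hQ : Q.Monic) (hQd : 0 < Q.natDegree) (hF0 : F ≠ 0)
    (hF : F = Q * F') : F'.natDegree < F.natDegree := by
  have hF'0 : F' ≠ 0 := by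
    rintro rfl
    rw [mul_zero] at hF
    exact hF0 hF
  rw [hF, natDegree_mul hQ.ne_zero hF'0]
  omega

private theorem factor_root (M : Multiset ℕ) (hM : ∀ N ∈ M, 0 < N) (j : ℕ) (z : ℂ) (hz : z ≠ 0)
    (h : aeval z (X ^ j * (M.map (fun N => cyclotomic N ℤ)).prod : ℤ[X]) = 0) :
    ∃ N : ℕ, 0 < N ∧ z ^ N = 1 := by
  rw [map_mul, map_pow, aeval_X, mul_eq_zero] at h
  rcases h with h | h
  · exact absurd h (pow_ne_zero j hz)
  · rw [map_multiset_prod, Multiset.prod_eq_zero_iff, Multiset.mem_map] at h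
    obtain ⟨Q, hQ, hQ0⟩ := h
    rw [Multiset.mem_map] at hQ
    obtain ⟨N, hN, rfl⟩ := hQ
    refine ⟨N, hM N hN, ?_⟩
    have hd : cyclotomic N ℤ ∣ (X ^ N - 1 : ℤ[X]) := cyclotomic.dvd_X_pow_sub_one N ℤ
    obtain ⟨R, hR⟩ := hd
    have h2 := congrArg (aeval z) hR
    rw [map_mul, hQ0, zero_mul, map_sub, map_pow, aeval_X, map_one, sub_eq_zero] at h2
    exact h2

theorem factor (w : ℕ) (hw : 0 < w) (M : Multiset ℕ) (hM : ∀ N ∈ M, 0 < N) (j : ℕ) (F : ℤ[X])
    (h : expand ℤ w F ∣ X ^ j * (M.map (fun N => cyclotomic N ℤ)).prod) :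
    ∃ (i : ℕ) (M' : Multiset ℕ), (∀ N ∈ M', 0 < N) ∧
      (F = X ^ i * (M'.map (fun N => cyclotomic N ℤ)).prod ∨
        F = -(X ^ i * (M'.map (fun N => cyclotomic N ℤ)).prod)) := by
  induction hn : F.natDegree using Nat.strong_induction_on generalizing F with
  | _ n ih =>
  subst hn
  have hPm := factor_monic M j
  have hF0 : F ≠ 0 := by
    rintro rfl
    rw [map_zero] at h
    exact hPm.ne_zero (zero_dvd_iff.mp h)
  by_cases hd : F.natDegree = 0
  · obtain ⟨a, rfl⟩ : ∃ a, F = Polynomial.C a := ⟨_, eq_C_of_natDegree_eq_zero hd⟩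
    rw [expand_C, C_dvd_iff_dvd_coeff] at h
    have h1 := h (X ^ j * (M.map (fun N => cyclotomic N ℤ)).prod : ℤ[X]).natDegree
    have h2 : (X ^ j * (M.map (fun N => cyclotomic N ℤ)).prod : ℤ[X]).coeff
        (X ^ j * (M.map (fun N => cyclotomic N ℤ)).prod : ℤ[X]).natDegree = 1 := hPm
    rw [h2] at h1
    refine ⟨0, 0, by simp, ?_⟩
    rcases Int.isUnit_iff.mp (isUnit_of_dvd_one h1) with h3 | h3
    · left
      rw [h3]
      simp
    · right
      rw [h3]
      simp
  · obtain ⟨e, he⟩ := IsAlgClosed.exists_aeval_eq_zero ℂ F (by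
      rw [degree_eq_natDegree hF0]
      exact_mod_cast hd)
    by_cases he0 : e = 0
    · subst he0
      have hX : X ∣ F := by
        rw [X_dvd_iff]
        rw [aeval_def, eval₂_at_zero] at he
        exact_mod_cast (by simpa using he : ((F.coeff 0 : ℤ) : ℂ) = 0)
      obtain ⟨F', hF'⟩ := hX
      obtain ⟨i, M', hM', hi⟩ := ih F'.natDegree
        (factor_deg X F' F monic_X (by rw [natDegree_X]; exact one_pos) hF0 hF') F'
        (factor_step w F X F' _ h hF') rfl
      refine ⟨i + 1, M', hM', ?_⟩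
      rcases hi with hi | hi
      · left
        rw [hF', hi, pow_succ]
        ring
      · right
        rw [hF', hi, pow_succ]
        ring
    · obtain ⟨z, hz⟩ := IsAlgClosed.exists_pow_nat_eq e hw
      have hz0 : z ≠ 0 := by
        rintro rfl
        rw [zero_pow hw.ne'] at hz
        exact he0 hz.symm
      have hroot : aeval z (X ^ j * (M.map (fun N => cyclotomic N ℤ)).prod : ℤ[X]) = 0 := by
        obtain ⟨R, hR⟩ := h
        rw [hR, map_mul, expand_aeval, hz, he, zero_mul]
      obtain ⟨N, hN0, hN⟩ := factor_root M hM j z hz0 hroot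
      have heN : e ^ N = 1 := by
        rw [← hz, ← pow_mul, mul_comm, pow_mul, hN, one_pow]
      have ho : 0 < orderOf e := orderOf_pos_iff.mpr (isOfFinOrder_iff_pow_eq_one.mpr ⟨N, hN0, heN⟩)
      have hprim : IsPrimitiveRoot e (orderOf e) := IsPrimitiveRoot.orderOf e
      have hdvd : cyclotomic (orderOf e) ℤ ∣ F := by
        rw [cyclotomic_eq_minpoly hprim ho]
        exact minpoly.isIntegrallyClosed_dvd (hprim.isIntegral ho) he
      obtain ⟨F', hF'⟩ := hdvd
      obtain ⟨i, M', hM', hi⟩ := ih F'.natDegree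
        (factor_deg _ F' F (cyclotomic.monic _ ℤ)
          (by rw [natDegree_cyclotomic]; exact Nat.totient_pos.mpr ho) hF0 hF') F'
        (factor_step w F _ F' _ h hF') rfl
      refine ⟨i, orderOf e ::ₘ M', ?_, ?_⟩
      · intro N hN
        rw [Multiset.mem_cons] at hN
        rcases hN with rfl | hN
        · exact ho
        · exact hM' N hN
      · rw [Multiset.map_cons, Multiset.prod_cons]
        rcases hi with hi | hi
        · left
          rw [hF', hi]
          ring
        · right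
          rw [hF', hi]
          ring

end Pool.Agent.Helper62.SAT
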