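import Mathlib
import Pool.Agent.Helper62.SAT.Factor1

/-!
# Factors of products of cyclotomic polynomials, Laurent polynomials

Write `f = T(-a) * toLaurent F`, `g = T(-b) * toLaurent G` (`LaurentPolynomial.exists_T_pow`), then
`psi w f = T(-w a) * toLaurent (expand ℤ w F)` (ring homomorphisms, `psi_T`), and
`expand F * G * X^c = ± X^d * ∏ Φ` (`toLaurent_injective`), so `expand F` and `G = expand ℤ 1 G` divide
`X^d * ∏ Φ`; apply `factor`.
-/

set_option autoImplicit false

namespace Pool.Agent.Helper62.SAT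

open Pool.Agent.Helper62.OB Polynomial LaurentPolynomial

private theorem f2_psi_toLaurent (w : ℕ) (F : ℤ[X]) :
    psi w (toLaurent F) = toLaurent (expand ℤ w F) := by
  have h1 : (psi w).comp (toLaurent : ℤ[X] →+* ℤ[T;T⁻¹]) =
      (toLaurent : ℤ[X] →+* ℤ[T;T⁻¹]).comp (expand ℤ w).toRingHom := by
    refine Polynomial.ringHom_ext' (RingHom.ext_int _ _) ?_
    show psi w (toLaurent X) = toLaurent (expand ℤ w X)
    rw [toLaurent_X, psi_T, expand_X, toLaurent_X_pow, mul_one]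
  exact RingHom.congr_fun h1 F

private theorem f2_fin {f : ℤ[T;T⁻¹]} {F : ℤ[X]} {a : ℕ} (hF : toLaurent F = f * T a)
    (h : ∃ (i : ℕ) (M' : Multiset ℕ), (∀ N ∈ M', 0 < N) ∧
      (F = X ^ i * (M'.map (fun N => cyclotomic N ℤ)).prod ∨
        F = -(X ^ i * (M'.map (fun N => cyclotomic N ℤ)).prod))) : IsCyclotomicProduct f := by
  obtain ⟨i, M', hM', h1⟩ := h
  have hf : f = T (-(a : ℤ)) * toLaurent F := by
    rw [hF, mul_comm, mul_assoc, ← T_add, add_neg_cancel, T_zero, mul_one]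
  refine ⟨M', hM', (i : ℤ) - a, ?_⟩
  have h2 : T ((i : ℤ) - a) * toLaurent (M'.map (fun N => cyclotomic N ℤ)).prod =
      T (-(a : ℤ)) * toLaurent (X ^ i * (M'.map (fun N => cyclotomic N ℤ)).prod) := by
    rw [map_mul, toLaurent_X_pow, ← mul_assoc, ← T_add]
    congr 2
    ring
  rcases h1 with h1 | h1
  · left
    rw [hf, h1, h2]
  · right
    rw [hf, h1, h2, map_neg, mul_neg]

theorem cyc_of_psi_mul (w : ℕ) (hw : 0 < w) (f g : ℤ[T;T⁻¹])
    (h : IsCyclotomicProduct (psi w f * g)) : IsCyclotomicProduct f ∧ IsCyclotomicProduct g := by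
  obtain ⟨M, hM, k, hk⟩ := h
  obtain ⟨a, F, hF⟩ := exists_T_pow f
  obtain ⟨b, G, hG⟩ := exists_T_pow g
  have hE : toLaurent (expand ℤ w F) = psi w f * T ((w : ℤ) * a) := by
    rw [← f2_psi_toLaurent, hF, map_mul, psi_T]
  obtain ⟨c, d, hcd⟩ : ∃ c d : ℕ, (d : ℤ) + ((w : ℤ) * a + b + k) = c :=
    ⟨((w : ℤ) * a + b + k).toNat, (-((w : ℤ) * a + b + k)).toNat, by omega⟩
  have hP : X ^ d * (expand ℤ w F * G) = X ^ c * (M.map (fun N => cyclotomic N ℤ)).prod ∨
      X ^ d * (expand ℤ w F * G) = -(X ^ c * (M.map (fun N => cyclotomic N ℤ)).prod) := by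
    have h1 : toLaurent (X ^ d * (expand ℤ w F * G)) =
        T ((d : ℤ) + ((w : ℤ) * a + b)) * (psi w f * g) := by
      rw [map_mul, map_mul, toLaurent_X_pow, hE, hG, T_add, T_add]
      ring
    have h2 : T ((d : ℤ) + ((w : ℤ) * a + b)) *
        (T k * toLaurent (M.map (fun N => cyclotomic N ℤ)).prod) =
        toLaurent (X ^ c * (M.map (fun N => cyclotomic N ℤ)).prod) := by
      rw [map_mul, toLaurent_X_pow, ← mul_assoc, ← T_add, add_assoc, hcd]
    rcases hk with hk | hk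
    · left
      apply toLaurent_injective
      rw [h1, hk, h2]
    · right
      apply toLaurent_injective
      rw [h1, hk, mul_neg, h2, map_neg]
  have hdF : expand ℤ w F ∣ X ^ c * (M.map (fun N => cyclotomic N ℤ)).prod := by
    have h1 : expand ℤ w F ∣ X ^ d * (expand ℤ w F * G) :=
      Dvd.dvd.mul_left (dvd_mul_right _ _) _
    rcases hP with hP | hP
    · rwa [hP] at h1
    · rwa [hP, dvd_neg] at h1
  have hdG : expand ℤ 1 G ∣ X ^ c * (M.map (fun N => cyclotomic N ℤ)).prod := by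
    rw [expand_one]
    have h1 : G ∣ X ^ d * (expand ℤ w F * G) := Dvd.dvd.mul_left (dvd_mul_left _ _) _
    rcases hP with hP | hP
    · rwa [hP] at h1
    · rwa [hP, dvd_neg] at h1
  exact ⟨f2_fin hF (factor w hw M hM c F hdF), f2_fin hG (factor 1 one_pos M hM c G hdG)⟩

end Pool.Agent.Helper62.SAT
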