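import Mathlib
import Pool.Agent.Helper62.SAT.BurauGen
import Pool.Agent.Helper62.OB.St.BurauRn

/-!
# Full twists act by scalars modulo the column of ones
-/

set_option autoImplicit false

namespace Pool.Agent.Helper62.SAT

open Pool.Agent.Helper62.OB Matrix Polynomial LaurentPolynomial

/-- The action of the braids on the columns modulo the column of ones. -/
noncomputable def rb (k : ℕ) (γ : BraidGroup k) : Matrix (Fin k) (Fin k) ℤ[T;T⁻¹] := red (bu k γ)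

theorem rb_mul (k : ℕ) (γ δ : BraidGroup k) : rb k (γ * δ) = rb k γ * rb k δ := by
  rw [rb, bu_mul, red_mul _ _ (bu_E0 k γ)]
  rfl

theorem rb_one (k : ℕ) : rb k 1 = 1 := by
  rw [rb, bu_one, red_one]

theorem rb_full (k : ℕ) :
    rb k (rn k 0 k ^ (k + 1)) = (T ((k + 1 : ℕ) : ℤ) : ℤ[T;T⁻¹]) • (1 : Matrix _ _ ℤ[T;T⁻¹]) := by
  obtain ⟨g, -, hg⟩ := burau_pow k (k + 1)
  have h1 : bu k (rn k 0 k ^ (k + 1)) = (T ((k + 1 : ℕ) : ℤ) : ℤ[T;T⁻¹]) • (1 : Matrix _ _ ℤ[T;T⁻¹]) +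
      E0 ℤ[T;T⁻¹] k * (Matrix.of fun (_ : Unit) j => g j) := by
    ext1 i j
    rw [bu, hg i j, Matrix.add_apply, Matrix.smul_apply, Matrix.mul_apply, Matrix.one_apply]
    congr 1
    · rw [Nat.add_mod_right, Nat.mod_eq_of_lt i.isLt]
      by_cases h : i = j
      · rw [if_pos (congrArg Fin.val h.symm), if_pos h, smul_eq_mul, mul_one]
      · rw [if_neg (fun h2 => h (Fin.ext h2.symm)), if_neg h, smul_zero]
    · simp [E0]
  rw [rb, red, h1, Matrix.mul_add, Matrix.add_mul, ← Matrix.mul_assoc, F0_mul_E0, Matrix.zero_mul,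
    Matrix.zero_mul, add_zero, Matrix.mul_smul, Matrix.smul_mul, Matrix.mul_one, F0_mul_G0]

theorem rb_full_zpow (k : ℕ) (z : ℤ) :
    rb k ((rn k 0 k ^ (k + 1)) ^ z) =
      (T ((k + 1 : ℕ) * z) : ℤ[T;T⁻¹]) • (1 : Matrix _ _ ℤ[T;T⁻¹]) := by
  have hn : ∀ n : ℕ, rb k ((rn k 0 k ^ (k + 1)) ^ n) =
      (T ((k + 1 : ℕ) * (n : ℤ)) : ℤ[T;T⁻¹]) • (1 : Matrix _ _ ℤ[T;T⁻¹]) := by
    intro n
    induction n with
    | zero => rw [pow_zero, rb_one, Nat.cast_zero, mul_zero, T_zero, one_smul]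
    | succ n ih =>
      rw [pow_succ, rb_mul, ih, rb_full, Matrix.smul_mul, Matrix.one_mul, smul_smul, ← T_add]
      congr 2
  obtain ⟨n, rfl | rfl⟩ := z.eq_nat_or_neg
  · rw [zpow_natCast, hn]
  · rw [_root_.zpow_neg, zpow_natCast]
    have h1 : rb k ((rn k 0 k ^ (k + 1)) ^ n)⁻¹ * rb k ((rn k 0 k ^ (k + 1)) ^ n) = 1 := by
      rw [← rb_mul, inv_mul_cancel, rb_one]
    rw [hn, Matrix.mul_smul, Matrix.mul_one] at h1
    have h2 : (T ((k + 1 : ℕ) * (-(n : ℤ))) : ℤ[T;T⁻¹]) •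
        ((T ((k + 1 : ℕ) * (n : ℤ)) : ℤ[T;T⁻¹]) • rb k ((rn k 0 k ^ (k + 1)) ^ n)⁻¹) =
        rb k ((rn k 0 k ^ (k + 1)) ^ n)⁻¹ := by
      rw [smul_smul, ← T_add]
      have h3 : ((k + 1 : ℕ) * (-(n : ℤ)) + (k + 1 : ℕ) * (n : ℤ)) = 0 := by ring
      rw [h3, T_zero, one_smul]
    rw [← h2, h1]

/-- Full twists multiply by a power of `T`. -/
theorem rb_full_mul (k : ℕ) (z : ℤ) (p : BraidGroup k) :
    rb k ((rn k 0 k ^ (k + 1)) ^ z * p) = (T ((k + 1 : ℕ) * z) : ℤ[T;T⁻¹]) • rb k p := by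
  rw [rb_mul, rb_full_zpow, Matrix.smul_mul, Matrix.one_mul]

end Pool.Agent.Helper62.SAT
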