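import Mathlib
import Pool.Agent.Helper62.SAT.MonDefs
import Pool.Agent.Helper62.OB.St.Orbit

/-!
# The structure of the monomial matrix of a word

Induction on the word with `mon_cons`, `mono_mul_apply`: for `mon (p :: L)` the row
`a = i.castSucc` is `q` times the row `i.succ` of `mon L`, the row `a = i.succ` is `q'` times the row
`i.castSucc`, the other rows are unchanged; so the new `d` is `q * d i.succ` at `i.castSucc`,
`q' * d i.castSucc` at `i.succ`, and `d a` otherwise, its product is multiplied by `q * q'`
(`= T^w` or `T^(-w)`; use `Equiv.prod_comp` for the swap of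
`i.castSucc` and `i.succ`), and `permHom (word (p :: L)) = swap * permHom (word L)`
(`OB.orbit_perm_sigma`; the swap is its own inverse).
-/

set_option autoImplicit false

namespace Pool.Agent.Helper62.SAT

open Pool.Agent.Helper62.OB Matrix Polynomial LaurentPolynomial

private theorem mon1_step {R : Type*} [CommRing R] (m : ℕ) (q q' : R) (i : Fin m)
    (M : Matrix (Fin (m + 1)) (Fin (m + 1)) R) (P : Equiv.Perm (Fin (m + 1)))
    (d : Fin (m + 1) → R) (hM : ∀ a b, M a b = if a = P b then d a else 0) :
    ∃ d' : Fin (m + 1) → R,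
      (∀ a b, (mono m q q' i * M) a b
        = if a = (Equiv.swap i.castSucc i.succ * P) b then d' a else 0) ∧
      ∏ a, d' a = q * q' * ∏ a, d a := by
  have n1 : i.castSucc ≠ i.succ := by
    intro h1
    have := congrArg Fin.val h1
    simp at this
  refine ⟨fun a => ((if a = i.castSucc then q else 1) * (if a = i.succ then q' else 1)) *
    d (Equiv.swap i.castSucc i.succ a), ?_, ?_⟩
  · intro a b
    have h2 : (mono m q q' i * M) a b = ((if a = i.castSucc then q else 1) *
        (if a = i.succ then q' else 1)) * M (Equiv.swap i.castSucc i.succ a) b := by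
      rw [mono_mul_apply]
      by_cases h3 : a = i.castSucc
      · rw [if_pos h3, if_pos h3, if_neg (by rw [h3]; exact n1), h3, Equiv.swap_apply_left, mul_one]
      · by_cases h4 : a = i.succ
        · rw [if_neg h3, if_neg h3, if_pos h4, if_pos h4, h4, Equiv.swap_apply_right, one_mul]
        · rw [if_neg h3, if_neg h3, if_neg h4, if_neg h4, Equiv.swap_apply_of_ne_of_ne h3 h4,
            one_mul, one_mul]
    have h5 : a = (Equiv.swap i.castSucc i.succ * P) b ↔
        Equiv.swap i.castSucc i.succ a = P b := by
      rw [Equiv.Perm.mul_apply]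
      constructor
      · intro h
        rw [h, Equiv.swap_apply_self]
      · intro h
        rw [← h, Equiv.swap_apply_self]
    rw [h2, hM]
    by_cases h6 : Equiv.swap i.castSucc i.succ a = P b
    · rw [if_pos h6, if_pos (h5.2 h6)]
    · rw [if_neg h6, if_neg (fun h => h6 (h5.1 h)), mul_zero]
  · rw [Finset.prod_mul_distrib, Finset.prod_mul_distrib, Finset.prod_ite_eq', Finset.prod_ite_eq',
      if_pos (Finset.mem_univ _), if_pos (Finset.mem_univ _),
      Equiv.prod_comp (Equiv.swap i.castSucc i.succ) d]

theorem mon_struct (m w : ℕ) (L : List (Fin m × Bool)) : ∃ d : Fin (m + 1) → ℤ[T;T⁻¹],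
    (∀ a b, mon m w L a b = if a = permHom m (word L) b then d a else 0) ∧
      ∏ a, d a = T (w * writhe L) := by
  induction L with
  | nil =>
    refine ⟨fun _ => 1, ?_, ?_⟩
    · intro a b
      rw [mon_nil, word, List.map_nil, List.prod_nil, map_one, Equiv.Perm.one_apply,
        Matrix.one_apply]
    · rw [Finset.prod_const_one, writhe, List.map_nil, List.sum_nil, mul_zero, T_zero]
  | cons p L ih =>
    obtain ⟨d, h1, h2⟩ := ih
    have hw : writhe (p :: L) = (if p.2 then (1 : ℤ) else -1) + writhe L := by
      rw [writhe, List.map_cons, List.sum_cons, writhe]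
    have hp : permHom m (word (p :: L)) = Equiv.swap p.1.castSucc p.1.succ *
        permHom m (word L) := by
      rw [word, List.map_cons, List.prod_cons, map_mul]
      congr 1
      by_cases h : p.2
      · rw [if_pos h, orbit_perm_sigma]
      · rw [if_neg h, map_inv, orbit_perm_sigma, Equiv.swap_inv]
    rw [mon_cons, hp, hw]
    by_cases h : p.2
    · obtain ⟨d', h3, h4⟩ := mon1_step m (T (w : ℤ)) 1 p.1 (mon m w L) _ d h1
      refine ⟨d', ?_, ?_⟩
      · rw [if_pos h]
        exact h3
      · rw [h4, h2, if_pos h, mul_one, ← T_add, mul_add, mul_one]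
    · obtain ⟨d', h3, h4⟩ := mon1_step m 1 (T (-(w : ℤ))) p.1 (mon m w L) _ d h1
      refine ⟨d', ?_, ?_⟩
      · rw [if_neg h]
        exact h3
      · rw [h4, h2, if_neg h, one_mul, ← T_add, mul_add, mul_neg, mul_one]

end Pool.Agent.Helper62.SAT
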