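import Mathlib
import Pool.Agent.Helper62.SAT.Mon1

/-!
# The powers of the monomial matrix of a word whose closure is a knot

With `π = permHom m (word L)`, `D = mon m w L` and `d` from `mon_struct`: `(D^s) a b = 0` unless
`a = (π^s) b`, and `(D^s) a b = ∏_{j<s} d ((π^j)⁻¹ a)` then (induction on `s`).  As `π` is one cycle
(`Equiv.Perm.IsCycleOn` on `univ`; `IsCycleOn.pow_apply_eq`), `(π^s) 0 ≠ 0` for `1 ≤ s ≤ m`,
`π^(m+1) = 1`, and `j ↦ (π^j)⁻¹ a`, `j < m + 1`, runs through all the places once
(injective on `range (m + 1)`, so a bijection with `univ`).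
-/

set_option autoImplicit false

namespace Pool.Agent.Helper62.SAT

open Pool.Agent.Helper62.OB Matrix Polynomial LaurentPolynomial

private theorem mon2_pow {n R : Type*} [Fintype n] [DecidableEq n] [CommRing R]
    (D : Matrix n n R) (π : Equiv.Perm n) (d : n → R)
    (hD : ∀ a b, D a b = if a = π b then d a else 0) (s : ℕ) (a b : n) :
    (D ^ s) a b = if a = (π ^ s) b then ∏ j ∈ Finset.range s, d ((π ^ j)⁻¹ a) else 0 := by
  induction s generalizing a b with
  | zero =>
    rw [pow_zero, Matrix.one_apply, pow_zero, Equiv.Perm.one_apply, Finset.prod_range_zero]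
  | succ s ih =>
    rw [pow_succ', Matrix.mul_apply, Finset.sum_eq_single (π⁻¹ a)]
    · rw [hD, if_pos (by simp), ih, Finset.prod_range_succ']
      have h1 : (π⁻¹ a = (π ^ s) b) ↔ (a = (π ^ (s + 1)) b) := by
        rw [pow_succ', Equiv.Perm.mul_apply, Equiv.Perm.inv_eq_iff_eq]
      by_cases h : a = (π ^ (s + 1)) b
      · rw [if_pos h, if_pos (h1.2 h), mul_comm]
        congr 1
      · rw [if_neg h, if_neg (fun h2 => h (h1.1 h2)), mul_zero]
    · intro c _ hc
      rw [hD, if_neg, zero_mul]
      intro h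
      apply hc
      rw [h]
      simp
    · intro h
      exact absurd (Finset.mem_univ _) h

theorem mon_pow (m w : ℕ) (L : List (Fin m × Bool)) (hL : IsKnot (word L)) :
    (∀ s, 1 ≤ s → s ≤ m → (mon m w L ^ s) 0 0 = 0) ∧
      mon m w L ^ (m + 1) = (T (w * writhe L) : ℤ[T;T⁻¹]) • (1 : Matrix _ _ ℤ[T;T⁻¹]) := by
  obtain ⟨d, hD, hd⟩ := mon_struct m w L
  have hc : (permHom m (word L)).IsCycleOn ((Finset.univ : Finset (Fin (m + 1))) : Set _) := by
    refine ⟨?_, fun x _ y _ => hL x y⟩
    rw [Finset.coe_univ]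
    exact Set.bijOn_univ.2 (permHom m (word L)).bijective
  have hpow := mon2_pow (mon m w L) (permHom m (word L)) d hD
  generalize permHom m (word L) = π at hc hpow
  constructor
  · intro s h1 h2
    rw [hpow, if_neg]
    intro h
    have h3 := (hc.pow_apply_eq (Finset.mem_univ (0 : Fin (m + 1)))).1 h.symm
    rw [Finset.card_univ, Fintype.card_fin] at h3
    have h4 := Nat.le_of_dvd (by omega) h3
    omega
  · ext1 a b
    rw [hpow, Matrix.smul_apply, Matrix.one_apply, smul_eq_mul, mul_ite, mul_one, mul_zero]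
    have h1 : (π ^ (m + 1)) b = b := by
      rw [hc.pow_apply_eq (Finset.mem_univ b), Finset.card_univ, Fintype.card_fin]
    rw [h1]
    by_cases h : a = b
    · rw [if_pos h, if_pos h, ← hd, Finset.prod_range]
      refine Fintype.prod_bijective (fun j : Fin (m + 1) => (π ^ (j : ℕ))⁻¹ a) ?_ _ _
        (fun _ => rfl)
      rw [← Finite.surjective_iff_bijective]
      intro c
      obtain ⟨n, hn, hn2⟩ := hc.exists_pow_eq (Finset.mem_univ c) (Finset.mem_univ a)
      rw [Finset.card_univ, Fintype.card_fin] at hn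
      refine ⟨⟨n, hn⟩, ?_⟩
      change (π ^ n)⁻¹ a = c
      rw [Equiv.Perm.inv_eq_iff_eq]
      exact hn2.symm
    · rw [if_neg h, if_neg h]

end Pool.Agent.Helper62.SAT
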