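import Mathlib
import Pool.Agent.Helper62.SAT.Full
import Pool.Agent.Helper62.SAT.Cyc
import Pool.Agent.Helper62.SAT.Blk3
import Pool.Agent.Helper62.SAT.Emb
import Pool.Agent.Helper62.SAT.Mon2

/-!
# The Alexander polynomial of a satellite with a braided pattern
-/

set_option autoImplicit false

namespace Pool.Agent.Helper62.SAT

open Pool.Agent.Helper62.OB Matrix Polynomial LaurentPolynomial
open scoped Kronecker

/-- The Burau matrix at `T ^ w`. -/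
noncomputable def AA (m w : ℕ) (γ : BraidGroup m) : Matrix (Fin (m + 1)) (Fin (m + 1)) ℤ[T;T⁻¹] :=
  (bu m γ).map (psi w)

theorem AA_one (m w : ℕ) : AA m w 1 = 1 := by
  rw [AA, bu_one, Matrix.map_one _ (map_zero _) (map_one _)]

theorem AA_mul (m w : ℕ) (γ δ : BraidGroup m) : AA m w (γ * δ) = AA m w γ * AA m w δ := by
  rw [AA, bu_mul, Matrix.map_mul]
  rfl

theorem AA_sigma (m w : ℕ) (i : Fin m) : AA m w (sigma i) = mono m (T (w : ℤ)) 1 i +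
    Matrix.single i.castSucc i.castSucc (1 - T (w : ℤ) : ℤ[T;T⁻¹]) := by
  have n1 : i.succ ≠ i.castSucc := by
    intro h1
    have := congrArg Fin.val h1
    simp at this
  ext1 a b
  rw [AA, Matrix.map_apply, bu_sigma, bmat, Matrix.add_apply, Matrix.vecMulVec_apply, map_add,
    map_mul, Matrix.add_apply, mono, bcol, brow, Matrix.one_apply]
  by_cases ha : a = i.castSucc
  · subst ha
    rw [if_pos rfl, if_pos rfl, map_neg, psi_T, mul_one]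
    by_cases hb : b = i.castSucc
    · subst hb
      rw [if_pos rfl, if_pos rfl, if_neg n1.symm, Matrix.single_apply_same, map_one]
      ring
    · rw [if_neg (Ne.symm hb), if_neg hb, map_zero, Matrix.single_apply_of_col_ne _ _ (Ne.symm hb)]
      by_cases hb2 : b = i.succ
      · rw [if_pos hb2, if_pos hb2, map_neg, map_one]
        ring
      · rw [if_neg hb2, if_neg hb2, map_zero]
        ring
  · rw [if_neg ha, if_neg ha, Matrix.single_apply_of_row_ne (Ne.symm ha), add_zero]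
    by_cases ha2 : a = i.succ
    · subst ha2
      rw [if_pos rfl, if_pos rfl, map_one, one_mul]
      by_cases hb : b = i.castSucc
      · subst hb
        rw [if_neg n1, if_pos rfl, if_pos rfl, map_zero, map_one]
        ring
      · rw [if_neg hb, if_neg hb]
        by_cases hb2 : b = i.succ
        · rw [if_pos hb2.symm, if_pos hb2, map_one, map_neg, map_one]
          ring
        · rw [if_neg (Ne.symm hb2), if_neg hb2, map_zero]
          ring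
    · rw [if_neg ha2, if_neg ha2, map_zero, zero_mul, add_zero]
      split_ifs
      · rw [map_one]
      · rw [map_zero]

theorem sub_kron {l n p q : Type*} (A B : Matrix l n ℤ[T;T⁻¹]) (C : Matrix p q ℤ[T;T⁻¹]) :
    (A - B) ⊗ₖ C = A ⊗ₖ C - B ⊗ₖ C := by
  ext1 i j
  rw [Matrix.sub_apply, Matrix.kroneckerMap_apply, Matrix.kroneckerMap_apply,
    Matrix.kroneckerMap_apply, Matrix.sub_apply, sub_mul]

section main

variable (m k N : ℕ) (hN : N + 1 = (k + 1) * (m + 1))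

/-- The Burau matrix in block coordinates. -/
noncomputable def bb (γ : BraidGroup N) :
    Matrix (Fin (m + 1) × Fin (k + 1)) (Fin (m + 1) × Fin (k + 1)) ℤ[T;T⁻¹] :=
  (bu N γ).submatrix (ee m k N hN) (ee m k N hN)

theorem bb_mul (γ δ : BraidGroup N) : bb m k N hN (γ * δ) = bb m k N hN γ * bb m k N hN δ := by
  rw [bb, bu_mul, ← submatrix_mul_equiv _ _ _ (ee m k N hN)]
  rfl

theorem bb_one : bb m k N hN 1 = 1 := by
  rw [bb, bu_one, Matrix.submatrix_one_equiv]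

/-- the matrix with equal rows `(1 - T) T^s` -/
noncomputable def rowsM : Matrix (Fin (k + 1)) (Fin (k + 1)) ℤ[T;T⁻¹] :=
  Matrix.of fun (_ s : Fin (k + 1)) => (1 - T 1) * (T (s.val : ℤ) : ℤ[T;T⁻¹])

theorem geom_mul (k : ℕ) : ∑ s : Fin (k + 1), (1 - T 1) * (T (s.val : ℤ) : ℤ[T;T⁻¹]) =
    1 - T ((k + 1 : ℕ) : ℤ) := by
  rw [Fin.sum_univ_eq_sum_range (fun s => (1 - T 1) * (T (s : ℤ) : ℤ[T;T⁻¹])) (k + 1)]
  have h : ∀ n : ℕ, ∑ s ∈ Finset.range n, (1 - T 1) * (T (s : ℤ) : ℤ[T;T⁻¹]) = 1 - T (n : ℤ) := by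
    intro n
    induction n with
    | zero => simp
    | succ n ih =>
      rw [Finset.sum_range_succ, ih]
      have : (T ((n + 1 : ℕ) : ℤ) : ℤ[T;T⁻¹]) = T 1 * T (n : ℤ) := by
        rw [← T_add]
        congr 1
        push_cast
        ring
      rw [this]
      ring
  exact h (k + 1)

theorem rowsM_E0 : rowsM k * E0 ℤ[T;T⁻¹] k = (1 - T ((k + 1 : ℕ) : ℤ) : ℤ[T;T⁻¹]) • E0 ℤ[T;T⁻¹] k := by
  ext1 i j
  rw [Matrix.mul_apply, Matrix.smul_apply]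
  simp only [rowsM, Matrix.of_apply, E0, mul_one, smul_eq_mul]
  exact geom_mul k

theorem F0_rowsM : F0 ℤ[T;T⁻¹] k * rowsM k = 0 := by
  have h : rowsM k = E0 ℤ[T;T⁻¹] k *
      (Matrix.of fun (_ : Unit) (s : Fin (k + 1)) => (1 - T 1) * (T (s.val : ℤ) : ℤ[T;T⁻¹])) := by
    ext1 i j
    rw [Matrix.mul_apply]
    simp [rowsM, E0]
  rw [h, ← Matrix.mul_assoc, F0_mul_E0, Matrix.zero_mul]

theorem bb_blk_E (i : Fin m) (X : Matrix (Fin (m + 1)) (Fin (m + 1)) ℤ[T;T⁻¹]) :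
    bb m k N hN (blk (k + 1) N i.val) * (X ⊗ₖ E0 ℤ[T;T⁻¹] k) =
      (AA m (k + 1) (sigma i) * X) ⊗ₖ E0 ℤ[T;T⁻¹] k := by
  rw [bb, bu_blk, Matrix.add_mul, ← Matrix.mul_kronecker_mul, ← Matrix.mul_kronecker_mul,
    Matrix.one_mul]
  have h := rowsM_E0 k
  rw [rowsM] at h
  rw [h, Matrix.kronecker_smul, ← Matrix.smul_kronecker, ← Matrix.add_kronecker, AA_sigma,
    Matrix.add_mul, ← Matrix.smul_mul, Matrix.smul_single, smul_eq_mul, mul_one]

theorem bb_blk_F (i : Fin m) (Y : Matrix (Fin (m + 1)) (Fin (m + 1)) ℤ[T;T⁻¹]) :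
    (Y ⊗ₖ F0 ℤ[T;T⁻¹] k) * bb m k N hN (blk (k + 1) N i.val) =
      (Y * mono m (T ((k + 1 : ℕ) : ℤ)) 1 i) ⊗ₖ F0 ℤ[T;T⁻¹] k := by
  rw [bb, bu_blk, Matrix.mul_add, ← Matrix.mul_kronecker_mul, ← Matrix.mul_kronecker_mul,
    Matrix.mul_one]
  have h := F0_rowsM k
  rw [rowsM] at h
  rw [h, Matrix.kronecker_zero, add_zero]

theorem bb_cabled_E (L : List (Fin m × Bool)) (X : Matrix (Fin (m + 1)) (Fin (m + 1)) ℤ[T;T⁻¹]) :
    bb m k N hN (cabled (k + 1) N L) * (X ⊗ₖ E0 ℤ[T;T⁻¹] k) =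
      (AA m (k + 1) (word L) * X) ⊗ₖ E0 ℤ[T;T⁻¹] k := by
  induction L generalizing X with
  | nil =>
    have h1 : cabled (k + 1) N ([] : List (Fin m × Bool)) = 1 := rfl
    have h2 : word ([] : List (Fin m × Bool)) = 1 := rfl
    rw [h1, h2, bb_one, AA_one, Matrix.one_mul, Matrix.one_mul]
  | cons p L ih =>
    obtain ⟨i, ε⟩ := p
    cases ε
    · have h1 : cabled (k + 1) N ((i, false) :: L) = (blk (k + 1) N i)⁻¹ * cabled (k + 1) N L := by
        simp [cabled]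
      have h2 : word ((i, false) :: L) = (sigma i)⁻¹ * word L := by simp [word]
      rw [h1, h2, bb_mul, AA_mul, Matrix.mul_assoc, ih, Matrix.mul_assoc]
      have h3 := bb_blk_E m k N hN i (AA m (k + 1) (sigma i)⁻¹ * (AA m (k + 1) (word L) * X))
      rw [← Matrix.mul_assoc (AA m (k + 1) (sigma i)), ← AA_mul, mul_inv_cancel, AA_one,
        Matrix.one_mul] at h3
      rw [← h3, ← Matrix.mul_assoc, ← bb_mul, inv_mul_cancel, bb_one, Matrix.one_mul]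
    · have h1 : cabled (k + 1) N ((i, true) :: L) = blk (k + 1) N i * cabled (k + 1) N L := by
        simp [cabled]
      have h2 : word ((i, true) :: L) = sigma i * word L := by simp [word]
      rw [h1, h2, bb_mul, AA_mul, Matrix.mul_assoc, ih, bb_blk_E, Matrix.mul_assoc]

theorem bb_cabled_F (L : List (Fin m × Bool)) (Y : Matrix (Fin (m + 1)) (Fin (m + 1)) ℤ[T;T⁻¹]) :
    (Y ⊗ₖ F0 ℤ[T;T⁻¹] k) * bb m k N hN (cabled (k + 1) N L) =
      (Y * mon m (k + 1) L) ⊗ₖ F0 ℤ[T;T⁻¹] k := by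
  induction L generalizing Y with
  | nil =>
    have h1 : cabled (k + 1) N ([] : List (Fin m × Bool)) = 1 := rfl
    rw [h1, mon_nil, bb_one, Matrix.mul_one, Matrix.mul_one]
  | cons p L ih =>
    obtain ⟨i, ε⟩ := p
    cases ε
    · have h1 : cabled (k + 1) N ((i, false) :: L) = (blk (k + 1) N i)⁻¹ * cabled (k + 1) N L := by
        simp [cabled]
      rw [h1, mon_cons, bb_mul, ← Matrix.mul_assoc, ← Matrix.mul_assoc]
      have h3 := bb_blk_F m k N hN i (Y * mono m 1 (T (-((k + 1 : ℕ) : ℤ))) i)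
      rw [Matrix.mul_assoc Y, mono_mul_mono m _ _ _ _ i (one_mul 1)
        (by rw [← T_add, neg_add_cancel, T_zero]), Matrix.mul_one] at h3
      rw [← h3, Matrix.mul_assoc _ (bb m k N hN (blk (k + 1) N i.val)), ← bb_mul, mul_inv_cancel,
        bb_one, Matrix.mul_one, ih]
      rfl
    · have h1 : cabled (k + 1) N ((i, true) :: L) = blk (k + 1) N i * cabled (k + 1) N L := by
        simp [cabled]
      rw [h1, mon_cons, bb_mul, ← Matrix.mul_assoc, bb_blk_F, ih, Matrix.mul_assoc]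
      rfl

/-- the matrix of the satellite modulo the columns which are constant on the blocks -/
noncomputable def QQ (L : List (Fin m × Bool)) (p : BraidGroup k) :
    Matrix (Fin (m + 1) × Fin k) (Fin (m + 1) × Fin k) ℤ[T;T⁻¹] :=
  (mon m (k + 1) L ⊗ₖ (1 : Matrix (Fin k) (Fin k) ℤ[T;T⁻¹])) *
    (1 + Matrix.single (0 : Fin (m + 1)) (0 : Fin (m + 1)) (1 : ℤ[T;T⁻¹]) ⊗ₖ (rb k p - 1))

theorem bb_sat_E (h : 0 + k ≤ N) (L : List (Fin m × Bool)) (p : BraidGroup k) :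
    bb m k N hN (cabled (k + 1) N L * emb k 0 N h p) *
      ((1 : Matrix (Fin (m + 1)) (Fin (m + 1)) ℤ[T;T⁻¹]) ⊗ₖ E0 ℤ[T;T⁻¹] k) =
      AA m (k + 1) (word L) ⊗ₖ E0 ℤ[T;T⁻¹] k := by
  rw [bb_mul, Matrix.mul_assoc]
  have h1 : bb m k N hN (emb k 0 N h p) *
      ((1 : Matrix (Fin (m + 1)) (Fin (m + 1)) ℤ[T;T⁻¹]) ⊗ₖ E0 ℤ[T;T⁻¹] k) =
      (1 : Matrix (Fin (m + 1)) (Fin (m + 1)) ℤ[T;T⁻¹]) ⊗ₖ E0 ℤ[T;T⁻¹] k := by
    rw [bb, bu_emb, Matrix.add_mul, ← Matrix.mul_kronecker_mul, Matrix.sub_mul, bu_E0,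
      Matrix.one_mul, Matrix.one_mul, sub_self, Matrix.kronecker_zero, add_zero]
  rw [h1, bb_cabled_E, Matrix.mul_one]

theorem bb_sat_F (h : 0 + k ≤ N) (L : List (Fin m × Bool)) (p : BraidGroup k) :
    ((1 : Matrix (Fin (m + 1)) (Fin (m + 1)) ℤ[T;T⁻¹]) ⊗ₖ F0 ℤ[T;T⁻¹] k) *
      bb m k N hN (cabled (k + 1) N L * emb k 0 N h p) =
      QQ m k L p * ((1 : Matrix (Fin (m + 1)) (Fin (m + 1)) ℤ[T;T⁻¹]) ⊗ₖ F0 ℤ[T;T⁻¹] k) := by
  rw [bb_mul, ← Matrix.mul_assoc, bb_cabled_F, Matrix.one_mul, QQ, Matrix.mul_assoc, Matrix.add_mul,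
    Matrix.one_mul, ← Matrix.mul_kronecker_mul, Matrix.mul_add, ← Matrix.mul_kronecker_mul,
    ← Matrix.mul_kronecker_mul, Matrix.mul_one, Matrix.one_mul, Matrix.one_mul, Matrix.mul_one]
  rw [bb, bu_emb, Matrix.mul_add, Matrix.mul_one, ← Matrix.mul_kronecker_mul]
  have h1 : F0 ℤ[T;T⁻¹] k * (bu k p - 1) = (rb k p - 1) * F0 ℤ[T;T⁻¹] k := by
    rw [Matrix.mul_sub, F0_mul _ (bu_E0 k p), Matrix.sub_mul, Matrix.mul_one, Matrix.one_mul]
    rfl
  rw [h1]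

theorem W_eq : (E0 ℤ[T;T⁻¹] N * E0' ℤ[T;T⁻¹] N).submatrix (ee m k N hN) (ee m k N hN) =
    (E0 ℤ[T;T⁻¹] m * E0' ℤ[T;T⁻¹] m) ⊗ₖ (E0 ℤ[T;T⁻¹] k * E0' ℤ[T;T⁻¹] k) := by
  have h : ∀ (n : ℕ) (i j : Fin (n + 1)), (E0 ℤ[T;T⁻¹] n * E0' ℤ[T;T⁻¹] n) i j =
      if j = 0 then 1 else 0 := by
    intro n i j
    simp [Matrix.mul_apply, E0, E0']
  ext1 x y
  obtain ⟨i, r⟩ := x
  obtain ⟨j, s⟩ := y
  rw [Matrix.submatrix_apply, h, Matrix.kroneckerMap_apply, h, h]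
  have h1 : ee m k N hN (j, s) = 0 ↔ j = 0 ∧ s = 0 := by
    constructor
    · intro h2
      have h3 := congrArg Fin.val h2
      rw [ee_val] at h3
      simp only [Fin.val_zero, Nat.add_eq_zero_iff, mul_eq_zero] at h3
      constructor
      · apply Fin.ext
        have := h3.2
        simp only [Fin.val_zero]
        omega
      · apply Fin.ext
        simp only [Fin.val_zero]
        exact h3.1
    · rintro ⟨rfl, rfl⟩
      apply Fin.ext
      rw [ee_val]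
      simp
  by_cases hj : j = 0
  · by_cases hs : s = 0
    · rw [if_pos (h1.2 ⟨hj, hs⟩), if_pos hj, if_pos hs, mul_one]
    · rw [if_neg (fun h2 => hs (h1.1 h2).2), if_neg hs, mul_zero]
  · rw [if_neg (fun h2 => hj (h1.1 h2).1), if_neg hj, zero_mul]

include hN in
theorem det_sat (h : 0 + k ≤ N) (L : List (Fin m × Bool)) (p : BraidGroup k) :
    (1 - bu N (cabled (k + 1) N L * emb k 0 N h p) + E0 ℤ[T;T⁻¹] N * E0' ℤ[T;T⁻¹] N).det =
      (1 - AA m (k + 1) (word L) + E0 ℤ[T;T⁻¹] m * E0' ℤ[T;T⁻¹] m).det * (1 - QQ m k L p).det := by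
  have e1 : (1 - bu N (cabled (k + 1) N L * emb k 0 N h p) +
      E0 ℤ[T;T⁻¹] N * E0' ℤ[T;T⁻¹] N).submatrix (ee m k N hN) (ee m k N hN) =
      1 - bb m k N hN (cabled (k + 1) N L * emb k 0 N h p) +
        (E0 ℤ[T;T⁻¹] m * E0' ℤ[T;T⁻¹] m) ⊗ₖ (E0 ℤ[T;T⁻¹] k * E0' ℤ[T;T⁻¹] k) := by
    rw [← W_eq m k N hN]
    have h0 : (1 : Matrix (Fin (N + 1)) (Fin (N + 1)) ℤ[T;T⁻¹]).submatrix (ee m k N hN)
        (ee m k N hN) = 1 := Matrix.submatrix_one_equiv _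
    rw [← h0]
    rfl
  rw [← Matrix.det_submatrix_equiv_self (ee m k N hN), e1]
  have h2 := det_split
    (1 - bb m k N hN (cabled (k + 1) N L * emb k 0 N h p) +
      (E0 ℤ[T;T⁻¹] m * E0' ℤ[T;T⁻¹] m) ⊗ₖ (E0 ℤ[T;T⁻¹] k * E0' ℤ[T;T⁻¹] k))
    ((1 - AA m (k + 1) (word L) + E0 ℤ[T;T⁻¹] m * E0' ℤ[T;T⁻¹] m) ⊗ₖ
      (1 : Matrix Unit Unit ℤ[T;T⁻¹]))
    (1 - QQ m k L p)
    ((1 : Matrix (Fin (m + 1)) (Fin (m + 1)) ℤ[T;T⁻¹]) ⊗ₖ E0 ℤ[T;T⁻¹] k)
    ((1 : Matrix (Fin (m + 1)) (Fin (m + 1)) ℤ[T;T⁻¹]) ⊗ₖ F0 ℤ[T;T⁻¹] k)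
    ((1 : Matrix (Fin (m + 1)) (Fin (m + 1)) ℤ[T;T⁻¹]) ⊗ₖ E0' ℤ[T;T⁻¹] k)
    ((1 : Matrix (Fin (m + 1)) (Fin (m + 1)) ℤ[T;T⁻¹]) ⊗ₖ G0 ℤ[T;T⁻¹] k)
    (by rw [← Matrix.mul_kronecker_mul, E0'_mul_E0, Matrix.one_mul, Matrix.one_kronecker_one])
    (by rw [← Matrix.mul_kronecker_mul, F0_mul_G0, Matrix.one_mul, Matrix.one_kronecker_one])
    (by rw [← Matrix.mul_kronecker_mul, F0_mul_E0, Matrix.kronecker_zero])
    (by rw [← Matrix.mul_kronecker_mul, E0'_mul_G0, Matrix.kronecker_zero])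
    (by rw [← Matrix.mul_kronecker_mul, ← Matrix.mul_kronecker_mul, Matrix.one_mul,
      ← Matrix.kronecker_add, base_sum, Matrix.one_kronecker_one])
    (by
      rw [Matrix.add_mul, Matrix.sub_mul, bb_sat_E, Matrix.one_mul, ← Matrix.mul_kronecker_mul,
        ← Matrix.mul_kronecker_mul, Matrix.mul_one, Matrix.one_mul, Matrix.mul_one,
        Matrix.mul_assoc, E0'_mul_E0, Matrix.mul_one, Matrix.add_kronecker, sub_kron])
    (by
      rw [Matrix.mul_add, Matrix.mul_sub, bb_sat_F, Matrix.mul_one, ← Matrix.mul_kronecker_mul,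
        ← Matrix.mul_assoc (F0 ℤ[T;T⁻¹] k), F0_mul_E0, Matrix.zero_mul, Matrix.kronecker_zero, add_zero,
        Matrix.sub_mul, Matrix.one_mul])
  rw [h2, Matrix.det_kronecker, Matrix.det_one, one_pow, mul_one, Fintype.card_unit, pow_one]

theorem psi_geom (m w : ℕ) : psi w (∑ i ∈ Finset.range (m + 1), (T (i : ℤ) : ℤ[T;T⁻¹])) =
    ∑ i ∈ Finset.range (m + 1), (T ((w : ℤ) * (i : ℤ)) : ℤ[T;T⁻¹]) := by
  rw [map_sum]
  exact Finset.sum_congr rfl fun i _ => psi_T w i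

include hN in
theorem geom_prod : (∑ i ∈ Finset.range (m + 1), (T (((k + 1 : ℕ) : ℤ) * (i : ℤ)) : ℤ[T;T⁻¹])) *
    (∑ i ∈ Finset.range (k + 1), (T (i : ℤ) : ℤ[T;T⁻¹])) =
      ∑ i ∈ Finset.range (N + 1), (T (i : ℤ) : ℤ[T;T⁻¹]) := by
  rw [← Fin.sum_univ_eq_sum_range (fun i => (T (i : ℤ) : ℤ[T;T⁻¹])) (N + 1),
    ← Fin.sum_univ_eq_sum_range (fun i => (T (i : ℤ) : ℤ[T;T⁻¹])) (k + 1),
    ← Fin.sum_univ_eq_sum_range (fun i => (T (((k + 1 : ℕ) : ℤ) * (i : ℤ)) : ℤ[T;T⁻¹])) (m + 1),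
    ← (ee m k N hN).sum_comp, Fintype.sum_prod_type, Finset.sum_mul_sum]
  apply Finset.sum_congr rfl
  intro i _
  apply Finset.sum_congr rfl
  intro s _
  rw [ee_val, ← T_add]
  congr 1
  push_cast
  ring

end main

/-- **The Alexander polynomial of a satellite with a braided pattern.** -/
theorem alexander_sat (m k N : ℕ) (hN : N + 1 = (k + 1) * (m + 1)) (h : 0 + k ≤ N)
    (L : List (Fin m × Bool)) (hL : IsKnot (word L)) (p : BraidGroup k) :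
    alexander (cabled (k + 1) N L * emb k 0 N h p) =
      psi (k + 1) (alexander (word L)) * alexander ((rn k 0 k ^ (k + 1)) ^ writhe L * p) := by
  have h1 := det_sat m k N hN h L p
  rw [det_alex] at h1
  have h2 : (1 - AA m (k + 1) (word L) + E0 ℤ[T;T⁻¹] m * E0' ℤ[T;T⁻¹] m).det =
      psi (k + 1) ((∑ i ∈ Finset.range (m + 1), (T (i : ℤ) : ℤ[T;T⁻¹])) * alexander (word L)) := by
    rw [← det_alex, RingHom.map_det]
    congr 1
    have e0 : (psi (k + 1)).mapMatrix (E0 ℤ[T;T⁻¹] m * E0' ℤ[T;T⁻¹] m) =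
        E0 ℤ[T;T⁻¹] m * E0' ℤ[T;T⁻¹] m := by
      ext1 i j
      simp [Matrix.mul_apply, E0, E0', apply_ite (psi (k + 1))]
    rw [map_add, map_sub, map_one, e0]
    rfl
  obtain ⟨h3, h4⟩ := mon_pow m (k + 1) L hL
  have h5 : (1 - QQ m k L p).det =
      (1 - (T (((k + 1 : ℕ) : ℤ) * writhe L) : ℤ[T;T⁻¹]) • rb k p).det := by
    rw [QQ]
    exact det_block_cyclic m k (mon m (k + 1) L) (T (((k + 1 : ℕ) : ℤ) * writhe L))
      (T (-(((k + 1 : ℕ) : ℤ) * writhe L))) (by rw [← T_add, add_neg_cancel, T_zero]) h3 h4 (rb k p)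
  rw [← rb_full_mul] at h5
  have h6 := red_alex k ((rn k 0 k ^ (k + 1)) ^ writhe L * p)
  rw [rb, h6] at h5
  rw [h2, h5, map_mul, psi_geom] at h1
  apply mul_left_cancel₀ (geom_ne N)
  rw [h1, ← geom_prod m k N hN]
  ring

end Pool.Agent.Helper62.SAT
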