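import Mathlib
import Pool.Agent.Helper62.SAT.Defs
import Pool.Agent.Helper62.OB.St.BraidAlg

/-!
# Crossings of blocks and generators in the first block

Here `R_r = rn N (i n + r) n = σ_{i n + r + n - 1} ⋯ σ_{i n + r}`, `blk n N i = R_0 R_1 ⋯ R_{n-1}`.
`σ_j R_r = R_r σ_{j+1}` for `i n + r ≤ j`, `j + 1 < i n + r + n` (as `OB.shift`:
write `R_r = (σ_{i n + r + n - 1} ⋯ σ_{j+2}) σ_{j+1} σ_j (σ_{j-1} ⋯ σ_{i n + r})` by `OB.rn_add`), so
`σ_{i n + a}` moves through `R_0, ..., R_{n-1}` and becomes `σ_{i n + n + a}` (`a + 1 < n`).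
Useful: `OB.braidalg_sg_braid`, `OB.braidalg_comm_sg_rn`, `OB.rn_add` in `OB/St/BraidAlg.lean`.
-/

set_option autoImplicit false

namespace Pool.Agent.Helper62.SAT

open Pool.Agent.Helper62.OB

private theorem sg_rn_run (N r n j : ℕ) (h1 : r ≤ j) (h2 : j + 1 < r + n) (h3 : j + 1 < N) :
    sg N j * rn N r n = rn N r n * sg N (j + 1) := by
  obtain ⟨p, rfl⟩ : ∃ p, j = r + p := ⟨j - r, by omega⟩
  obtain ⟨q, rfl⟩ : ∃ q, n = (p + 2) + q := ⟨n - (p + 2), by omega⟩
  have e : rn N r ((p + 2) + q) =
      rn N (r + p + 2) q * (sg N (r + p + 1) * (sg N (r + p) * rn N r p)) := by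
    rw [rn_add, show p + 2 = (p + 1) + 1 from rfl, braidalg_rn_succ, braidalg_rn_succ]
    rfl
  have c1 : sg N (r + p) * rn N (r + p + 2) q = rn N (r + p + 2) q * sg N (r + p) :=
    braidalg_comm_sg_rn N (r + p) (r + p + 2) q (Or.inl le_rfl)
  have c2 : sg N (r + p + 1) * rn N r p = rn N r p * sg N (r + p + 1) :=
    braidalg_comm_sg_rn N (r + p + 1) r p (Or.inr le_rfl)
  have c3 := braidalg_sg_braid N (r + p) h3
  rw [e]
  calc sg N (r + p) * (rn N (r + p + 2) q * (sg N (r + p + 1) * (sg N (r + p) * rn N r p)))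
      = (sg N (r + p) * rn N (r + p + 2) q) * (sg N (r + p + 1) * (sg N (r + p) * rn N r p)) := by
        rw [mul_assoc]
    _ = rn N (r + p + 2) q * ((sg N (r + p) * sg N (r + p + 1) * sg N (r + p)) * rn N r p) := by
        rw [c1]; simp only [mul_assoc]
    _ = rn N (r + p + 2) q * (sg N (r + p + 1) * sg N (r + p) * (sg N (r + p + 1) * rn N r p)) := by
        rw [c3]; simp only [mul_assoc]
    _ = rn N (r + p + 2) q * (sg N (r + p + 1) * (sg N (r + p) * rn N r p)) *
          sg N (r + p + 1) := by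
        rw [c2]; simp only [mul_assoc]

theorem sg_blk_right (n N i a : ℕ) (h : (i + 2) * n ≤ N + 1) (ha : a + 1 < n) :
    sg N (i * n + a) * blk n N i = blk n N i * sg N (i * n + n + a) := by
  have hN : i * n + 2 * n ≤ N + 1 := by
    have : (i + 2) * n = i * n + 2 * n := by ring
    omega
  have key : ∀ k, k ≤ n → sg N (i * n + a) * ((List.range k).map fun j => rn N (i * n + j) n).prod =
      ((List.range k).map fun j => rn N (i * n + j) n).prod * sg N (i * n + a + k) := by
    intro k
    induction k with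
    | zero => intro _; simp
    | succ k ih =>
      intro hk
      rw [List.range_succ, List.map_append, List.prod_append, List.map_cons, List.map_nil,
        List.prod_cons, List.prod_nil, mul_one, ← mul_assoc, ih (by omega), mul_assoc,
        sg_rn_run N (i * n + k) n (i * n + a + k) (by omega) (by omega) (by omega), mul_assoc,
        show i * n + a + k + 1 = i * n + a + (k + 1) by omega]
  have := key n le_rfl
  rw [show i * n + n + a = i * n + a + n by omega]
  exact this

end Pool.Agent.Helper62.SAT
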