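import Mathlib
import Pool.Agent.Helper62.SAT.Defs
import Pool.Agent.Helper62.OB.St.BraidAlg

/-!
# Crossings of blocks and generators in the second block

Here `R_r = rn N (i n + r) n = σ_{i n + r + n - 1} ⋯ σ_{i n + r}`, `blk n N i = R_0 R_1 ⋯ R_{n-1}`.
Way 1: `blk n N i = C_{n-1} C_{n-2} ⋯ C_0` with the ascending runs
`C_l = σ_{i n + l} σ_{i n + l + 1} ⋯ σ_{i n + l + n - 1}` (the crossing `(r, l)` is
`σ_{i n + r + l}`; `(r, l)` and `(r', l')` commute for `r < r'`, `l < l'`; compare
`OB.braidalg_prod_mul`, `OB.braidalg_bw`), and `σ_{j+1} C_l = C_l σ_j` for `i n + l ≤ j`,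
`j + 1 < i n + l + n`, so `σ_{i n + n + a}` moves through `C_{n-1}, ..., C_0` and becomes `σ_{i n + a}`.
Way 2: `σ_{i n + n + a}` commutes with `R_r` for `r < a`,
`σ_{i n + n + a} R_a R_{a+1} = R_a R_{a+1} σ_{i n + a}` (compare `OB.wrap`; general fact:
`σ_{c+n} rn c n * rn (c+1) n = rn c n * rn (c+1) n * σ_c`, by induction on `n`), and `σ_{i n + a}`
commutes with `R_r` for `r > a + 1`.
-/

set_option autoImplicit false

namespace Pool.Agent.Helper62.SAT

open Pool.Agent.Helper62.OB

private theorem sats2_two (N c n : ℕ) (h : c + n < N) :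
    sg N (c + n) * (rn N c n * rn N (c + 1) n) = rn N c n * rn N (c + 1) n * sg N c := by
  induction n with
  | zero =>
    rw [braidalg_rn_zero, braidalg_rn_zero, one_mul, mul_one, one_mul, add_zero]
  | succ n ih =>
    have ih' := ih (by omega)
    have c1 : sg N (c + n + 1) * rn N c n = rn N c n * sg N (c + n + 1) :=
      braidalg_comm_sg_rn N (c + n + 1) c n (Or.inr le_rfl)
    have c2 := braidalg_sg_braid N (c + n) (by omega)
    have e : c + 1 + n = c + n + 1 := by omega
    rw [braidalg_rn_succ, braidalg_rn_succ, e, ← add_assoc]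
    calc sg N (c + n + 1) * (sg N (c + n) * rn N c n * (sg N (c + n + 1) * rn N (c + 1) n))
        = sg N (c + n + 1) * sg N (c + n) * (rn N c n * sg N (c + n + 1)) * rn N (c + 1) n := by
          simp only [mul_assoc]
      _ = (sg N (c + n + 1) * sg N (c + n) * sg N (c + n + 1)) * rn N c n * rn N (c + 1) n := by
          rw [← c1]; simp only [mul_assoc]
      _ = sg N (c + n) * sg N (c + n + 1) * (sg N (c + n) * (rn N c n * rn N (c + 1) n)) := by
          rw [← c2]; simp only [mul_assoc]
      _ = sg N (c + n) * (sg N (c + n + 1) * rn N c n) * rn N (c + 1) n * sg N c := by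
          rw [ih']; simp only [mul_assoc]
      _ = _ := by rw [c1]; simp only [mul_assoc]

private theorem sats2_split {G : Type} [Group G] (f : ℕ → G) (a k : ℕ) :
    ((List.range (a + (2 + k))).map f).prod = ((List.range a).map f).prod *
      ((f a * f (a + 1)) * ((List.range k).map fun j => f (a + 2 + j)).prod) := by
  rw [List.range_add, List.map_append, List.prod_append, List.map_map, List.range_add,
    List.map_append, List.prod_append, List.map_map]
  congr 1
  congr 1
  · simp [List.range_succ]
  · congr 1
    apply List.map_congr_left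
    intro j _
    simp only [Function.comp_apply]
    congr 1
    omega

theorem sg_blk_left (n N i a : ℕ) (h : (i + 2) * n ≤ N + 1) (ha : a + 1 < n) :
    sg N (i * n + n + a) * blk n N i = blk n N i * sg N (i * n + a) := by
  obtain ⟨k, hk⟩ : ∃ k, n = a + (2 + k) := ⟨n - (a + 2), by omega⟩
  have hN : i * n + a + n < N := by
    have h1 : (i + 2) * n = i * n + 2 * n := by ring
    omega
  have e : blk n N i = ((List.range a).map fun k => rn N (i * n + k) n).prod *
      ((rn N (i * n + a) n * rn N (i * n + (a + 1)) n) *
        ((List.range k).map fun j => rn N (i * n + (a + 2 + j)) n).prod) := by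
    unfold blk
    have h1 := sats2_split (fun k => rn N (i * n + k) n) a k
    rw [← hk] at h1
    exact h1
  have c1 : Commute (sg N (i * n + n + a)) ((List.range a).map fun k => rn N (i * n + k) n).prod := by
    apply Commute.list_prod_right
    intro x hx
    rw [List.mem_map] at hx
    obtain ⟨r, hr, rfl⟩ := hx
    have hr' := List.mem_range.mp hr
    exact braidalg_comm_sg_rn N _ _ _ (Or.inr (by omega))
  have c2 : Commute (sg N (i * n + a))
      ((List.range k).map fun j => rn N (i * n + (a + 2 + j)) n).prod := by
    apply Commute.list_prod_right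
    intro x hx
    rw [List.mem_map] at hx
    obtain ⟨r, hr, rfl⟩ := hx
    exact braidalg_comm_sg_rn N _ _ _ (Or.inl (by omega))
  have c3 := sats2_two N (i * n + a) n hN
  have e1 : i * n + n + a = i * n + a + n := by omega
  rw [e1] at c1 ⊢
  rw [e, ← add_assoc (i * n) a 1]
  calc sg N (i * n + a + n) * (((List.range a).map fun k => rn N (i * n + k) n).prod *
      ((rn N (i * n + a) n * rn N (i * n + a + 1) n) *
        ((List.range k).map fun j => rn N (i * n + (a + 2 + j)) n).prod))
      = (sg N (i * n + a + n) * ((List.range a).map fun k => rn N (i * n + k) n).prod) *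
        ((rn N (i * n + a) n * rn N (i * n + a + 1) n) *
          ((List.range k).map fun j => rn N (i * n + (a + 2 + j)) n).prod) := by
        simp only [mul_assoc]
    _ = ((List.range a).map fun k => rn N (i * n + k) n).prod *
        ((sg N (i * n + a + n) * (rn N (i * n + a) n * rn N (i * n + a + 1) n)) *
          ((List.range k).map fun j => rn N (i * n + (a + 2 + j)) n).prod) := by
        rw [c1.eq]; simp only [mul_assoc]
    _ = ((List.range a).map fun k => rn N (i * n + k) n).prod *
        ((rn N (i * n + a) n * rn N (i * n + a + 1) n) * (sg N (i * n + a) *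
          ((List.range k).map fun j => rn N (i * n + (a + 2 + j)) n).prod)) := by
        rw [c3]; simp only [mul_assoc]
    _ = _ := by rw [c2.eq]; simp only [mul_assoc]

end Pool.Agent.Helper62.SAT
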