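import Mathlib
import Pool.Agent.Helper62.SAT.Shift1
import Pool.Agent.Helper62.SAT.Shift2

/-!
# Crossings of blocks and braids in the blocks

* `sg_blk_far`: the generators commute one by one (`OB.braidalg_comm_sg_rn`, `Commute.list_prod_right`).
* `emb_blk_right`, `emb_blk_left`, `emb_blk_far`: `braid_induction` on `x` with `sg_blk_right`,
  `sg_blk_left`, `sg_blk_far` (`a = j`, `j : Fin k`, `n = k + 1`; for inverses: if `s b = b s'` then
  `s⁻¹ b = b s'⁻¹`).
* `emb_comm`: braids in different blocks commute (`braid_induction` twice, `OB.sg_comm`/`artin_comm`).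
-/

set_option autoImplicit false

namespace Pool.Agent.Helper62.SAT

open Pool.Agent.Helper62.OB

private theorem sats3_hom {k N : ℕ} (f g : BraidGroup k →* BraidGroup N) (b : BraidGroup N)
    (h : ∀ i, f (sigma i) * b = b * g (sigma i)) (x : BraidGroup k) : f x * b = b * g x := by
  induction x using braid_induction with
  | h1 => rw [map_one, map_one, one_mul, mul_one]
  | hs i => exact h i
  | hs' i =>
    rw [map_inv, map_inv, inv_mul_eq_iff_eq_mul, ← mul_assoc, h i, mul_assoc, mul_inv_cancel,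
      mul_one]
  | hm γ δ h1 h2 => rw [map_mul, map_mul, mul_assoc, h2, ← mul_assoc, h1, mul_assoc]

private theorem sats3_emb (k a N : ℕ) (h : a + k ≤ N) (j : Fin k) :
    emb k a N h (sigma j) = sg N (a + j.val) := by
  rw [emb_sigma, braidalg_sg_lt N (a + j.val) (by omega)]

theorem sg_blk_far (n N i b : ℕ) (h : b + 2 ≤ i * n ∨ (i + 2) * n ≤ b) :
    sg N b * blk n N i = blk n N i * sg N b := by
  have hc : Commute (sg N b) (blk n N i) := by
    unfold blk
    apply Commute.list_prod_right
    intro x hx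
    rw [List.mem_map] at hx
    obtain ⟨r, hr, rfl⟩ := hx
    have hr' := List.mem_range.mp hr
    have e : (i + 2) * n = i * n + 2 * n := by ring
    exact braidalg_comm_sg_rn N _ _ _ (by omega)
  exact hc.eq

theorem emb_blk_right (k N i : ℕ) (h : (i + 2) * (k + 1) ≤ N + 1) (x : BraidGroup k)
    (h1 : i * (k + 1) + k ≤ N) (h2 : (i + 1) * (k + 1) + k ≤ N) :
    emb k (i * (k + 1)) N h1 x * blk (k + 1) N i =
      blk (k + 1) N i * emb k ((i + 1) * (k + 1)) N h2 x := by
  refine sats3_hom _ _ _ (fun j => ?_) x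
  rw [sats3_emb, sats3_emb, sg_blk_right (k + 1) N i j.val h (by omega),
    show (i + 1) * (k + 1) + j.val = i * (k + 1) + (k + 1) + j.val by ring]

theorem emb_blk_left (k N i : ℕ) (h : (i + 2) * (k + 1) ≤ N + 1) (x : BraidGroup k)
    (h1 : i * (k + 1) + k ≤ N) (h2 : (i + 1) * (k + 1) + k ≤ N) :
    emb k ((i + 1) * (k + 1)) N h2 x * blk (k + 1) N i =
      blk (k + 1) N i * emb k (i * (k + 1)) N h1 x := by
  refine sats3_hom _ _ _ (fun j => ?_) x
  rw [sats3_emb, sats3_emb, ← sg_blk_left (k + 1) N i j.val h (by omega),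
    show (i + 1) * (k + 1) + j.val = i * (k + 1) + (k + 1) + j.val by ring]

theorem emb_blk_far (k N i j : ℕ) (hj : j * (k + 1) + k ≤ N) (hij : j + 1 ≤ i ∨ i + 2 ≤ j)
    (x : BraidGroup k) :
    emb k (j * (k + 1)) N hj x * blk (k + 1) N i = blk (k + 1) N i * emb k (j * (k + 1)) N hj x := by
  refine sats3_hom _ _ _ (fun l => ?_) x
  rw [sats3_emb]
  apply sg_blk_far
  have hl := l.isLt
  rcases hij with hij | hij
  · left
    have h1 : (j + 1) * (k + 1) ≤ i * (k + 1) := Nat.mul_le_mul_right _ hij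
    have h2 : (j + 1) * (k + 1) = j * (k + 1) + (k + 1) := by ring
    omega
  · right
    have h1 : (i + 2) * (k + 1) ≤ j * (k + 1) := Nat.mul_le_mul_right _ hij
    omega

theorem emb_comm (k N i j : ℕ) (hi : i * (k + 1) + k ≤ N) (hj : j * (k + 1) + k ≤ N)
    (hij : i ≠ j) (x y : BraidGroup k) :
    Commute (emb k (i * (k + 1)) N hi x) (emb k (j * (k + 1)) N hj y) := by
  have key : ∀ a b : Fin k, Commute (emb k (i * (k + 1)) N hi (sigma a))
      (emb k (j * (k + 1)) N hj (sigma b)) := by
    intro a b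
    rw [sats3_emb, sats3_emb]
    have ha := a.isLt
    have hb := b.isLt
    refine sg_comm N _ _ ?_
    rcases Nat.lt_or_gt_of_ne hij with h | h
    · left
      have h1 : (i + 1) * (k + 1) ≤ j * (k + 1) := Nat.mul_le_mul_right _ h
      have h2 : (i + 1) * (k + 1) = i * (k + 1) + (k + 1) := by ring
      omega
    · right
      have h1 : (j + 1) * (k + 1) ≤ i * (k + 1) := Nat.mul_le_mul_right _ h
      have h2 : (j + 1) * (k + 1) = j * (k + 1) + (k + 1) := by ring
      omega
  refine sats3_hom _ _ _ (fun a => ?_) x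
  exact (sats3_hom (emb k (j * (k + 1)) N hj) (emb k (j * (k + 1)) N hj) _
    (fun b => (key a b).eq.symm) y).symm

end Pool.Agent.Helper62.SAT
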