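import Mathlib
import Pool.Agent.Helper62.SAT.Shift3

/-!
# Conjugation of the pattern of a satellite

* `exists_diag`: for `h : BraidGroup k` the product `H` of the `emb k (j * (k + 1)) N _ h`,
  `j = 0, ..., m` (for example `((List.range (m + 1)).map f).prod`, `f j = emb ...` if `j ≤ m`, `1`
  otherwise; or `Finset.noncommProd`) commutes
  with `blk (k + 1) N i` for `i < m`, as `H = emb_i h * emb_{i+1} h * (the rest)` and the crossing
  exchanges the first two factors and commutes with the rest (`emb_blk_right`, `emb_blk_left`,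
  `emb_blk_far`, `emb_comm`), and `H * emb_0 p * H⁻¹ = emb_0 (h p h⁻¹)` as the factors with `j > 0`
  commute with `emb_0 p`.
* `sat_conj`: `H` commutes with `cabled (k + 1) N L` (induction on `L`).
-/

set_option autoImplicit false

namespace Pool.Agent.Helper62.SAT

open Pool.Agent.Helper62.OB

theorem emb_congr (k N a b : ℕ) (hab : a = b) (ha : a + k ≤ N) (hb : b + k ≤ N)
    (x : BraidGroup k) : emb k a N ha x = emb k b N hb x := by
  subst hab
  rfl

theorem diag_le {m k N : ℕ} (hN : N + 1 = (k + 1) * (m + 1)) {j : ℕ} (hj : j ≤ m) :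
    j * (k + 1) + k ≤ N := by
  have h1 : j * (k + 1) ≤ m * (k + 1) := Nat.mul_le_mul_right _ hj
  have h2 : (k + 1) * (m + 1) = m * (k + 1) + (k + 1) := by ring
  omega

/-- The factor in the block number `j`. -/
def fac (k N : ℕ) (h : BraidGroup k) (j : ℕ) : BraidGroup N :=
  if hj : j * (k + 1) + k ≤ N then emb k (j * (k + 1)) N hj h else 1

theorem fac_eq {m k N : ℕ} (hN : N + 1 = (k + 1) * (m + 1)) (h : BraidGroup k) {j : ℕ}
    (hj : j ≤ m) : fac k N h j = emb k (j * (k + 1)) N (diag_le hN hj) h := by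
  unfold fac
  rw [dif_pos (diag_le hN hj)]

/-- The product of the first `n` factors. -/
def diagProd (k N : ℕ) (h : BraidGroup k) (n : ℕ) : BraidGroup N :=
  ((List.range n).map (fac k N h)).prod

theorem diagProd_succ (k N : ℕ) (h : BraidGroup k) (n : ℕ) :
    diagProd k N h (n + 1) = diagProd k N h n * fac k N h n := by
  unfold diagProd
  exact List.prod_range_succ _ _

theorem fac_comm {m k N : ℕ} (hN : N + 1 = (k + 1) * (m + 1)) (h : BraidGroup k) {i j : ℕ}
    (hj : j ≤ m) (hij : j + 1 ≤ i ∨ i + 2 ≤ j) : Commute (fac k N h j) (blk (k + 1) N i) := by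
  rw [fac_eq hN h hj]
  exact emb_blk_far k N i j _ hij h

theorem diag_low {m k N : ℕ} (hN : N + 1 = (k + 1) * (m + 1)) (h : BraidGroup k) {i : ℕ}
    (hi : i < m) : ∀ n, n ≤ i → Commute (diagProd k N h n) (blk (k + 1) N i) := by
  intro n
  induction n with
  | zero =>
    intro _
    unfold diagProd
    simp
  | succ n ih =>
    intro hn
    rw [diagProd_succ]
    exact (ih (by omega)).mul_left (fac_comm hN h (by omega) (Or.inl hn))

theorem diag_mid {m k N : ℕ} (hN : N + 1 = (k + 1) * (m + 1)) (h : BraidGroup k) {i : ℕ}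
    (hi : i < m) : Commute (diagProd k N h (i + 2)) (blk (k + 1) N i) := by
  rw [show i + 2 = (i + 1) + 1 from rfl, diagProd_succ, diagProd_succ, mul_assoc]
  refine (diag_low hN h hi i le_rfl).mul_left ?_
  have h1 := diag_le hN (show i ≤ m by omega)
  have h2 := diag_le hN (show i + 1 ≤ m by omega)
  have h3 : (i + 2) * (k + 1) ≤ N + 1 := by
    have h4 : (i + 2) * (k + 1) ≤ (m + 1) * (k + 1) := Nat.mul_le_mul_right _ (by omega)
    rw [hN, mul_comm (k + 1)]
    exact h4
  rw [fac_eq hN h (show i ≤ m by omega), fac_eq hN h (show i + 1 ≤ m by omega)]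
  have e1 := emb_blk_right k N i h3 h h1 h2
  have e2 := emb_blk_left k N i h3 h h1 h2
  have e3 := (emb_comm k N i (i + 1) h1 h2 (by omega) h h).eq
  show _ = _
  rw [mul_assoc, e2, ← mul_assoc, e1, mul_assoc, ← e3]

theorem diag_high {m k N : ℕ} (hN : N + 1 = (k + 1) * (m + 1)) (h : BraidGroup k) {i : ℕ}
    (hi : i < m) : ∀ n, i + 2 ≤ n → n ≤ m + 1 →
      Commute (diagProd k N h n) (blk (k + 1) N i) := by
  intro n hn
  induction n, hn using Nat.le_induction with
  | base =>
    intro _
    exact diag_mid hN h hi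
  | succ n hn ih =>
    intro hm
    rw [diagProd_succ]
    exact (ih (by omega)).mul_left (fac_comm hN h (by omega) (Or.inr hn))

theorem diag_zero {m k N : ℕ} (hN : N + 1 = (k + 1) * (m + 1)) (h0 : 0 + k ≤ N)
    (h p : BraidGroup k) : ∀ n, n ≤ m →
      diagProd k N h (n + 1) * emb k 0 N h0 p =
        emb k 0 N h0 (h * p * h⁻¹) * diagProd k N h (n + 1) := by
  intro n
  induction n with
  | zero =>
    intro _
    rw [diagProd_succ]
    have e0 : diagProd k N h 0 = 1 := by
      unfold diagProd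
      simp
    have e1 : fac k N h 0 = emb k 0 N h0 h := by
      rw [fac_eq hN h (Nat.zero_le m)]
      exact emb_congr k N _ _ (by omega) _ _ h
    rw [e0, e1, one_mul, ← map_mul, ← map_mul]
    congr 1
    group
  | succ n ih =>
    intro hn
    have ih := ih (by omega)
    have e1 : Commute (fac k N h (n + 1)) (emb k 0 N h0 p) := by
      rw [fac_eq hN h hn, emb_congr k N 0 (0 * (k + 1)) (by omega) h0 (by omega) p]
      exact emb_comm k N (n + 1) 0 _ _ (by omega) h p
    rw [diagProd_succ, mul_assoc, e1.eq, ← mul_assoc, ih, mul_assoc]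

theorem exists_diag (m k N : ℕ) (hN : N + 1 = (k + 1) * (m + 1)) (h0 : 0 + k ≤ N)
    (h : BraidGroup k) : ∃ H : BraidGroup N,
      (∀ i, i < m → Commute H (blk (k + 1) N i)) ∧
      ∀ p : BraidGroup k, H * emb k 0 N h0 p * H⁻¹ = emb k 0 N h0 (h * p * h⁻¹) := by
  refine ⟨diagProd k N h (m + 1), fun i hi => ?_, fun p => ?_⟩
  · exact diag_high hN h hi (m + 1) (by omega) le_rfl
  · rw [diag_zero hN h0 h p m le_rfl, mul_assoc, mul_inv_cancel, mul_one]

theorem sat_conj (m k N : ℕ) (hN : N + 1 = (k + 1) * (m + 1)) (h0 : 0 + k ≤ N)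
    (L : List (Fin m × Bool)) (h p : BraidGroup k) : ∃ H : BraidGroup N,
      cabled (k + 1) N L * emb k 0 N h0 (h * p * h⁻¹) =
        H * (cabled (k + 1) N L * emb k 0 N h0 p) * H⁻¹ := by
  obtain ⟨H, h1, h2⟩ := exists_diag m k N hN h0 h
  refine ⟨H, ?_⟩
  have h3 : Commute H (cabled (k + 1) N L) := by
    unfold cabled
    refine Commute.list_prod_right _ _ fun x hx => ?_
    obtain ⟨q, _, rfl⟩ := List.mem_map.mp hx
    by_cases hq : q.2
    · rw [if_pos hq]
      exact h1 _ q.1.2
    · rw [if_neg hq]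
      exact (h1 _ q.1.2).inv_right
  rw [← h2 p, ← mul_assoc, ← mul_assoc, ← h3.eq, mul_assoc H]

end Pool.Agent.Helper62.SAT
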