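import Mathlib
import Pool.Agent.Helper62.OB.Iter
import Pool.Agent.Helper62.SAT.Defs2
import Pool.Agent.Helper62.SAT.Shift4
import Pool.Agent.Helper62.SAT.CabCab2
import Pool.Agent.Helper62.SAT.ConjInt

/-!
# The satellites which are iterated cables
-/

set_option autoImplicit false

namespace Pool.Agent.Helper62.SAT

open Pool.Agent.Helper62.OB

theorem emb_sg (k N i : ℕ) (h : 0 + k ≤ N) (hi : i < k) : emb k 0 N h (sg k i) = sg N i := by
  unfold sg
  rw [dif_pos hi, dif_pos (by omega), emb_sigma]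
  congr 1
  apply Fin.ext
  exact zero_add i

theorem emb_rn (k N a r : ℕ) (h : 0 + k ≤ N) (hr : a + r ≤ k) :
    emb k 0 N h (rn k a r) = rn N a r := by
  induction r with
  | zero => exact map_one _
  | succ r ih =>
    have h1 : rn k a (r + 1) = sg k (a + r) * rn k a r := rfl
    have h2 : rn N a (r + 1) = sg N (a + r) * rn N a r := rfl
    rw [h1, h2, map_mul, ih (by omega), emb_sg k N (a + r) h (by omega)]

theorem emb_blk (k N v i : ℕ) (h : 0 + k ≤ N) (hi : (i + 2) * v ≤ k + 1) :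
    emb k 0 N h (blk v k i) = blk v N i := by
  unfold blk
  rw [map_list_prod, List.map_map]
  congr 1
  apply List.map_congr_left
  intro r hr
  rw [List.mem_range] at hr
  apply emb_rn
  have : (i + 2) * v = i * v + 2 * v := by ring
  omega

theorem emb_bw (k N v j : ℕ) (h : 0 + k ≤ N) (hj : (j + 1) * v ≤ k + 1) :
    emb k 0 N h (bw v k j) = bw v N j := by
  induction j with
  | zero => exact map_one _
  | succ j ih =>
    have h1 : bw v k (j + 1) = blk v k j * bw v k j := rfl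
    have h2 : bw v N (j + 1) = blk v N j * bw v N j := rfl
    rw [h1, h2, map_mul, emb_blk k N v j h hj, ih (le_trans (Nat.mul_le_mul_right v (by omega)) hj)]

theorem exists_inv_word {M : ℕ} (L : List (Fin M × Bool)) : ∃ L' : List (Fin M × Bool),
    word L' = (word L)⁻¹ ∧ ∀ n N, cabled n N L' = (cabled n N L)⁻¹ := by
  induction L with
  | nil => exact ⟨[], by simp [word], fun _ _ => by simp [cabled]⟩
  | cons p L ih =>
    obtain ⟨L', h1, h2⟩ := ih
    obtain ⟨i, ε⟩ := p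
    refine ⟨L' ++ [(i, !ε)], ?_, ?_⟩
    · have h3 : word (L' ++ [(i, !ε)]) = word L' * word [(i, !ε)] := by simp [word]
      have h4 : word ((i, ε) :: L) = word [(i, ε)] * word L := by simp [word]
      rw [h3, h4, h1, mul_inv_rev]
      congr 1
      cases ε <;> simp [word]
    · intro n N
      have h3 : cabled n N (L' ++ [(i, !ε)]) = cabled n N L' * cabled n N [(i, !ε)] := by
        simp [cabled]
      have h4 : cabled n N ((i, ε) :: L) = cabled n N [(i, ε)] * cabled n N L := by simp [cabled]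
      rw [h3, h4, h2, mul_inv_rev]
      congr 1
      cases ε <;> simp [cabled]

theorem exists_word_zpow {M : ℕ} (L : List (Fin M × Bool)) (t : ℤ) :
    ∃ L' : List (Fin M × Bool), word L' = word L ^ t ∧
      ∀ n N, cabled n N L' = cabled n N L ^ t := by
  have hn : ∀ t : ℕ, ∃ L' : List (Fin M × Bool), word L' = word L ^ t ∧
      ∀ n N, cabled n N L' = cabled n N L ^ t := by
    intro t
    induction t with
    | zero => exact ⟨[], by simp [word], fun _ _ => by simp [cabled]⟩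
    | succ t ih =>
      obtain ⟨L', h1, h2⟩ := ih
      refine ⟨L' ++ L, ?_, ?_⟩
      · rw [pow_succ, ← h1]
        simp [word]
      · intro n N
        rw [pow_succ, ← h2]
        simp [cabled]
  obtain ⟨n, rfl | rfl⟩ := t.eq_nat_or_neg
  · obtain ⟨L', h1, h2⟩ := hn n
    exact ⟨L', by rw [zpow_natCast, h1], fun a b => by rw [zpow_natCast, h2]⟩
  · obtain ⟨L', h1, h2⟩ := hn n
    obtain ⟨L'', h3, h4⟩ := exists_inv_word L'
    exact ⟨L'', by rw [zpow_neg, zpow_natCast, h3, h1], fun a b => by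
      rw [zpow_neg, zpow_natCast, h4, h2]⟩

/-- the pattern is a cable of a torus pattern -/
theorem pattern_conj (k v μ : ℕ) (hv : 1 ≤ v) (hμ : 1 ≤ μ) (hk : k + 1 = v * μ) (t₀ κ : ℤ)
    (hcop : IsCoprime t₀ (μ : ℤ)) :
    ∃ h : BraidGroup k, rn k 0 (v - 1) ^ κ * (rn k 0 k ^ v) ^ t₀ =
      h * (bw v k (μ - 1) ^ t₀ * rn k 0 (v - 1) ^ (κ + v * t₀)) * h⁻¹ := by
  obtain ⟨h, hh⟩ := conj_lemma_int (rn k 0 (v - 1)) (rn k 0 k ^ v) v μ t₀ hμ κ hcop
    (by
      intro x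
      rw [← pow_mul, ← hk]
      exact central k x)
    (fun s hs s' hs' => commF k v μ hv hk s s' hs hs')
    (fun s hs => commC k v μ hv hk s hs)
  have hX : rn k 0 k ^ v * (rn k 0 (v - 1) ^ v)⁻¹ = bw v k (μ - 1) := by
    rw [pow_eq k v μ hv hμ hk, mul_inv_cancel_right]
  rw [hX] at hh
  refine ⟨h⁻¹ * rn k 0 (v - 1) ^ (κ + v * t₀), ?_⟩
  have h1 : rn k 0 (v - 1) ^ κ * (rn k 0 k ^ v) ^ t₀ =
      h⁻¹ * (rn k 0 (v - 1) ^ (κ + v * t₀) * bw v k (μ - 1) ^ t₀) * h := by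
    rw [hh]
    group
  rw [h1]
  group

theorem iterCable_conj {x : Σ m : ℕ, BraidGroup m} {N : ℕ} {a b h : BraidGroup N}
    (hb : b = h * a * h⁻¹) (ha : IterCable x ⟨N, a⟩) : IterCable x ⟨N, b⟩ := by
  subst hb
  exact IterCable.markov _ _ (sameClosure_conj N a h) ha

/-- the satellite whose pattern is a cable of a torus pattern is a cable of a cable -/
theorem sat_iter (m k N v μ : ℕ) (hN : N + 1 = (k + 1) * (m + 1)) (h : 0 + k ≤ N) (hv : 1 ≤ v)
    (hμ : 1 ≤ μ) (hk : k + 1 = v * μ) (L : List (Fin m × Bool)) (t₀ K : ℤ)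
    (h1 : IsCoprime (μ : ℤ) t₀) (h2 : IsCoprime (v : ℤ) K) :
    IterCable ⟨m, word L⟩
      ⟨N, cabled (k + 1) N L * emb k 0 N h (bw v k (μ - 1) ^ t₀ * rn k 0 (v - 1) ^ K)⟩ := by
  obtain ⟨M, hM⟩ : ∃ M, M + 1 = μ * (m + 1) :=
    ⟨μ * (m + 1) - 1, Nat.sub_add_cancel (Nat.mul_pos hμ (Nat.succ_pos m))⟩
  have hvN : N + 1 = v * (M + 1) := by rw [hM, ← mul_assoc, ← hk, hN]
  obtain ⟨L', h3, h4⟩ := exists_cabled m μ M v N hM L
  have hμM : μ - 1 ≤ M := by
    have : μ * 1 ≤ μ * (m + 1) := Nat.mul_le_mul_left μ (by omega)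
    omega
  obtain ⟨L1, h5, h6⟩ := exists_word M (μ - 1) hμM
  obtain ⟨L2, h7, h8⟩ := exists_word_zpow L1 t₀
  have s1 := IterCable.cable m μ M t₀ L hμ hM h1 (IterCable.refl (x := ⟨m, word L⟩))
  have e1 : cabled μ M L * rn M 0 (μ - 1) ^ t₀ = word (L' ++ L2) := by
    have : word (L' ++ L2) = word L' * word L2 := by simp [word]
    rw [this, h3, h7, h5]
  rw [e1] at s1
  have s2 := IterCable.cable M v N K (L' ++ L2) hv hvN h2 s1
  have e2 : cabled v N (L' ++ L2) * rn N 0 (v - 1) ^ K =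
      cabled (k + 1) N L * emb k 0 N h (bw v k (μ - 1) ^ t₀ * rn k 0 (v - 1) ^ K) := by
    have h9 : cabled v N (L' ++ L2) = cabled v N L' * cabled v N L2 := by simp [cabled]
    have hvk : v ≤ k + 1 := by
      rw [hk]
      exact Nat.le_mul_of_pos_right v hμ
    rw [h9, h4, h8, h6, map_mul, map_zpow, map_zpow, emb_rn k N 0 (v - 1) h (by omega),
      emb_bw k N v (μ - 1) h (by rw [Nat.sub_add_cancel hμ, mul_comm, ← hk]), hk, mul_assoc]
  rw [e2] at s2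
  exact s2

theorem rn_N_eq_emb (k N : ℕ) (h : 0 + k ≤ N) (b : ℕ) (hb : b ≤ k) (t : ℤ) :
    rn N 0 b * rn N 0 k ^ t = emb k 0 N h (rn k 0 b * rn k 0 k ^ t) := by
  rw [map_mul, map_zpow, emb_rn k N 0 b h (by omega), emb_rn k N 0 k h (by omega)]

theorem geo_A (m k N b μ : ℕ) (hN : N + 1 = (k + 1) * (m + 1)) (hb : b ≤ k) (hμ : 1 ≤ μ)
    (hk : k + 1 = (b + 1) * μ) (L : List (Fin m × Bool)) (t₀ t' : ℤ)
    (hcop : IsCoprime t₀ (μ : ℤ)) (ht' : t' = (b + 1 : ℕ) * t₀) :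
    IterCable ⟨m, word L⟩ ⟨N, sat (k + 1) N L b t'⟩ := by
  have h : 0 + k ≤ N := by
    have : (k + 1) * 1 ≤ (k + 1) * (m + 1) := Nat.mul_le_mul_left _ (by omega)
    omega
  obtain ⟨g, hg⟩ := pattern_conj k (b + 1) μ (by omega) hμ hk t₀ 1 hcop
  rw [Nat.add_sub_cancel, zpow_one] at hg
  have e1 : rn k 0 b * rn k 0 k ^ t' = g * (bw (b + 1) k (μ - 1) ^ t₀ *
      rn k 0 b ^ (1 + ((b + 1 : ℕ) : ℤ) * t₀)) * g⁻¹ := by
    rw [← hg, ht', zpow_mul, zpow_natCast]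
  have e2 : sat (k + 1) N L b t' = cabled (k + 1) N L *
      emb k 0 N h (rn k 0 b * rn k 0 k ^ t') := by
    rw [sat, Nat.add_sub_cancel, rn_N_eq_emb k N h b hb t']
  obtain ⟨H, hH⟩ := sat_conj m k N hN h L g (bw (b + 1) k (μ - 1) ^ t₀ *
      rn k 0 b ^ (1 + ((b + 1 : ℕ) : ℤ) * t₀))
  rw [e2, e1]
  refine iterCable_conj hH ?_
  have h3 := sat_iter m k N (b + 1) μ hN h (by omega) hμ hk L t₀ (1 + ((b + 1 : ℕ) : ℤ) * t₀)
    hcop.symm ⟨-t₀, 1, by ring⟩
  rw [Nat.add_sub_cancel] at h3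
  exact h3

theorem geo_B (m k N b μ : ℕ) (hN : N + 1 = (k + 1) * (m + 1)) (hb : b ≤ k) (hμ : 1 ≤ μ)
    (hk : k + 1 = (k + 1 - b) * μ) (L : List (Fin m × Bool)) (t₀ t' : ℤ)
    (hcop : IsCoprime t₀ (μ : ℤ)) (ht' : t' + 1 = (k + 1 - b : ℕ) * t₀) :
    IterCable ⟨m, word L⟩ ⟨N, sat (k + 1) N L b t'⟩ := by
  have h : 0 + k ≤ N := by
    have : (k + 1) * 1 ≤ (k + 1) * (m + 1) := Nat.mul_le_mul_left _ (by omega)
    omega
  obtain ⟨g, hg⟩ := pattern_conj k (k + 1 - b) μ (by omega) hμ hk t₀ (-1) hcop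
  have hv : k + 1 - b - 1 = k - b := by omega
  rw [hv, zpow_neg_one] at hg
  have e0 : rn k 0 b * rn k 0 k ^ t' =
      (rn k 0 k ^ b)⁻¹ * ((rn k 0 (k - b))⁻¹ * rn k 0 k ^ (t' + 1)) * rn k 0 k ^ b := by
    have h1 : rn k 0 k = rn k b (k - b) * rn k 0 b := by
      have h2 := rn_add k 0 b (k - b)
      rw [zero_add, Nat.add_sub_cancel' hb] at h2
      exact h2
    have h2 := rn_shift k 0 (k - b) b (by omega)
    rw [zero_add] at h2
    have h3 : rn k b (k - b) = (rn k 0 k ^ b)⁻¹ * rn k 0 (k - b) * rn k 0 k ^ b := by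
      rw [mul_assoc, h2, inv_mul_cancel_left]
    have h4 : rn k 0 b = (rn k b (k - b))⁻¹ * rn k 0 k := by
      rw [h1]
      group
    have h5 : rn k 0 k * rn k 0 k ^ t' = rn k 0 k ^ (t' + 1) := by
      rw [zpow_add_one]
      exact (Commute.zpow_right (Commute.refl _) t').eq
    have h6 : rn k 0 k ^ b * rn k 0 k ^ (t' + 1) = rn k 0 k ^ (t' + 1) * rn k 0 k ^ b :=
      ((Commute.refl (rn k 0 k)).pow_left b).zpow_right (t' + 1)
    rw [h4, mul_assoc, h5, h3, mul_inv_rev, mul_inv_rev, inv_inv]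
    simp only [mul_assoc]
    rw [h6]
  have e1 : rn k 0 b * rn k 0 k ^ t' = ((rn k 0 k ^ b)⁻¹ * g) *
      (bw (k + 1 - b) k (μ - 1) ^ t₀ *
      rn k 0 (k - b) ^ (-1 + ((k + 1 - b : ℕ) : ℤ) * t₀)) * ((rn k 0 k ^ b)⁻¹ * g)⁻¹ := by
    rw [e0, ht', zpow_mul, zpow_natCast, hg]
    group
  have e2 : sat (k + 1) N L b t' = cabled (k + 1) N L *
      emb k 0 N h (rn k 0 b * rn k 0 k ^ t') := by
    rw [sat, Nat.add_sub_cancel, rn_N_eq_emb k N h b hb t']
  obtain ⟨H, hH⟩ := sat_conj m k N hN h L ((rn k 0 k ^ b)⁻¹ * g) (bw (k + 1 - b) k (μ - 1) ^ t₀ *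
      rn k 0 (k - b) ^ (-1 + ((k + 1 - b : ℕ) : ℤ) * t₀))
  rw [e2, e1]
  refine iterCable_conj hH ?_
  have h3 := sat_iter m k N (k + 1 - b) μ hN h (by omega) hμ hk L t₀
    (-1 + ((k + 1 - b : ℕ) : ℤ) * t₀) hcop.symm ⟨t₀, -1, by ring⟩
  rw [hv] at h3
  exact h3

end Pool.Agent.Helper62.SAT
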