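import Mathlib
import Pool.Agent.Helper62.SAT.BurauGen

/-!
# The Alexander polynomial and conjugation

By `red_alex`, `geom_ne` and `red_mul`, `bu_E0`: `red (bu (b a b⁻¹)) = U * red (bu a) * U'` with
`U = red (bu b)`, `U' = red (bu b⁻¹)`, `U U' = U' U = 1` (`red_one`), so the determinants of `1 - red`
agree (`Matrix.det_conj_of_mul_eq_one`); cancel the geometric sum.
-/

set_option autoImplicit false

namespace Pool.Agent.Helper62.SAT

open Pool.Agent.Helper62.OB Matrix Polynomial LaurentPolynomial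

theorem alexander_conj (m : ℕ) (a b : BraidGroup m) : alexander (b * a * b⁻¹) = alexander a := by
  have hU : red (bu m b) * red (bu m b⁻¹) = 1 := by
    rw [← red_mul _ _ (bu_E0 m b), bu_mul_inv, red_one]
  have hU' : red (bu m b⁻¹) * red (bu m b) = 1 := by
    rw [← red_mul _ _ (bu_E0 m b⁻¹), bu_inv_mul, red_one]
  have h1 : red (bu m (b * a * b⁻¹)) = red (bu m b) * red (bu m a) * red (bu m b⁻¹) := by
    rw [bu_mul, red_mul _ _ (bu_E0 m (b * a)), bu_mul, red_mul _ _ (bu_E0 m b)]
  have h2 : (1 - red (bu m (b * a * b⁻¹))) =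
      red (bu m b) * (1 - red (bu m a)) * red (bu m b⁻¹) := by
    rw [h1, Matrix.mul_sub, Matrix.mul_one, Matrix.sub_mul, hU]
  have h3 : (1 - red (bu m (b * a * b⁻¹))).det = (1 - red (bu m a)).det := by
    rw [h2, det_conj_of_mul_eq_one hU hU']
  rw [red_alex, red_alex] at h3
  exact mul_left_cancel₀ (geom_ne m) h3

end Pool.Agent.Helper62.SAT
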