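import Mathlib
import Pool.Agent.Helper62.SAT.BurauGen

/-!
# The Alexander polynomial and stabilisation

Let `ρ = bu m a`.  `bu (m + 1) (addStrand m a)` has the
entries `ρ x y` for `x, y ≤ m`, `1` in the place `(m + 1, m + 1)` and `0` otherwise
(`braid_induction`; `bcol`, `brow` of `i.castSucc`).  Multiply from the right by
`bmat (m + 1) T (last)` (`bmatInv`): in the minor of `1 - ...` without the first row and column add the
last column to the column before it (for `m = 0` there is none); for `σ`: the last row becomes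
`(0, ..., 0, 1)` and the minor of the other rows and columns is that of `1 - ρ`, so
the determinant is `alexander a`.  For `σ⁻¹` the last row becomes `(0, ..., 0, T⁻¹)`, so it is
`T⁻¹ alexander a`.  (Other ways are fine too: `Fin.snoc` coordinates, `Matrix.det_fromBlocks_zero₂₁`,
`red_alex`, ...)
-/

set_option autoImplicit false

namespace Pool.Agent.Helper62.SAT

open Pool.Agent.Helper62.OB Matrix Polynomial LaurentPolynomial

/-- `A` with one more row and column, those of the identity matrix. -/
private noncomputable def st {R : Type*} [CommRing R] {m : ℕ}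
    (A : Matrix (Fin (m + 1)) (Fin (m + 1)) R) : Matrix (Fin (m + 2)) (Fin (m + 2)) R :=
  fun x y => Fin.lastCases (motive := fun _ => R)
    (Fin.lastCases (motive := fun _ => R) 1 (fun _ => 0) y)
    (fun x' => Fin.lastCases (motive := fun _ => R) 0 (fun y' => A x' y') y) x

section st

variable {R : Type*} [CommRing R] {m : ℕ} (A B : Matrix (Fin (m + 1)) (Fin (m + 1)) R)

private theorem st_cc (x y : Fin (m + 1)) : st A x.castSucc y.castSucc = A x y := by
  unfold st
  rw [Fin.lastCases_castSucc, Fin.lastCases_castSucc]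

private theorem st_cl (x : Fin (m + 1)) : st A x.castSucc (Fin.last (m + 1)) = 0 := by
  unfold st
  rw [Fin.lastCases_castSucc, Fin.lastCases_last]

private theorem st_lc (y : Fin (m + 1)) : st A (Fin.last (m + 1)) y.castSucc = 0 := by
  unfold st
  rw [Fin.lastCases_last, Fin.lastCases_castSucc]

private theorem st_ll : st A (Fin.last (m + 1)) (Fin.last (m + 1)) = 1 := by
  unfold st
  rw [Fin.lastCases_last, Fin.lastCases_last]

private theorem st_mul : st A * st B = st (A * B) := by
  ext x y
  rw [Matrix.mul_apply, Fin.sum_univ_castSucc]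
  refine Fin.lastCases ?_ (fun x => ?_) x
  · refine Fin.lastCases ?_ (fun y => ?_) y
    · simp [st_lc, st_ll]
    · simp [st_lc, st_ll]
  · refine Fin.lastCases ?_ (fun y => ?_) y
    · simp [st_cl, st_cc]
    · simp [st_cl, st_cc, Matrix.mul_apply]

private theorem st_one : st (1 : Matrix (Fin (m + 1)) (Fin (m + 1)) R) = 1 := by
  ext x y
  refine Fin.lastCases ?_ (fun x => ?_) x
  · refine Fin.lastCases ?_ (fun y => ?_) y
    · rw [st_ll, Matrix.one_apply_eq]
    · rw [st_lc, Matrix.one_apply_ne (Fin.castSucc_lt_last y).ne']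
  · refine Fin.lastCases ?_ (fun y => ?_) y
    · rw [st_cl, Matrix.one_apply_ne (Fin.castSucc_lt_last x).ne]
    · rw [st_cc, Matrix.one_apply, Matrix.one_apply]
      by_cases h : x = y
      · rw [if_pos h, if_pos (by rw [h])]
      · rw [if_neg h, if_neg (fun h1 => h (Fin.castSucc_injective _ h1))]

private theorem bcol_c (t : R) (i : Fin m) (x : Fin (m + 1)) :
    bcol (m + 1) t i.castSucc x.castSucc = bcol m t i x := by
  unfold bcol
  have h1 : (x.castSucc = i.castSucc.castSucc) ↔ x = i.castSucc :=
    (Fin.castSucc_injective _).eq_iff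
  have h2 : (x.castSucc = i.castSucc.succ) ↔ x = i.succ := by
    rw [Fin.succ_castSucc]
    exact (Fin.castSucc_injective _).eq_iff
  simp only [h1, h2]

private theorem bcol_l (t : R) (i : Fin m) :
    bcol (m + 1) t i.castSucc (Fin.last (m + 1)) = 0 := by
  unfold bcol
  rw [if_neg (Fin.castSucc_lt_last _).ne', if_neg]
  rw [Fin.succ_castSucc]
  exact (Fin.castSucc_lt_last _).ne'

private theorem brow_c (i : Fin m) (x : Fin (m + 1)) :
    (brow (m + 1) i.castSucc x.castSucc : R) = brow m i x := by
  unfold brow
  have h1 : (x.castSucc = i.castSucc.castSucc) ↔ x = i.castSucc :=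
    (Fin.castSucc_injective _).eq_iff
  have h2 : (x.castSucc = i.castSucc.succ) ↔ x = i.succ := by
    rw [Fin.succ_castSucc]
    exact (Fin.castSucc_injective _).eq_iff
  simp only [h1, h2]

private theorem brow_l (i : Fin m) :
    (brow (m + 1) i.castSucc (Fin.last (m + 1)) : R) = 0 := by
  unfold brow
  rw [if_neg (Fin.castSucc_lt_last _).ne', if_neg]
  rw [Fin.succ_castSucc]
  exact (Fin.castSucc_lt_last _).ne'

private theorem st_gen (t s : R) (i : Fin m) :
    (1 + s • vecMulVec (bcol (m + 1) t i.castSucc) (brow (m + 1) i.castSucc)) =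
      st (1 + s • vecMulVec (bcol m t i) (brow m i)) := by
  ext x y
  rw [← st_one (R := R) (m := m)]
  simp only [Matrix.add_apply, Matrix.smul_apply, vecMulVec_apply]
  refine Fin.lastCases ?_ (fun x => ?_) x
  · refine Fin.lastCases ?_ (fun y => ?_) y
    · simp [st_ll, bcol_l]
    · simp [st_lc, bcol_l]
  · refine Fin.lastCases ?_ (fun y => ?_) y
    · simp [st_cl, brow_l]
    · simp [st_cc, bcol_c, brow_c, vecMulVec_apply]

end st

private theorem bu_add (m : ℕ) (a : BraidGroup m) : bu (m + 1) (addStrand m a) = st (bu m a) := by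
  have hg : ∀ i : Fin m, addStrand m (sigma i) = sigma i.castSucc := by
    intro i
    unfold addStrand
    rw [braidLift_sigma]
  induction a using braid_induction with
  | h1 => rw [map_one, bu_one, bu_one, st_one]
  | hs i =>
    rw [hg, bu_sigma, bu_sigma, bmat, bmat]
    have h := st_gen (T 1 : ℤ[T;T⁻¹]) 1 i
    rw [one_smul, one_smul] at h
    exact h
  | hs' i =>
    rw [map_inv, hg, bu_sigma_inv, bu_sigma_inv, bmatInv, bmatInv]
    exact st_gen (T 1 : ℤ[T;T⁻¹]) (T (-1)) i
  | hm γ δ h1 h2 => rw [map_mul, bu_mul, bu_mul, h1, h2, st_mul]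

/-- The determinant for the stabilisation. -/
private theorem det_stab {R : Type*} [CommRing R] (m : ℕ) (A : Matrix (Fin (m + 1)) (Fin (m + 1)) R)
    (t s : R) :
    ((1 - st A * (1 + s • vecMulVec (bcol (m + 1) t (Fin.last m))
      (brow (m + 1) (Fin.last m)))).submatrix Fin.succ Fin.succ).det =
      s * ((1 - A).submatrix Fin.succ Fin.succ).det := by
  set c : Fin (m + 2) → R := bcol (m + 1) t (Fin.last m) with hc
  set r : Fin (m + 2) → R := brow (m + 1) (Fin.last m) with hr
  set V : Matrix (Fin (m + 2)) (Fin (m + 2)) R :=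
    1 + Matrix.single (Fin.last (m + 1)) (Fin.last m).castSucc 1 with hV
  set M : Matrix (Fin (m + 2)) (Fin (m + 2)) R := 1 - st A * (1 + s • vecMulVec c r) with hM
  have n1 : (Fin.last m).castSucc ≠ Fin.last (m + 1) := (Fin.castSucc_lt_last _).ne
  have hcl : c (Fin.last (m + 1)) = 1 := by
    rw [hc, bcol, if_neg n1.symm, Fin.succ_last, if_pos rfl]
  have hrl : r (Fin.last (m + 1)) = -1 := by
    rw [hr, brow, if_neg n1.symm, Fin.succ_last, if_pos rfl]
  have hrc : r (Fin.last m).castSucc = 1 := by
    rw [hr, brow, if_pos rfl]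
  have hr0 : ∀ y, y ≠ (Fin.last m).castSucc → y ≠ Fin.last (m + 1) → r y = 0 := by
    intro y h1 h2
    rw [hr, brow, if_neg h1, Fin.succ_last, if_neg h2]
  -- the product `M V`
  have hMV : ∀ x y, (M * V) x y = (1 - st A) x y +
      (if y = Fin.last (m + 1) then s * (st A *ᵥ c) x else 0) := by
    intro x y
    have e0 : ∀ x y, M x y = (1 - st A) x y - s * ((st A *ᵥ c) x * r y) := by
      intro x y
      rw [hM, mul_add, mul_one, mul_smul_comm, Matrix.mul_vecMulVec]
      simp only [Matrix.sub_apply, Matrix.add_apply, Matrix.smul_apply, vecMulVec_apply,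
        smul_eq_mul]
      ring
    have e1 : (M * V) x y = M x y +
        (if y = (Fin.last m).castSucc then M x (Fin.last (m + 1)) else 0) := by
      rw [hV, mul_add, mul_one, Matrix.add_apply]
      congr 1
      by_cases h : y = (Fin.last m).castSucc
      · subst h
        rw [if_pos rfl, Matrix.mul_single_apply_same, mul_one]
      · rw [if_neg h, Matrix.mul_single_apply_of_ne _ _ _ _ _ h]
    have e2 : (1 - st A) x (Fin.last (m + 1)) = 0 := by
      refine Fin.lastCases ?_ (fun x => ?_) x
      · rw [Matrix.sub_apply, st_ll, Matrix.one_apply_eq, sub_self]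
      · rw [Matrix.sub_apply, st_cl, Matrix.one_apply_ne (Fin.castSucc_lt_last x).ne, sub_self]
    rw [e1]
    by_cases h : y = (Fin.last m).castSucc
    · subst h
      rw [if_pos rfl, if_neg n1, e0, e0, hrc, hrl, e2]
      ring
    · rw [if_neg h, e0, add_zero]
      by_cases h2 : y = Fin.last (m + 1)
      · subst h2
        rw [if_pos rfl, hrl]
        ring
      · rw [if_neg h2, hr0 y h h2]
        ring
  -- the minor of the product
  have hsub : (M * V).submatrix Fin.succ Fin.succ =
      M.submatrix Fin.succ Fin.succ * V.submatrix Fin.succ Fin.succ := by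
    ext x y
    rw [Matrix.submatrix_apply, Matrix.mul_apply, Fin.sum_univ_succ, Matrix.mul_apply]
    have h1 : V 0 y.succ = 0 := by
      rw [hV, Matrix.add_apply, Matrix.one_apply_ne (Fin.succ_ne_zero y).symm, zero_add,
        Matrix.single_apply_of_row_ne]
      intro h2
      exact absurd (congrArg Fin.val h2) (by simp)
    rw [h1, mul_zero, zero_add]
    rfl
  have hdV : (V.submatrix Fin.succ Fin.succ).det = 1 := by
    rw [Matrix.det_of_isLowerTriangular]
    · apply Finset.prod_eq_one
      intro i _
      rw [Matrix.submatrix_apply, hV, Matrix.add_apply, Matrix.one_apply_eq,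
        Matrix.single_apply_of_ne, add_zero]
      rintro ⟨h1, h2⟩
      exact n1 (h2.trans h1.symm)
    · intro i j hij
      have hij' : i < j := hij
      rw [Matrix.submatrix_apply, hV, Matrix.add_apply, Matrix.one_apply_ne, zero_add,
        Matrix.single_apply_of_ne]
      · rintro ⟨h1, h2⟩
        have h3 := Fin.le_last j.succ
        have h4 : i.succ < j.succ := by simpa using hij'
        rw [← h1] at h4
        exact absurd h3 (not_le.mpr h4)
      · intro h
        exact hij'.ne (Fin.succ_injective _ h)
  have h1 : (M.submatrix Fin.succ Fin.succ).det = ((M * V).submatrix Fin.succ Fin.succ).det := by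
    rw [hsub, Matrix.det_mul, hdV, mul_one]
  rw [h1, Matrix.det_succ_row _ (Fin.last m), Fin.sum_univ_castSucc]
  have h2 : ∀ y : Fin m, (M * V).submatrix Fin.succ Fin.succ (Fin.last m) y.castSucc = 0 := by
    intro y
    rw [Matrix.submatrix_apply, hMV, Fin.succ_last, Fin.succ_castSucc,
      if_neg (Fin.castSucc_lt_last _).ne, Matrix.sub_apply, st_lc,
      Matrix.one_apply_ne (Fin.castSucc_lt_last _).ne']
    ring
  have h3 : (M * V).submatrix Fin.succ Fin.succ (Fin.last m) (Fin.last m) = s := by
    rw [Matrix.submatrix_apply, hMV, Fin.succ_last, if_pos rfl, Matrix.sub_apply, st_ll,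
      Matrix.one_apply_eq, Matrix.mulVec, dotProduct, Fin.sum_univ_castSucc, st_ll, hcl]
    simp [st_lc]
  rw [Finset.sum_eq_zero (fun y _ => by rw [h2, mul_zero, zero_mul]), zero_add, h3]
  have h4 : ((-1 : R) ^ ((Fin.last m : Fin (m + 1)) + (Fin.last m : Fin (m + 1)) : ℕ)) = 1 := by
    rw [← two_mul, pow_mul]
    simp
  rw [h4, one_mul, Fin.succAbove_last]
  congr 2
  ext x y
  rw [Matrix.submatrix_apply, Matrix.submatrix_apply, Matrix.submatrix_apply, hMV,
    Fin.succ_castSucc, Fin.succ_castSucc, if_neg (Fin.castSucc_lt_last _).ne, add_zero,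
    Matrix.sub_apply, Matrix.sub_apply, st_cc, Matrix.one_apply, Matrix.one_apply]
  by_cases h : x.succ = y.succ
  · rw [if_pos h, if_pos (by rw [h])]
  · rw [if_neg h, if_neg (fun h1 => h (Fin.castSucc_injective _ h1))]

theorem alexander_stabPos (m : ℕ) (a : BraidGroup m) :
    alexander (addStrand m a * sigma (Fin.last m)) = alexander a := by
  have h := det_stab m (bu m a) (T 1) 1
  rw [one_smul, one_mul, ← bu_add] at h
  have h1 : bu (m + 1) (addStrand m a * sigma (Fin.last m)) = bu (m + 1) (addStrand m a) *
      (1 + vecMulVec (bcol (m + 1) (T 1 : ℤ[T;T⁻¹]) (Fin.last m)) (brow (m + 1) (Fin.last m))) := by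
    rw [bu_mul, bu_sigma, bmat]
  rw [← h1] at h
  exact h

theorem alexander_stabNeg (m : ℕ) (a : BraidGroup m) :
    alexander (addStrand m a * (sigma (Fin.last m))⁻¹) = T (-1) * alexander a := by
  have h := det_stab m (bu m a) (T 1) (T (-1))
  rw [← bu_add] at h
  have h1 : bu (m + 1) (addStrand m a * (sigma (Fin.last m))⁻¹) = bu (m + 1) (addStrand m a) *
      (1 + (T (-1) : ℤ[T;T⁻¹]) • vecMulVec (bcol (m + 1) (T 1 : ℤ[T;T⁻¹]) (Fin.last m))
        (brow (m + 1) (Fin.last m))) := by
    rw [bu_mul, bu_sigma_inv, bmatInv]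
  rw [← h1] at h
  exact h

end Pool.Agent.Helper62.SAT
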