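import Mathlib
import Pool.Agent.Helper62.SAT.Markov1
import Pool.Agent.Helper62.SAT.Markov2
import Pool.Agent.Helper62.OB.Poly

/-!
# The Alexander polynomial is an invariant
-/

set_option autoImplicit false

namespace Pool.Agent.Helper62.SAT

open Pool.Agent.Helper62.OB Matrix Polynomial LaurentPolynomial

theorem UpToUnit.refl (f : ℤ[T;T⁻¹]) : UpToUnit f f := ⟨0, Or.inl (by rw [T_zero, one_mul])⟩

theorem UpToUnit.symm {f g : ℤ[T;T⁻¹]} (h : UpToUnit f g) : UpToUnit g f := by
  obtain ⟨k, h1 | h1⟩ := h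
  · refine ⟨-k, Or.inl ?_⟩
    rw [h1, ← mul_assoc, ← T_add, neg_add_cancel, T_zero, one_mul]
  · refine ⟨-k, Or.inr ?_⟩
    rw [h1, mul_neg, neg_neg, ← mul_assoc, ← T_add, neg_add_cancel, T_zero, one_mul]

theorem UpToUnit.trans {f g h : ℤ[T;T⁻¹]} (h1 : UpToUnit f g) (h2 : UpToUnit g h) :
    UpToUnit f h := by
  obtain ⟨k, h1 | h1⟩ := h1 <;> obtain ⟨l, h2 | h2⟩ := h2
  · exact ⟨k + l, Or.inl (by rw [h1, h2, T_add, mul_assoc])⟩
  · exact ⟨k + l, Or.inr (by rw [h1, h2, T_add, mul_neg, mul_assoc])⟩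
  · exact ⟨k + l, Or.inr (by rw [h1, h2, T_add, mul_assoc])⟩
  · exact ⟨k + l, Or.inl (by rw [h1, h2, T_add, mul_neg, neg_neg, mul_assoc])⟩

/-- The Alexander polynomial of a closed braid is up to a unit an invariant of the closure. -/
theorem alexander_markov (x y : Σ m : ℕ, BraidGroup m) (h : SameClosure x y) :
    UpToUnit (alexander x.2) (alexander y.2) := by
  induction h with
  | rel x y h =>
    cases h with
    | conj m a b =>
      rw [alexander_conj]
      exact UpToUnit.refl _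
    | stabPos m a =>
      rw [alexander_stabPos]
      exact UpToUnit.refl _
    | stabNeg m a =>
      rw [alexander_stabNeg]
      exact UpToUnit.symm ⟨-1, Or.inl rfl⟩
  | refl x => exact UpToUnit.refl _
  | symm x y _ ih => exact UpToUnit.symm ih
  | trans x y z _ _ ih1 ih2 => exact UpToUnit.trans ih1 ih2

theorem cyc_markov (x y : Σ m : ℕ, BraidGroup m) (h : SameClosure x y)
    (hx : IsCyclotomicProduct (alexander x.2)) : IsCyclotomicProduct (alexander y.2) := by
  obtain ⟨M, hM, h1⟩ := hx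
  exact ⟨M, hM, UpToUnit.trans (UpToUnit.symm (alexander_markov x y h)) h1⟩

end Pool.Agent.Helper62.SAT
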