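import Mathlib
import Pool.Agent.Helper62.SAT.Blk3
import Pool.Agent.Helper62.OB.St.Orbit

/-!
# The permutation of a cable

* `psi0_bu`: the Burau matrix at `T = 1` (`psi 0` sends every `T n` to `1`) is the permutation matrix:
  `braid_induction` (`bu_sigma`, `bu_sigma_inv`, `OB.orbit_perm_sigma`; both sides are multiplicative).
* `perm_blk`: apply `psi 0` to `bu_blk` (the second summand becomes `0`, and `mono m 1 1 i` is the
  permutation matrix of the swap).
* `perm_cabled`: induction on the word, `perm_blk` and its inverse.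
-/

set_option autoImplicit false

namespace Pool.Agent.Helper62.SAT

open Pool.Agent.Helper62.OB Matrix Polynomial LaurentPolynomial
open scoped Kronecker

private theorem cs_ne {N : ℕ} (i : Fin N) : i.castSucc ≠ i.succ := by
  intro h1
  have := congrArg Fin.val h1
  simp at this

private theorem psi0_T (n : ℤ) : psi 0 (T n) = 1 := by
  rw [psi_T, Nat.cast_zero, zero_mul, T_zero]

private theorem psi0_aux (N : ℕ) (i : Fin N) (x y : Fin (N + 1)) :
    (if x = y then (1 : ℤ[T;T⁻¹]) else 0) +
      (if x = i.castSucc then -1 else if x = i.succ then 1 else 0) *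
        (if y = i.castSucc then 1 else if y = i.succ then -1 else 0) =
      if x = Equiv.swap i.castSucc i.succ y then 1 else 0 := by
  have n1 := cs_ne i
  by_cases hy : y = i.castSucc
  · rw [hy, Equiv.swap_apply_left, if_pos rfl, mul_one]
    by_cases hx : x = i.castSucc
    · rw [hx, if_pos rfl, if_pos rfl, if_neg n1]
      ring
    · rw [if_neg hx, if_neg hx, zero_add]
  · rw [if_neg hy]
    by_cases hy2 : y = i.succ
    · rw [hy2, Equiv.swap_apply_right, if_pos rfl]
      by_cases hx : x = i.castSucc
      · rw [hx, if_pos rfl, if_neg n1, if_pos rfl]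
        ring
      · rw [if_neg hx, if_neg hx]
        by_cases hx2 : x = i.succ
        · rw [if_pos hx2]
          ring
        · rw [if_neg hx2]
          ring
    · rw [if_neg hy2, mul_zero, add_zero, Equiv.swap_apply_of_ne_of_ne hy hy2]

private theorem psi0_col (N : ℕ) (i : Fin N) (x y : Fin (N + 1)) :
    psi 0 (vecMulVec (bcol N (T 1 : ℤ[T;T⁻¹]) i) (brow N i) x y) =
      (if x = i.castSucc then -1 else if x = i.succ then 1 else 0) *
        (if y = i.castSucc then 1 else if y = i.succ then -1 else 0) := by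
  rw [vecMulVec_apply, map_mul, bcol, brow]
  congr 1
  · split_ifs
    · rw [map_neg, psi0_T]
    · rw [map_one]
    · rw [map_zero]
  · split_ifs
    · rw [map_one]
    · rw [map_neg, map_one]
    · rw [map_zero]

private theorem psi0_one (N : ℕ) (x y : Fin (N + 1)) :
    psi 0 ((1 : Matrix (Fin (N + 1)) (Fin (N + 1)) ℤ[T;T⁻¹]) x y) = if x = y then 1 else 0 := by
  rw [Matrix.one_apply]
  split_ifs
  · rw [map_one]
  · rw [map_zero]

theorem psi0_bu (N : ℕ) (γ : BraidGroup N) (x y : Fin (N + 1)) :
    psi 0 (bu N γ x y) = if x = permHom N γ y then 1 else 0 := by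
  induction γ using braid_induction generalizing x y with
  | h1 => rw [bu_one, psi0_one, map_one, Equiv.Perm.one_apply]
  | hs i =>
    rw [bu_sigma, bmat, Matrix.add_apply, map_add, psi0_one, psi0_col, psi0_aux, orbit_perm_sigma]
  | hs' i =>
    rw [bu_sigma_inv, bmatInv, Matrix.add_apply, map_add, psi0_one, Matrix.smul_apply,
      smul_eq_mul, map_mul, psi0_T, one_mul, psi0_col, psi0_aux, map_inv, orbit_perm_sigma,
      Equiv.swap_inv]
  | hm γ δ h1 h2 =>
    rw [bu_mul, Matrix.mul_apply, map_sum]
    have h3 : ∀ z, psi 0 (bu N γ x z * bu N δ z y) =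
        if z = permHom N δ y then (if x = permHom N γ (permHom N δ y) then 1 else 0) else 0 := by
      intro z
      rw [map_mul, h1, h2]
      by_cases hz : z = permHom N δ y
      · rw [if_pos hz, if_pos hz, mul_one, hz]
      · rw [if_neg hz, if_neg hz, mul_zero]
    rw [Finset.sum_congr rfl (fun z _ => h3 z), Finset.sum_ite_eq', if_pos (Finset.mem_univ _),
      map_mul, Equiv.Perm.mul_apply]

theorem perm_blk (m k N : ℕ) (hN : N + 1 = (k + 1) * (m + 1)) (i : Fin m) (j : Fin (m + 1))
    (s : Fin (k + 1)) : permHom N (blk (k + 1) N i.val) (ee m k N hN (j, s)) =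
      ee m k N hN (Equiv.swap i.castSucc i.succ j, s) := by
  have n1 := cs_ne i
  have h := psi0_bu N (blk (k + 1) N i.val) (ee m k N hN (Equiv.swap i.castSucc i.succ j, s))
    (ee m k N hN (j, s))
  have h2 := congrFun (congrFun (bu_blk m k N hN i) (Equiv.swap i.castSucc i.succ j, s)) (j, s)
  rw [Matrix.submatrix_apply] at h2
  have h3 : psi 0 (mono m (T ((k + 1 : ℕ) : ℤ)) 1 i (Equiv.swap i.castSucc i.succ j) j) = 1 := by
    unfold mono
    by_cases hj : j = i.castSucc
    · rw [hj, Equiv.swap_apply_left, if_neg n1.symm, if_pos rfl, if_pos rfl, map_one]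
    · by_cases hj2 : j = i.succ
      · rw [hj2, Equiv.swap_apply_right, if_pos rfl, if_pos rfl, psi0_T]
      · rw [Equiv.swap_apply_of_ne_of_ne hj hj2, if_neg hj, if_neg hj2, if_pos rfl, map_one]
  rw [h2, Matrix.add_apply, Matrix.kroneckerMap_apply, Matrix.kroneckerMap_apply, map_add, map_mul,
    h3, Matrix.one_apply_eq, map_one, one_mul, Matrix.of_apply, map_mul, map_mul, map_sub, map_one,
    psi0_T, sub_self, zero_mul, mul_zero, add_zero] at h
  by_contra hne
  rw [if_neg (fun h4 => hne h4.symm)] at h
  exact one_ne_zero h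

theorem perm_cabled (m k N : ℕ) (hN : N + 1 = (k + 1) * (m + 1)) (L : List (Fin m × Bool))
    (j : Fin (m + 1)) (s : Fin (k + 1)) :
    permHom N (cabled (k + 1) N L) (ee m k N hN (j, s)) =
      ee m k N hN (permHom m (word L) j, s) := by
  induction L with
  | nil =>
    have h1 : cabled (k + 1) N ([] : List (Fin m × Bool)) = 1 := rfl
    have h2 : word ([] : List (Fin m × Bool)) = 1 := rfl
    rw [h1, h2, map_one, map_one, Equiv.Perm.one_apply, Equiv.Perm.one_apply]
  | cons p L ih =>
    have h1 : cabled (k + 1) N (p :: L) =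
        (if p.2 then blk (k + 1) N p.1 else (blk (k + 1) N p.1)⁻¹) * cabled (k + 1) N L := by
      simp [cabled]
    have h2 : word (p :: L) = (if p.2 then sigma p.1 else (sigma p.1)⁻¹) * word L := by
      simp [word]
    rw [h1, h2, map_mul, map_mul, Equiv.Perm.mul_apply, Equiv.Perm.mul_apply, ih]
    by_cases hp : p.2 = true
    · rw [if_pos hp, if_pos hp, perm_blk, orbit_perm_sigma]
    · rw [if_neg hp, if_neg hp, map_inv, map_inv, orbit_perm_sigma, Equiv.swap_inv,
        Equiv.Perm.inv_eq_iff_eq, perm_blk, Equiv.swap_apply_self]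

end Pool.Agent.Helper62.SAT
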