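import Mathlib
import Pool.Agent.Helper62.SAT.Perm1

/-!
# The permutation of a satellite

* `perm_emb`: `braid_induction` on `p` (`emb_sigma`, `ee_val`, `OB.orbit_perm_sigma`).
* `knot_of_sat`: let `S = cabled (k + 1) N L * emb k 0 N h p`, `π = permHom N S`.  By `perm_cabled`,
  `perm_emb`: `π (ee (j, s)) = ee (permHom (word L) j, s')` with `s' = permHom p s` for `j = 0` and
  `s' = s` otherwise.  So `x`, `π x` have first coordinates in one orbit of `permHom (word L)` and second
  coordinates in one orbit of `permHom p`; by induction the same holds for `x`, `(π ^ z) x`, `z : ℤ`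
  (`Equiv.Perm.SameCycle` is an equivalence relation).
-/

set_option autoImplicit false

namespace Pool.Agent.Helper62.SAT

open Pool.Agent.Helper62.OB

/-- The swap of two neighbouring places of the first block. -/
private theorem swap_ee (m k N : ℕ) (hN : N + 1 = (k + 1) * (m + 1)) (h : 0 + k ≤ N) (i : Fin k)
    (j : Fin (m + 1)) (s : Fin (k + 1)) :
    Equiv.swap (⟨0 + i.val, by omega⟩ : Fin N).castSucc (⟨0 + i.val, by omega⟩ : Fin N).succ
      (ee m k N hN (j, s)) =
      ee m k N hN (j, if j = 0 then Equiv.swap i.castSucc i.succ s else s) := by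
  have hv : ∀ a b, (ee m k N hN (a, b)).val = b.val + (k + 1) * a.val :=
    fun a b => ee_val m k N hN (a, b)
  have hi := i.isLt
  have hs := s.isLt
  by_cases hj : j = 0
  · subst hj
    rw [if_pos rfl]
    have e1 : (⟨0 + i.val, by omega⟩ : Fin N).castSucc = ee m k N hN (0, i.castSucc) := by
      apply Fin.ext
      rw [hv]
      simp
    have e2 : (⟨0 + i.val, by omega⟩ : Fin N).succ = ee m k N hN (0, i.succ) := by
      apply Fin.ext
      rw [hv]
      simp
    rw [e1, e2]
    rcases eq_or_ne s i.castSucc with h1 | h1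
    · rw [h1, Equiv.swap_apply_left, Equiv.swap_apply_left]
    · rcases eq_or_ne s i.succ with h2 | h2
      · rw [h2, Equiv.swap_apply_right, Equiv.swap_apply_right]
      · rw [Equiv.swap_apply_of_ne_of_ne h1 h2, Equiv.swap_apply_of_ne_of_ne]
        · intro h3
          exact h1 (Prod.mk.inj ((ee m k N hN).injective h3)).2
        · intro h3
          exact h2 (Prod.mk.inj ((ee m k N hN).injective h3)).2
  · rw [if_neg hj]
    have hj' : 1 ≤ j.val := by
      rcases Nat.eq_zero_or_pos j.val with h0 | h0
      · exact absurd (Fin.ext h0) hj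
      · exact h0
    have h1 : k + 1 ≤ (k + 1) * j.val := Nat.le_mul_of_pos_right _ hj'
    apply Equiv.swap_apply_of_ne_of_ne
    · intro h3
      have h4 := congrArg Fin.val h3
      rw [hv, Fin.val_castSucc] at h4
      simp only at h4
      omega
    · intro h3
      have h4 := congrArg Fin.val h3
      rw [hv, Fin.val_succ] at h4
      simp only at h4
      omega

theorem perm_emb (m k N : ℕ) (hN : N + 1 = (k + 1) * (m + 1)) (h : 0 + k ≤ N) (p : BraidGroup k)
    (j : Fin (m + 1)) (s : Fin (k + 1)) :
    permHom N (emb k 0 N h p) (ee m k N hN (j, s)) =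
      ee m k N hN (j, if j = 0 then permHom k p s else s) := by
  induction p using braid_induction generalizing s with
  | h1 => rw [map_one, map_one, map_one, Equiv.Perm.one_apply, Equiv.Perm.one_apply, ite_self]
  | hs i =>
    rw [emb_sigma, orbit_perm_sigma, orbit_perm_sigma]
    exact swap_ee m k N hN h i j s
  | hs' i =>
    rw [map_inv, map_inv, map_inv, emb_sigma, orbit_perm_sigma, orbit_perm_sigma, Equiv.swap_inv,
      Equiv.swap_inv]
    exact swap_ee m k N hN h i j s
  | hm γ δ h1 h2 =>
    rw [map_mul, map_mul, map_mul, Equiv.Perm.mul_apply, Equiv.Perm.mul_apply, h2, h1]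
    by_cases hj : j = 0
    · rw [if_pos hj, if_pos hj, if_pos hj]
    · rw [if_neg hj, if_neg hj, if_neg hj]

/-- A map that sends a step of one permutation into an orbit of another sends orbits into orbits. -/
private theorem sameCycle_map {α β : Type*} (σ : Equiv.Perm α) (τ : Equiv.Perm β) (f : α → β)
    (h : ∀ x, τ.SameCycle (f x) (f (σ x))) (x y : α) (hxy : σ.SameCycle x y) :
    τ.SameCycle (f x) (f y) := by
  obtain ⟨z, rfl⟩ := hxy
  induction z using Int.induction_on with
  | zero => rw [zpow_zero, Equiv.Perm.one_apply]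
  | succ i ih =>
    rw [add_comm, zpow_add, zpow_one, Equiv.Perm.mul_apply]
    exact ih.trans (h _)
  | pred i ih =>
    have h1 := h ((σ ^ (-(i : ℤ) - 1)) x)
    have h2 : σ ((σ ^ (-(i : ℤ) - 1)) x) = (σ ^ (-(i : ℤ))) x := by
      rw [← Equiv.Perm.mul_apply, ← zpow_one_add]
      congr 2
      ring
    rw [h2] at h1
    exact ih.trans h1.symm

theorem knot_of_sat (m k N : ℕ) (hN : N + 1 = (k + 1) * (m + 1)) (h : 0 + k ≤ N)
    (L : List (Fin m × Bool)) (p : BraidGroup k)
    (hS : IsKnot (cabled (k + 1) N L * emb k 0 N h p)) : IsKnot (word L) ∧ IsKnot p := by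
  have step : ∀ x : Fin (m + 1) × Fin (k + 1),
      permHom N (cabled (k + 1) N L * emb k 0 N h p) (ee m k N hN x) =
        ee m k N hN (permHom m (word L) x.1, if x.1 = 0 then permHom k p x.2 else x.2) := by
    rintro ⟨j, s⟩
    rw [map_mul, Equiv.Perm.mul_apply, perm_emb, perm_cabled]
  constructor
  · intro i j
    have h1 := sameCycle_map (permHom N (cabled (k + 1) N L * emb k 0 N h p))
      (permHom m (word L)) (fun x => ((ee m k N hN).symm x).1) (by
        intro x
        obtain ⟨y, rfl⟩ := (ee m k N hN).surjective x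
        simp only [step, Equiv.symm_apply_apply]
        exact Equiv.Perm.sameCycle_apply_right.2 (Equiv.Perm.SameCycle.refl _ _))
      (ee m k N hN (i, 0)) (ee m k N hN (j, 0)) (hS _ _)
    simpa only [Equiv.symm_apply_apply] using h1
  · intro i j
    have h1 := sameCycle_map (permHom N (cabled (k + 1) N L * emb k 0 N h p))
      (permHom k p) (fun x => ((ee m k N hN).symm x).2) (by
        intro x
        obtain ⟨y, rfl⟩ := (ee m k N hN).surjective x
        simp only [step, Equiv.symm_apply_apply]
        split_ifs
        · exact Equiv.Perm.sameCycle_apply_right.2 (Equiv.Perm.SameCycle.refl _ _)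
        · exact Equiv.Perm.SameCycle.refl _ _)
      (ee m k N hN (0, i)) (ee m k N hN (0, j)) (hS _ _)
    simpa only [Equiv.symm_apply_apply] using h1

end Pool.Agent.Helper62.SAT
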