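import Mathlib
import Pool.Agent.Helper27.OC.Main
import Pool.Agent.Helper62.SAT.Formula
import Pool.Agent.Helper62.SAT.Geo
import Pool.Agent.Helper62.SAT.Perm2
import Pool.Agent.Helper62.SAT.Factor2
import Pool.Agent.Helper62.SAT.Markov

/-!
# The Li-Ni statement for satellites with 1-bridge patterns
-/

set_option autoImplicit false

namespace Pool.Agent.Helper62.SAT

open Pool.Agent.Helper62.OB Polynomial LaurentPolynomial

theorem perm_full (k : ℕ) : permHom k (rn k 0 k ^ (k + 1)) = 1 := by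
  ext x
  rw [map_pow, orbit_pow k (k + 1) x x (by rw [Nat.add_mod_right, Nat.mod_eq_of_lt x.isLt])]
  rfl

/-- the pattern with the full twists -/
theorem full_pattern (k b t : ℕ) (t' z : ℤ) (ht : (t : ℤ) = t' + (k + 1) * z) :
    (rn k 0 k ^ (k + 1)) ^ z * (rn k 0 b * rn k 0 k ^ t') = oneBridge k b t := by
  have h1 : (rn k 0 k ^ (k + 1)) ^ z * rn k 0 b = rn k 0 b * (rn k 0 k ^ (k + 1)) ^ z :=
    (Commute.zpow_left (central k (rn k 0 b)) z : _)
  rw [← mul_assoc, h1, mul_assoc, oneBridge, ← zpow_natCast, ← zpow_natCast, ← zpow_mul, ← zpow_add,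
    ht]
  congr 2
  push_cast
  ring

theorem sat_main (m k N b t : ℕ) (t' : ℤ) (hN : N + 1 = (k + 1) * (m + 1)) (hb : b ≤ k)
    (L : List (Fin m × Bool)) (ht : (t : ℤ) = t' + (k + 1) * writhe L) (hbt : b < t)
    (hK : IsKnot (sat (k + 1) N L b t'))
    (hΔ : IsCyclotomicProduct (alexander (sat (k + 1) N L b t'))) :
    IsCyclotomicProduct (alexander (word L)) ∧
    IsCyclotomicProduct (alexander (oneBridge k b t)) ∧
    (((b + 1) ∣ (k + 1) ∧ (b + 1) ∣ t) ∨ ((k + 1 - b) ∣ (k + 1) ∧ (k + 1 - b) ∣ (t + 1))) ∧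
    IterCable ⟨m, word L⟩ ⟨N, sat (k + 1) N L b t'⟩ := by
  have h : 0 + k ≤ N := by
    have : (k + 1) * 1 ≤ (k + 1) * (m + 1) := Nat.mul_le_mul_left _ (by omega)
    omega
  have e2 : sat (k + 1) N L b t' = cabled (k + 1) N L *
      emb k 0 N h (rn k 0 b * rn k 0 k ^ t') := by
    rw [sat, Nat.add_sub_cancel, rn_N_eq_emb k N h b hb t']
  have hK' := hK
  rw [e2] at hK' hΔ
  obtain ⟨hL, hp⟩ := knot_of_sat m k N hN h L _ hK'
  rw [alexander_sat m k N hN h L hL, full_pattern k b t t' (writhe L) ht] at hΔ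
  obtain ⟨h1, h2⟩ := cyc_of_psi_mul (k + 1) (Nat.succ_pos k) _ _ hΔ
  have hK2 : IsKnot (oneBridge k b t) := by
    have e3 : permHom k (oneBridge k b t) = permHom k (rn k 0 b * rn k 0 k ^ t') := by
      rw [← full_pattern k b t t' (writhe L) ht, map_mul, map_zpow, perm_full, one_zpow, one_mul]
    intro i j
    rw [e3]
    exact hp i j
  have horb := orb_of_knot k b t hb hK2
  obtain ⟨-, h3⟩ := Pool.Agent.Helper27.OC.main k b t hb (by omega) (Or.inr (Or.inl hbt)) hK2 h2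
  have h4 : ((b + 1) ∣ (k + 1) ∧ (b + 1) ∣ t) ∨
      ((k + 1 - b) ∣ (k + 1) ∧ (k + 1 - b) ∣ (t + 1)) := by
    rcases h3 with h3 | h3 | h3
    · exact Or.inl h3
    · exact Or.inr h3
    · have hb0 : b = 0 := by omega
      subst hb0
      exact Or.inl ⟨one_dvd _, one_dvd _⟩
  refine ⟨h1, h2, h4, ?_⟩
  rcases h4 with ⟨⟨μ, hμ⟩, ⟨t₀, ht₀⟩⟩ | ⟨⟨μ, hμ⟩, ⟨t₀, ht₀⟩⟩
  · have hμ1 : 1 ≤ μ := by
      rcases Nat.eq_zero_or_pos μ with h1 | h1
      · rw [h1] at hμ
        omega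
      · exact h1
    have hcop := coprimeA horb hμ hμ1 ht₀
    refine geo_A m k N b μ hN hb hμ1 hμ L (t₀ - μ * writhe L) t' ?_ ?_
    · have h5 : IsCoprime (t₀ : ℤ) (μ : ℤ) := Nat.isCoprime_iff_coprime.2 hcop
      have h6 : (t₀ : ℤ) - μ * writhe L = t₀ + μ * (-writhe L) := by ring
      rw [h6]
      exact IsCoprime.add_mul_left_left h5 _
    · have h7 : (t : ℤ) = (b + 1 : ℕ) * t₀ := by exact_mod_cast ht₀
      have h8 : ((k : ℤ) + 1) = (b + 1 : ℕ) * μ := by exact_mod_cast hμ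
      rw [h7, h8] at ht
      linear_combination -ht
  · have hμ1 : 1 ≤ μ := by
      rcases Nat.eq_zero_or_pos μ with h1 | h1
      · rw [h1] at hμ
        omega
      · exact h1
    have hcop := coprimeB horb (by omega) rfl hμ ht₀
    refine geo_B m k N b μ hN hb hμ1 hμ L (t₀ - μ * writhe L) t' ?_ ?_
    · have h5 : IsCoprime (t₀ : ℤ) (μ : ℤ) := Nat.isCoprime_iff_coprime.2 hcop
      have h6 : (t₀ : ℤ) - μ * writhe L = t₀ + μ * (-writhe L) := by ring
      rw [h6]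
      exact IsCoprime.add_mul_left_left h5 _
    · have h7 : (t : ℤ) + 1 = (k + 1 - b : ℕ) * t₀ := by exact_mod_cast ht₀
      have h8 : ((k : ℤ) + 1) = (k + 1 - b : ℕ) * μ := by exact_mod_cast hμ
      rw [h8] at ht
      linear_combination h7 - ht

end Pool.Agent.Helper62.SAT
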