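import Mathlib
import Pool.Agent.Helper62.SAT.Full
import Pool.Agent.Helper62.OB.St.BraidAlg
import Pool.Agent.Helper81.ThreeBraidTwistedTorus

/-!
# The patterns on three strands

The theorem on the closed 3-braids `(σ_0 σ_1)^q σ_0^(2 s)` for the braid groups of `OB/Defs`.
-/

set_option autoImplicit false

namespace Pool.Agent.Helper62.SAT

open Pool.Agent.Helper62.OB Matrix Polynomial LaurentPolynomial

private theorem rb2_0 : (rb 2 (sg 2 0))ᵀ = !![1, -1; 0, 1] *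
    (!![-T 1, 1; 0, 1] : Matrix (Fin 2) (Fin 2) ℤ[T;T⁻¹]) * !![1, 1; 0, 1] := by
  rw [rb, red]
  have h : sg 2 0 = sigma (0 : Fin 2) := rfl
  rw [h, bu_sigma]
  ext1 i j
  fin_cases i <;> fin_cases j <;>
    simp [Matrix.mul_apply, Fin.sum_univ_succ, F0, G0, bmat, vecMulVec_apply, bcol, brow,
      Matrix.one_apply]

private theorem rb2_1 : (rb 2 (sg 2 1))ᵀ = !![1, -1; 0, 1] *
    (!![1, 0; T 1, -T 1] : Matrix (Fin 2) (Fin 2) ℤ[T;T⁻¹]) * !![1, 1; 0, 1] := by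
  rw [rb, red]
  have h : sg 2 1 = sigma (1 : Fin 2) := rfl
  rw [h, bu_sigma]
  ext1 i j
  fin_cases i <;> fin_cases j <;>
    simp [Matrix.mul_apply, Fin.sum_univ_succ, F0, G0, bmat, vecMulVec_apply, bcol, brow,
      Matrix.one_apply]

private theorem conjM_pow {R : Type*} [CommRing R] {n : ℕ} (P P' X : Matrix (Fin n) (Fin n) R)
    (h : P' * P = 1) (h' : P * P' = 1) (a : ℕ) : (P * X * P') ^ a = P * X ^ a * P' := by
  induction a with
  | zero => rw [pow_zero, pow_zero, Matrix.mul_one, h']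
  | succ a ih =>
    rw [pow_succ, ih, pow_succ]
    calc P * X ^ a * P' * (P * X * P') = P * X ^ a * (P' * P) * X * P' := by
          simp only [Matrix.mul_assoc]
      _ = P * (X ^ a * X) * P' := by rw [h, Matrix.mul_one]; simp only [Matrix.mul_assoc]

/-- the homomorphism `rb` -/
private noncomputable def rbHom (k : ℕ) : BraidGroup k →* Matrix (Fin k) (Fin k) ℤ[T;T⁻¹] :=
  ⟨⟨rb k, rb_one k⟩, rb_mul k⟩

open Pool.Agent.Helper81 in
private theorem rb2_eq (q s : ℕ) : (rb 2 (rn 2 0 1 ^ (2 * s) * rn 2 0 2 ^ q))ᵀ =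
    (!![1, -1; 0, 1] : Matrix (Fin 2) (Fin 2) ℤ[T;T⁻¹]) *
      (ThreeBraidTwistedTorus.burau (ThreeBraidTwistedTorus.twistedTorus q s) :
        Matrix (Fin 2) (Fin 2) ℤ[T;T⁻¹]) * !![1, 1; 0, 1] := by
  have hP : (!![1, 1; 0, 1] : Matrix (Fin 2) (Fin 2) ℤ[T;T⁻¹]) * !![1, -1; 0, 1] = 1 := by
    rw [Matrix.mul_fin_two, Matrix.one_fin_two]
    simp
  have hP' : (!![1, -1; 0, 1] : Matrix (Fin 2) (Fin 2) ℤ[T;T⁻¹]) * !![1, 1; 0, 1] = 1 := by
    rw [Matrix.mul_fin_two, Matrix.one_fin_two]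
    simp
  have h1 : rn 2 0 1 = sg 2 0 := braidalg_rn_one 2 0
  have h2 : rn 2 0 2 = sg 2 1 * sg 2 0 := by
    have : rn 2 0 (1 + 1) = sg 2 (0 + 1) * rn 2 0 1 := rfl
    rw [this, h1]
  have e1 : rb 2 (rn 2 0 1 ^ (2 * s) * rn 2 0 2 ^ q) =
      rb 2 (sg 2 0) ^ (2 * s) * (rb 2 (sg 2 1) * rb 2 (sg 2 0)) ^ q := by
    rw [rb_mul, h1, h2]
    have h3 := map_pow (rbHom 2) (sg 2 0) (2 * s)
    have h4 := map_pow (rbHom 2) (sg 2 1 * sg 2 0) q
    rw [map_mul] at h4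
    change rb 2 (sg 2 0 ^ (2 * s)) = _ at h3
    change rb 2 ((sg 2 1 * sg 2 0) ^ q) = _ at h4
    rw [h3, h4]
    rfl
  have e2 : (ThreeBraidTwistedTorus.burau (ThreeBraidTwistedTorus.twistedTorus q s) :
        Matrix (Fin 2) (Fin 2) ℤ[T;T⁻¹]) =
      (!![-T 1, 1; 0, 1] * !![1, 0; T 1, -T 1]) ^ q * !![-T 1, 1; 0, 1] ^ (2 * s) := by
    have h5 : ThreeBraidTwistedTorus.burau (ThreeBraidTwistedTorus.sigma 0) =
        ThreeBraidTwistedTorus.burauA := PresentedGroup.toGroup.of _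
    have h6 : ThreeBraidTwistedTorus.burau (ThreeBraidTwistedTorus.sigma 1) =
        ThreeBraidTwistedTorus.burauB := PresentedGroup.toGroup.of _
    rw [ThreeBraidTwistedTorus.twistedTorus, map_mul, map_pow, map_pow, map_mul, h5, h6,
      Units.val_mul, Units.val_pow_eq_pow_val, Units.val_pow_eq_pow_val, Units.val_mul]
    rfl
  rw [e1, e2, Matrix.transpose_mul, Matrix.transpose_pow, Matrix.transpose_pow,
    Matrix.transpose_mul, rb2_0, rb2_1]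
  have e3 : (!![1, -1; 0, 1] : Matrix (Fin 2) (Fin 2) ℤ[T;T⁻¹]) * !![-T 1, 1; 0, 1] *
      !![1, 1; 0, 1] * (!![1, -1; 0, 1] * !![1, 0; T 1, -T 1] * !![1, 1; 0, 1]) =
      !![1, -1; 0, 1] * (!![-T 1, 1; 0, 1] * !![1, 0; T 1, -T 1]) * !![1, 1; 0, 1] := by
    simp only [Matrix.mul_assoc]
    rw [← Matrix.mul_assoc (!![1, 1; 0, 1] : Matrix (Fin 2) (Fin 2) ℤ[T;T⁻¹]), hP, Matrix.one_mul]
  rw [e3, conjM_pow _ _ _ hP hP', conjM_pow _ _ _ hP hP']
  simp only [Matrix.mul_assoc]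
  rw [← Matrix.mul_assoc (!![1, 1; 0, 1] : Matrix (Fin 2) (Fin 2) ℤ[T;T⁻¹]) !![1, -1; 0, 1], hP,
    Matrix.one_mul]

open Pool.Agent.Helper81 in
/-- The patterns on three strands whose Alexander polynomial is a product of cyclotomic
polynomials. -/
theorem three_cyc (q s : ℕ) (hq : Nat.Coprime 3 q)
    (h : IsCyclotomicProduct (alexander (rn 2 0 1 ^ (2 * s) * rn 2 0 2 ^ q))) :
    q ≤ 2 ∨ s = 0 ∨ (s = 1 ∧ q % 3 = 1) := by
  have hP : (!![1, 1; 0, 1] : Matrix (Fin 2) (Fin 2) ℤ[T;T⁻¹]) * !![1, -1; 0, 1] = 1 := by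
    rw [Matrix.mul_fin_two, Matrix.one_fin_two]
    simp
  have hP' : (!![1, -1; 0, 1] : Matrix (Fin 2) (Fin 2) ℤ[T;T⁻¹]) * !![1, 1; 0, 1] = 1 := by
    rw [Matrix.mul_fin_two, Matrix.one_fin_two]
    simp
  obtain ⟨-, h1⟩ := ThreeBraidTwistedTorus.result q s hq
  have h2 : ThreeBraidTwistedTorus.IsAlexander (ThreeBraidTwistedTorus.twistedTorus q s)
      (alexander (rn 2 0 1 ^ (2 * s) * rn 2 0 2 ^ q)) := by
    refine ⟨0, Or.inl ?_⟩
    rw [T_zero, one_mul]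
    have h3 := red_alex 2 (rn 2 0 1 ^ (2 * s) * rn 2 0 2 ^ q)
    have h4 : (∑ i ∈ Finset.range (2 + 1), (T (i : ℤ) : ℤ[T;T⁻¹])) = 1 + T 1 + T 2 := by
      rw [Finset.sum_range_succ, Finset.sum_range_succ, Finset.sum_range_one]
      simp
    rw [h4] at h3
    rw [← h3, ← Matrix.det_transpose, Matrix.transpose_sub, Matrix.transpose_one]
    have h5 := rb2_eq q s
    rw [rb] at h5
    rw [h5]
    have h6 : (1 : Matrix (Fin 2) (Fin 2) ℤ[T;T⁻¹]) - !![1, -1; 0, 1] *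
        (ThreeBraidTwistedTorus.burau (ThreeBraidTwistedTorus.twistedTorus q s) :
        Matrix (Fin 2) (Fin 2) ℤ[T;T⁻¹]) * !![1, 1; 0, 1] =
        !![1, -1; 0, 1] * (1 - (ThreeBraidTwistedTorus.burau
          (ThreeBraidTwistedTorus.twistedTorus q s) : Matrix (Fin 2) (Fin 2) ℤ[T;T⁻¹])) *
          !![1, 1; 0, 1] := by
      rw [Matrix.mul_sub, Matrix.sub_mul, Matrix.mul_one, hP']
    rw [h6, Matrix.det_conj_of_mul_eq_one hP' hP]
  exact (h1 _ h2).2.1 h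

end Pool.Agent.Helper62.SAT
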