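import Mathlib
import Pool.Agent.Helper27.TT.H
import Pool.Agent.Helper62.SAT.Main
import Pool.Agent.Helper62.SAT.Three

/-!
# The Li-Ni statement for satellites with twisted torus patterns
-/

set_option autoImplicit false

namespace Pool.Agent.Helper62.SAT

open Pool.Agent.Helper62.OB Polynomial LaurentPolynomial
open Pool.Agent.Helper27.TT (tt tt_conj main2)

/-- The satellite of the closure of the braid word `L` with the twisted torus pattern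
`(σ_{r-2} ⋯ σ_0)^(r s) (σ_{w-2} ⋯ σ_0)^t` on `w` strands. -/
def satT (w N : ℕ) {m : ℕ} (L : List (Fin m × Bool)) (r s : ℕ) (t : ℤ) : BraidGroup N :=
  cabled w N L * (rn N 0 (r - 1) ^ (r * s) * rn N 0 (w - 1) ^ t)

theorem satT_eq (m k N r s : ℕ) (h : 0 + k ≤ N) (hr : r - 1 ≤ k) (L : List (Fin m × Bool))
    (t' : ℤ) : satT (k + 1) N L r s t' = cabled (k + 1) N L *
      emb k 0 N h (rn k 0 (r - 1) ^ (r * s) * rn k 0 k ^ t') := by
  rw [satT, Nat.add_sub_cancel, map_mul, map_pow, map_zpow, emb_rn k N 0 (r - 1) h (by omega),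
    emb_rn k N 0 k h (by omega)]

theorem full_patternT (k r s q : ℕ) (t' z : ℤ) (hq : (q : ℤ) = t' + (k + 1) * z) :
    (rn k 0 k ^ (k + 1)) ^ z * (rn k 0 (r - 1) ^ (r * s) * rn k 0 k ^ t') = tt k q r s := by
  have h1 : (rn k 0 k ^ (k + 1)) ^ z * rn k 0 (r - 1) ^ (r * s) =
      rn k 0 (r - 1) ^ (r * s) * (rn k 0 k ^ (k + 1)) ^ z :=
    (Commute.zpow_left (central k (rn k 0 (r - 1) ^ (r * s))) z : _)
  rw [← mul_assoc, h1, mul_assoc, tt, ← zpow_natCast (rn k 0 k) q, ← zpow_natCast (rn k 0 k),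
    ← zpow_mul, ← zpow_add, hq]
  congr 2
  push_cast
  ring

theorem geo_T (m k N : ℕ) (hN : N + 1 = (k + 1) * (m + 1)) (hk : 1 ≤ k)
    (L : List (Fin m × Bool)) (t' z : ℤ) (ht' : t' = (k + 1 : ℕ) * z + 1) :
    IterCable ⟨m, word L⟩ ⟨N, satT (k + 1) N L k 1 t'⟩ := by
  have h : 0 + k ≤ N := by
    have : (k + 1) * 1 ≤ (k + 1) * (m + 1) := Nat.mul_le_mul_left _ (by omega)
    omega
  obtain ⟨g, hg⟩ := tt_conj k 0 0 hk
  rw [zero_mul, zero_add, zero_add] at hg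
  have e0 : tt k k k 0 = rn k 0 k ^ k := by
    rw [tt, mul_zero, pow_zero, one_mul]
  have e1 : tt k 1 k 1 = rn k 0 (k - 1) ^ (k * 1) * rn k 0 k := by
    rw [tt, pow_one]
  rw [e0, e1] at hg
  have hc : (rn k 0 k ^ (k + 1)) ^ z * g = g * (rn k 0 k ^ (k + 1)) ^ z :=
    (Commute.zpow_left (central k g) z : _)
  have e2 : rn k 0 k ^ t' = rn k 0 k * (rn k 0 k ^ (k + 1)) ^ z := by
    rw [ht', ← zpow_natCast (rn k 0 k), ← zpow_mul, ← zpow_one_add]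
    congr 1
    ring
  have e3 : rn k 0 (k - 1) ^ (k * 1) * rn k 0 k ^ t' =
      g⁻¹ * (rn k 0 k ^ ((k : ℤ) + (k + 1 : ℕ) * z)) * g⁻¹⁻¹ := by
    have h4 : rn k 0 (k - 1) ^ (k * 1) * rn k 0 k = g⁻¹ * rn k 0 k ^ k * g := by
      rw [← hg]
      group
    have h5 : rn k 0 k ^ ((k : ℤ) + (k + 1 : ℕ) * z) =
        rn k 0 k ^ k * (rn k 0 k ^ (k + 1)) ^ z := by
      rw [zpow_add, zpow_natCast, zpow_mul, zpow_natCast]
    rw [e2, ← mul_assoc, h4, h5, inv_inv]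
    simp only [mul_assoc]
    rw [hc]
  obtain ⟨H, hH⟩ := sat_conj m k N hN h L g⁻¹ (rn k 0 k ^ ((k : ℤ) + (k + 1 : ℕ) * z))
  rw [satT_eq m k N k 1 h (by omega) L t', e3]
  refine iterCable_conj hH ?_
  have h6 := IterCable.cable m (k + 1) N ((k : ℤ) + (k + 1 : ℕ) * z) L (Nat.succ_pos k) hN
    ⟨z + 1, -1, by push_cast; ring⟩ (IterCable.refl (x := ⟨m, word L⟩))
  rw [Nat.add_sub_cancel] at h6
  rw [map_zpow, emb_rn k N 0 k h (by omega)]
  exact h6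

theorem geo_Q (m N : ℕ) (hN : N + 1 = (3 + 1) * (m + 1)) (L : List (Fin m × Bool)) (t' z : ℤ)
    (ht' : t' = (3 + 1 : ℕ) * z + 1) :
    IterCable ⟨m, word L⟩ ⟨N, satT (3 + 1) N L 2 1 t'⟩ := by
  have h : 0 + 3 ≤ N := by omega
  have e2 : rn 3 0 3 ^ t' = rn 3 0 3 * (rn 3 0 3 ^ (3 + 1)) ^ z := by
    rw [ht', ← zpow_natCast (rn 3 0 3), ← zpow_mul, ← zpow_one_add]
    congr 1
    ring
  have hc : (rn 3 0 3 ^ (3 + 1)) ^ z * sg 3 1 = sg 3 1 * (rn 3 0 3 ^ (3 + 1)) ^ z :=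
    (Commute.zpow_left (central 3 (sg 3 1)) z : _)
  have h1 : rn 3 0 1 = sg 3 0 := braidalg_rn_one 3 0
  have h2 : rn 3 0 2 = sg 3 1 * sg 3 0 := by
    have : rn 3 0 (1 + 1) = sg 3 (0 + 1) * rn 3 0 1 := rfl
    rw [this, h1]
  have h3 : sg 3 0 * rn 3 0 3 = rn 3 0 3 * sg 3 1 := shift 3 0 (by omega)
  have e3 : rn 3 0 (2 - 1) ^ (2 * 1) * rn 3 0 3 ^ t' =
      (sg 3 1)⁻¹ * (rn 3 0 2 * rn 3 0 3 ^ t') * (sg 3 1)⁻¹⁻¹ := by
    rw [e2, h2, inv_inv]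
    change rn 3 0 1 ^ 2 * _ = _
    rw [h1, pow_two]
    calc sg 3 0 * sg 3 0 * (rn 3 0 3 * (rn 3 0 3 ^ (3 + 1)) ^ z)
        = sg 3 0 * (sg 3 0 * rn 3 0 3) * (rn 3 0 3 ^ (3 + 1)) ^ z := by simp only [mul_assoc]
      _ = sg 3 0 * (rn 3 0 3 * sg 3 1) * (rn 3 0 3 ^ (3 + 1)) ^ z := by rw [h3]
      _ = sg 3 0 * rn 3 0 3 * (sg 3 1 * (rn 3 0 3 ^ (3 + 1)) ^ z) := by simp only [mul_assoc]
      _ = sg 3 0 * rn 3 0 3 * ((rn 3 0 3 ^ (3 + 1)) ^ z * sg 3 1) := by rw [hc]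
      _ = _ := by group
  obtain ⟨H, hH⟩ := sat_conj m 3 N hN h L (sg 3 1)⁻¹ (rn 3 0 2 * rn 3 0 3 ^ t')
  rw [satT_eq m 3 N 2 1 h (by omega) L t', e3]
  refine iterCable_conj hH ?_
  rw [← rn_N_eq_emb 3 N h 2 (by omega) t']
  exact geo_B m 3 N 2 2 hN (by omega) (by omega) (by norm_num) L (2 * z + 1) t'
    ⟨1, -z, by push_cast; ring⟩ (by rw [ht']; push_cast; ring)

theorem satT_main (m k N r s q j : ℕ) (t' : ℤ) (hN : N + 1 = (k + 1) * (m + 1)) (hk : 2 ≤ k)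
    (hs : 1 ≤ s) (hr2 : 2 ≤ r) (hr : r = k ∨ (s = 1 ∧ (r = 2 ∨ r + 1 = k)))
    (L : List (Fin m × Bool)) (hq : (q : ℤ) = t' + (k + 1) * writhe L)
    (hq1 : q = j * (k + 1) + 1 ∨ q + 1 = j * (k + 1)) (hqk : k + 1 < q)
    (hK : IsKnot (satT (k + 1) N L r s t'))
    (hΔ : IsCyclotomicProduct (alexander (satT (k + 1) N L r s t'))) :
    IsCyclotomicProduct (alexander (word L)) ∧
    ((r = k ∧ s = 1 ∧ q = j * (k + 1) + 1) ∨ (k = 3 ∧ r = 2 ∧ s = 1 ∧ q = 4 * j + 1)) ∧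
    IterCable ⟨m, word L⟩ ⟨N, satT (k + 1) N L r s t'⟩ := by
  have h : 0 + k ≤ N := by
    have : (k + 1) * 1 ≤ (k + 1) * (m + 1) := Nat.mul_le_mul_left _ (by omega)
    omega
  have hrk : r - 1 ≤ k := by omega
  have hK' := hK
  rw [satT_eq m k N r s h hrk L t'] at hK' hΔ
  obtain ⟨hL, hp⟩ := knot_of_sat m k N hN h L _ hK'
  rw [alexander_sat m k N hN h L hL, full_patternT k r s q t' (writhe L) hq] at hΔ
  obtain ⟨h1, h2⟩ := cyc_of_psi_mul (k + 1) (Nat.succ_pos k) _ _ hΔ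
  have h3 : (r = k ∧ s = 1 ∧ q = j * (k + 1) + 1) ∨
      (k = 3 ∧ r = 2 ∧ s = 1 ∧ q = 4 * j + 1) := by
    rcases (show k = 2 ∨ 3 ≤ k by omega) with hk2 | hk3
    · subst hk2
      have hr' : r = 2 := by omega
      subst hr'
      have hcop : Nat.Coprime 3 q := by
        rw [Nat.Prime.coprime_iff_not_dvd Nat.prime_three]
        omega
      have h4 := three_cyc q s hcop h2
      left
      omega
    · have hj : 1 ≤ j := by
        rcases Nat.eq_zero_or_pos j with h5 | h5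
        · subst h5
          omega
        · exact h5
      have h5 := main2 (k + 1) j r s q (by omega) hj hs hq1 (by omega) h2
      rcases h5 with ⟨-, h5⟩ | ⟨-, h5⟩
      · left
        rcases h5 with h5 | h5 | h5
        · exact ⟨by omega, h5.2.1, h5.2.2⟩
        · omega
        · omega
      · right
        omega
  refine ⟨h1, h3, ?_⟩
  rcases h3 with ⟨rfl, rfl, h4⟩ | ⟨rfl, rfl, rfl, h4⟩
  · refine geo_T m r N hN (by omega) L t' (j - writhe L) ?_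
    have h5 : (q : ℤ) = j * (r + 1) + 1 := by exact_mod_cast h4
    rw [h5] at hq
    push_cast
    linear_combination -hq
  · refine geo_Q m N hN L t' (j - writhe L) ?_
    have h5 : (q : ℤ) = 4 * j + 1 := by exact_mod_cast h4
    rw [h5] at hq
    push_cast at hq ⊢
    linear_combination -hq

end Pool.Agent.Helper62.SAT
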