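import Mathlib
import Pool.Agent.Helper62.SAT.Twist
import Pool.Agent.Helper62.SAT.Class

/-!
# The Li-Ni statement for iterated satellites
-/

set_option autoImplicit false

namespace Pool.Agent.Helper62.SAT

open Pool.Agent.Helper62.OB

/-- the satellites -/
theorem pattern_main (m w N : ℕ) (L : List (Fin m × Bool)) (p : BraidGroup N) (hw : 0 < w)
    (hN : N + 1 = w * (m + 1)) (hp : Pattern w N (writhe L) p) (hK : IsKnot (cabled w N L * p))
    (hΔ : IsCyclotomicProduct (alexander (cabled w N L * p))) :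
    IsCyclotomicProduct (alexander (word L)) ∧ IterCable ⟨m, word L⟩ ⟨N, cabled w N L * p⟩ := by
  obtain ⟨k, rfl⟩ : ∃ k, w = k + 1 := ⟨w - 1, by omega⟩
  cases hp with
  | bridge b t hb hbt =>
    have h1 := sat_main m k N b t ((t : ℤ) - (k + 1 : ℕ) * writhe L) hN (by omega) L
      (by push_cast; ring) hbt hK hΔ
    exact ⟨h1.1, h1.2.2.2⟩
  | twist r s t hw3 hs hr hrs ht hwt =>
    obtain ⟨j, hj⟩ : ∃ j, t = j * (k + 1) + 1 ∨ t + 1 = j * (k + 1) := by
      have h2 := Nat.div_add_mod t (k + 1)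
      rcases ht with ht | ht
      · refine ⟨t / (k + 1), Or.inl ?_⟩
        rw [ht] at h2
        rw [mul_comm]
        exact h2.symm
      · refine ⟨t / (k + 1) + 1, Or.inr ?_⟩
        rw [ht] at h2
        rw [add_mul, one_mul, mul_comm (t / (k + 1))]
        omega
    have h1 := satT_main m k N r s t j ((t : ℤ) - (k + 1 : ℕ) * writhe L) hN (by omega) hs hr
      (by omega) L (by push_cast; ring) hj hwt hK hΔ
    exact ⟨h1.1, h1.2.2⟩

theorem class_main (x y : Σ m : ℕ, BraidGroup m) (hy : IterSat x y)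
    (hΔ : IsCyclotomicProduct (alexander y.2)) :
    IsCyclotomicProduct (alexander x.2) ∧ IterCable x y := by
  induction hy with
  | refl => exact ⟨hΔ, IterCable.refl⟩
  | sat m w N L p hw hN hp hK _ ih =>
    obtain ⟨h1, h2⟩ := pattern_main m w N L p hw hN hp hK hΔ
    obtain ⟨h3, h4⟩ := ih h1
    exact ⟨h3, h4.trans h2⟩
  | markov y z h _ ih =>
    obtain ⟨h3, h4⟩ := ih (cyc_markov z y (Relation.EqvGen.symm _ _ h) hΔ)
    exact ⟨h3, IterCable.markov y z h h4⟩

end Pool.Agent.Helper62.SAT
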