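import Mathlib
import Pool.Agent.Helper62.OB.Defs
import Pool.Agent.Helper62.SAT.Defs2
import Pool.Agent.Helper62.SAT.Class
import Pool.Agent.Helper62.SAT.Final

/-!
# Q1 of MP_54f4f3_gt for iterated satellites with 1-bridge and twisted torus patterns
-/

set_option autoImplicit false

namespace Pool.Agent.Helper62.SAT.IteratedSatellites

open Pool.Agent.Helper62.OB Pool.Agent.Helper62.SAT

/-- **Main theorem.** Let the knot `y` be obtained from the knot `x` by finitely many satellite
operations with the patterns of `Pattern`: 1-bridge braids `B(w, b, t)` with `b < t`, and twisted torus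
braids `T(w, t; r, s)` with `t = ± 1` modulo `w`, `t > w` (the exponent `t` refers to the preferred
framing of the companion). If the Alexander polynomial of `y` is a product of cyclotomic polynomials,
then so is the Alexander polynomial of `x`, and `y` arises from `x` by cabling operations. So `y` is an
iterated torus knot if `x` is one, for example if `x` is the unknot. -/
theorem result (x y : Σ m : ℕ, BraidGroup m) (hy : IterSat x y)
    (hΔ : IsCyclotomicProduct (alexander y.2)) :
    IsCyclotomicProduct (alexander x.2) ∧ IterCable x y ∧ (IsIterTorus x → IsIterTorus y) := by
  obtain ⟨h1, h2⟩ := class_main x y hy hΔ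
  exact ⟨h1, h2, h2.iterTorus⟩

end Pool.Agent.Helper62.SAT.IteratedSatellites
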